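import Mathlib
import Pool.Graph.R_seed8.H785R2.ABC.Defs

/-!
# Exponents of triples `a + b = c` with a tiny `a`: the configurations without saving
-/

namespace Pool.Agent.H541.SM

open Finset Pool.Agent.H785R2.ABC

/-- the parameters of a bound -/
structure Par (K : ℕ) where
  p : Fin 3
  q : Fin 3
  r : Fin 3
  k : ℕ
  Sp : Finset (Fin (K + 1))
  Sq : Finset (Fin (K + 1))
  F : Finset (Fin (K + 1))

def Par.Valid {K : ℕ} (b : Par K) : Prop :=
  b.p ≠ b.q ∧ b.q ≠ b.r ∧ b.p ≠ b.r ∧ 1 ≤ b.k ∧ b.k ≤ K + 1 ∧ Good K b.k b.Sp ∧ Good K b.k b.Sq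

/-- exponent of the first term of the bound -/
def Par.f1 {K : ℕ} (b : Par K) (v : Fin 3 → Fin (K + 1) → ℝ) : ℝ :=
  cost v b.p b.Spᶜ + cost v b.q b.Sqᶜ + cost v b.r b.F

/-- exponent of the second term of the bound -/
noncomputable def Par.f2 {K : ℕ} (b : Par K) (v w : Fin 3 → Fin (K + 1) → ℝ) : ℝ :=
  b.f1 v + ((cost w b.p b.Sp + cost w b.q b.Sq) / b.k - cost w b.r b.F - thn w b.r)

/-- limit of exponents of triples with tiny `a` -/
structure Lim (K : ℕ) (lam : ℝ) (v w : Fin 3 → Fin (K + 1) → ℝ) : Prop where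
  v_nonneg : ∀ j i, 0 ≤ v j i
  w_eq : ∀ (j : Fin 3) (i : Fin (K + 1)), (i : ℕ) < K → w j i = (((i : ℕ) : ℝ) + 1) * v j i
  w_last : ∀ j : Fin 3, ((K : ℝ) + 1) * v j (Fin.last K) ≤ w j (Fin.last K)
  v0 : ∀ i, v 0 i = 0
  w0 : cost w 0 univ = 0
  w1 : ∀ j, j ≠ 0 → cost w j univ = 1
  tot : cost v 0 univ + cost v 1 univ + cost v 2 univ ≤ lam

/-- no bound saves anything -/
def NoSave {K : ℕ} (lam : ℝ) (v w : Fin 3 → Fin (K + 1) → ℝ) : Prop :=
  ∀ b : Par K, b.Valid → lam / 2 ≤ b.f1 v ∨ lam / 2 ≤ b.f2 v w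

variable {K : ℕ} {lam : ℝ} {v w : Fin 3 → Fin (K + 1) → ℝ}

lemma cost_compl (v : Fin 3 → Fin (K + 1) → ℝ) (j : Fin 3) (S : Finset (Fin (K + 1))) :
    cost v j Sᶜ = cost v j univ - cost v j S := by
  unfold cost
  have := sum_add_sum_compl S (v j)
  linarith

lemma cost_empty (v : Fin 3 → Fin (K + 1) → ℝ) (j : Fin 3) : cost v j ∅ = 0 := by
  simp [cost]

lemma cost_single (v : Fin 3 → Fin (K + 1) → ℝ) (j : Fin 3) (i : Fin (K + 1)) :
    cost v j {i} = v j i := by
  simp [cost]

lemma good_one (S : Finset (Fin (K + 1))) : Good K 1 S := fun _ _ => Or.inl rfl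

lemma good_single (i : Fin (K + 1)) (hi : (i : ℕ) < K) : Good K ((i : ℕ) + 1) {i} := by
  intro j hj
  rw [mem_singleton] at hj
  subst hj
  exact Or.inr ⟨hi, dvd_rfl⟩

lemma good_empty (k : ℕ) : Good K k ∅ := fun _ h => absurd h (notMem_empty _)

lemma cost0 (hL : Lim K lam v w) (S : Finset (Fin (K + 1))) : cost v 0 S = 0 := by
  unfold cost
  exact sum_eq_zero fun i _ => hL.v0 i

lemma w_ge (hL : Lim K lam v w) (j : Fin 3) (i : Fin (K + 1)) :
    (((i : ℕ) : ℝ) + 1) * v j i ≤ w j i := by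
  by_cases hi : (i : ℕ) < K
  · exact (hL.w_eq j i hi).ge
  · have : i = Fin.last K := by
      apply Fin.ext
      have := i.isLt
      simp only [Fin.val_last]
      omega
    subst this
    simpa using hL.w_last j

lemma w_nonneg (hL : Lim K lam v w) (j : Fin 3) (i : Fin (K + 1)) : 0 ≤ w j i :=
  le_trans (mul_nonneg (by positivity) (hL.v_nonneg j i)) (w_ge hL j i)

lemma w0_zero (hL : Lim K lam v w) (i : Fin (K + 1)) : w 0 i = 0 :=
  (sum_eq_zero_iff_of_nonneg (fun i _ => w_nonneg hL 0 i)).1 hL.w0 i (mem_univ _)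

lemma costw0 (hL : Lim K lam v w) (S : Finset (Fin (K + 1))) : cost w 0 S = 0 := by
  unfold cost
  exact sum_eq_zero fun i _ => w0_zero hL i

/-- the trivial bound -/
lemma triv (hL : Lim K lam v w) (hN : NoSave lam v w) {p q : Fin 3} (hpq : p ≠ q) (hp : p ≠ 0)
    (hq : q ≠ 0) : lam / 2 ≤ cost v q univ := by
  have h := hN ⟨p, q, 0, 1, univ, ∅, ∅⟩ ⟨hpq, hq, hp, le_rfl, by simp, good_one _, good_one _⟩
  simp only [Par.f1, Par.f2, thn, cost_compl, cost_empty, cost0 hL, hL.w0, hL.w1 p hp, if_true,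
    Nat.cast_one] at h
  rcases h with h | h <;> linarith

/-- roots modulo a part of `q` -/
lemma root (hL : Lim K lam v w) (hN : NoSave lam v w) {p q : Fin 3} (hpq : p ≠ q) (hp : p ≠ 0)
    (hq : q ≠ 0) (hv : cost v p univ ≤ lam / 2) (i j : Fin (K + 1)) (hi : (i : ℕ) < K) :
    v p i ≤ v q j ∨ w q j ≤ v q j := by
  have h := hN ⟨p, 0, q, (i : ℕ) + 1, {i}, ∅, {j}⟩
    ⟨hp, hq.symm, hpq, by simp, by simp; omega, good_single i hi, good_empty _⟩
  have e : w p i / (((i : ℕ) : ℝ) + 1) = v p i := by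
    rw [hL.w_eq p i hi]
    field_simp
  simp only [Par.f1, Par.f2, thn, cost_compl, cost_empty, cost0 hL, cost_single, if_neg hq,
    Nat.cast_add, Nat.cast_one, add_zero, e] at h
  rcases h with h | h
  · left; linarith
  · right; linarith

/-- the pure powers -/
lemma pell (hL : Lim K lam v w) (hN : NoSave lam v w) (h2 : lam < 2)
    (hv : cost v 1 univ + cost v 2 univ ≤ lam) (i : Fin (K + 1)) (hi : (i : ℕ) < K) :
    v 1 i + v 2 i ≤ lam / 2 := by
  have h := hN ⟨1, 2, 0, (i : ℕ) + 1, {i}, {i}, ∅⟩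
    ⟨show (1 : Fin 3) ≠ 2 by decide, show (2 : Fin 3) ≠ 0 by decide,
      show (1 : Fin 3) ≠ 0 by decide, by simp, by simp; omega, good_single i hi, good_single i hi⟩
  have e : (w 1 i + w 2 i) / (((i : ℕ) : ℝ) + 1) = v 1 i + v 2 i := by
    rw [hL.w_eq 1 i hi, hL.w_eq 2 i hi]
    field_simp
  simp only [Par.f1, Par.f2, thn, cost_compl, cost_empty, cost_single, hL.w0, if_true,
    Nat.cast_add, Nat.cast_one, e] at h
  rcases h with h | h <;> linarith

/-- congruences -/
lemma crt (hL : Lim K lam v w) (hN : NoSave lam v w) (S T : Finset (Fin (K + 1))) :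
    lam / 2 ≤ cost v 1 S + cost v 2 T ∨
      lam / 2 ≤ cost v 1 S + cost v 2 T + (1 - cost w 1 S - cost w 2 T) := by
  have h := hN ⟨1, 2, 0, 1, Sᶜ, Tᶜ, ∅⟩
    ⟨show (1 : Fin 3) ≠ 2 by decide, show (2 : Fin 3) ≠ 0 by decide,
      show (1 : Fin 3) ≠ 0 by decide, by simp, by simp, good_one _, good_one _⟩
  simp only [Par.f1, Par.f2, thn, compl_compl, cost_empty, cost_compl w, hL.w0, if_true,
    Nat.cast_one, hL.w1 1 (by decide), hL.w1 2 (by decide)] at h
  rcases h with h | h
  · left; linarith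
  · right; linarith

/-- the masses cannot all be small -/
lemma mass (hL : Lim K lam v w) {p : Fin 3} (hp : p ≠ 0) (hμ : lam / 2 ≤ cost v p univ) (T : ℕ)
    (hT : 4 ≤ T * lam) (s : ℝ) (hs : ∀ i, v p i ≤ s) (hs0 : 0 ≤ s) : 1 ≤ s * T ^ 2 := by
  have h1 : ∑ i : Fin (K + 1), ((T : ℝ) * v p i - ((T - 1 - (i : ℕ) : ℕ) : ℝ) * s) ≤
      ∑ i, w p i := by
    apply sum_le_sum
    intro i _
    have h2 := w_ge hL p i
    have h3 : (T : ℝ) ≤ ((i : ℕ) : ℝ) + 1 + ((T - 1 - (i : ℕ) : ℕ) : ℝ) := by
      have : T ≤ (i : ℕ) + 1 + (T - 1 - (i : ℕ)) := by omega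
      exact_mod_cast this
    have h4 := mul_le_mul_of_nonneg_right h3 (hL.v_nonneg p i)
    have h5 := mul_le_mul_of_nonneg_left (hs i) (Nat.cast_nonneg (α := ℝ) (T - 1 - (i : ℕ)))
    nlinarith
  rw [sum_sub_distrib, ← mul_sum, ← sum_mul] at h1
  have h6 : ∑ i : Fin (K + 1), ((T - 1 - (i : ℕ) : ℕ) : ℝ) ≤ (T : ℝ) ^ 2 := by
    have h7 : ∑ i : Fin (K + 1), (T - 1 - (i : ℕ)) ≤ T ^ 2 := by
      rw [Fin.sum_univ_eq_sum_range (fun i => T - 1 - i) (K + 1)]
      calc ∑ i ∈ range (K + 1), (T - 1 - i) ≤ ∑ i ∈ range (K + 1), (if i < T then T else 0) := by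
            apply sum_le_sum
            intro i _
            split_ifs <;> omega
        _ = ∑ i ∈ (range (K + 1)).filter (· < T), T := by rw [sum_filter]
        _ = ((range (K + 1)).filter (· < T)).card * T := by rw [sum_const, smul_eq_mul]
        _ ≤ T * T := by
            apply Nat.mul_le_mul_right
            calc _ ≤ (range T).card := card_le_card (by
                  intro i hi
                  rw [mem_filter] at hi
                  exact mem_range.2 hi.2)
              _ = T := card_range T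
        _ = T ^ 2 := by ring
    exact_mod_cast h7
  have h8 : ∑ i, w p i = 1 := hL.w1 p hp
  have h9 : lam / 2 ≤ ∑ i, v p i := hμ
  have h10 : (T : ℝ) * (lam / 2) ≤ (T : ℝ) * ∑ i, v p i :=
    mul_le_mul_of_nonneg_left h9 (Nat.cast_nonneg _)
  have h11 := mul_le_mul_of_nonneg_right h6 hs0
  nlinarith

/-- the structure of the configurations without saving -/
structure Str (K : ℕ) (lam : ℝ) (v w : Fin 3 → Fin (K + 1) → ℝ) (c : ℝ) : Prop where
  pos : 0 < c
  mu : ∀ j, j ≠ 0 → cost v j univ = lam / 2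
  vlast : ∀ j, j ≠ 0 → v j (Fin.last K) = 0
  wlast : ∀ j, j ≠ 0 → w j (Fin.last K) = 0
  le : ∀ (j : Fin 3) (i : Fin (K + 1)), j ≠ 0 → v j i ≤ c
  heavy : ∀ (j : Fin 3) (i : Fin (K + 1)), j ≠ 0 → 1 ≤ (i : ℕ) → v j i = 0 ∨ v j i = c
  ex : ∀ j, j ≠ 0 → ∃ i : Fin (K + 1), 1 ≤ (i : ℕ) ∧ (i : ℕ) < K ∧ v j i = c

lemma str_of (hL : Lim K lam v w) (hN : NoSave lam v w) (h2 : lam < 2) (T : ℕ)
    (hT : 4 ≤ T * lam) (hK : T ^ 2 ≤ K) : ∃ c, Str K lam v w c := by
  have t1 := triv hL hN (p := 1) (q := 2) (by decide) (by decide) (by decide)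
  have t2 := triv hL hN (p := 2) (q := 1) (by decide) (by decide) (by decide)
  have htot := hL.tot
  rw [cost0 hL] at htot
  have mu : ∀ j, j ≠ 0 → cost v j univ = lam / 2 := by
    intro j hj
    fin_cases j
    · exact absurd rfl hj
    · simp only [Fin.mk_one]; linarith
    · simp only [Fin.reduceFinMk]; linarith
  -- the last class
  have hKr : ((T : ℝ)) ^ 2 < (K : ℝ) + 1 := by
    have : T ^ 2 < K + 1 := by omega
    exact_mod_cast this
  have last_small : ∀ j, j ≠ 0 → v j (Fin.last K) ≤ 1 / ((K : ℝ) + 1) := by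
    intro j hj
    rw [le_div_iff₀ (by positivity)]
    have h1 := hL.w_last j
    have h3 : w j (Fin.last K) ≤ cost w j univ :=
      single_le_sum (f := w j) (fun i _ => w_nonneg hL j i) (mem_univ _)
    rw [hL.w1 j hj] at h3
    linarith
  have last0 : ∀ p q : Fin 3, p ≠ q → p ≠ 0 → q ≠ 0 →
      w q (Fin.last K) ≤ v q (Fin.last K) := by
    intro p q hpq hp hq
    by_contra hcon
    push Not at hcon
    have h1 : ∀ i, v p i ≤ 1 / ((K : ℝ) + 1) := by
      intro i
      by_cases hi : (i : ℕ) < K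
      · rcases root hL hN hpq hp hq (mu p hp).le i (Fin.last K) hi with h | h
        · exact h.trans (last_small q hq)
        · exact absurd h (not_le.2 hcon)
      · have : i = Fin.last K := by
          apply Fin.ext
          have := i.isLt
          simp only [Fin.val_last]
          omega
        subst this
        exact last_small p hp
    have h3 := mass hL hp (mu p hp).ge T hT _ h1 (by positivity)
    rw [div_mul_eq_mul_div, one_mul, le_div_iff₀ (by positivity)] at h3
    linarith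
  have vlast : ∀ j, j ≠ 0 → v j (Fin.last K) = 0 := by
    intro j hj
    have h1 : w j (Fin.last K) ≤ v j (Fin.last K) := by
      fin_cases j
      · exact absurd rfl hj
      · exact last0 2 1 (by decide) (by decide) (by decide)
      · exact last0 1 2 (by decide) (by decide) (by decide)
    have h3 := hL.w_last j
    have h4 := hL.v_nonneg j (Fin.last K)
    have h5 : 0 < (K : ℝ) := by
      have : 0 < T := by
        rcases Nat.eq_zero_or_pos T with h | h
        · subst h; norm_num at hT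
        · exact h
      have : 0 < K := lt_of_lt_of_le (by positivity) hK
      exact_mod_cast this
    nlinarith
  have wlast : ∀ j, j ≠ 0 → w j (Fin.last K) = 0 := by
    intro j hj
    have h1 : w j (Fin.last K) ≤ v j (Fin.last K) := by
      fin_cases j
      · exact absurd rfl hj
      · exact last0 2 1 (by decide) (by decide) (by decide)
      · exact last0 1 2 (by decide) (by decide) (by decide)
    rw [vlast j hj] at h1
    exact le_antisymm h1 (w_nonneg hL j _)
  -- heavy classes exist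
  have exh : ∀ j, j ≠ 0 → ∃ i : Fin (K + 1), 1 ≤ (i : ℕ) ∧ (i : ℕ) < K ∧ 0 < v j i := by
    intro j hj
    by_contra hcon
    push Not at hcon
    have h1 : cost w j univ ≤ cost v j univ := by
      apply sum_le_sum
      intro i _
      by_cases hi : (i : ℕ) < K
      · rw [hL.w_eq j i hi]
        rcases Nat.eq_zero_or_pos (i : ℕ) with h0 | h0
        · rw [h0]; simp
        · have h3 := hcon i h0 hi
          have h4 := hL.v_nonneg j i
          have h5 : v j i = 0 := le_antisymm h3 h4
          rw [h5]; simp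
      · have : i = Fin.last K := by
          apply Fin.ext
          have := i.isLt
          simp only [Fin.val_last]
          omega
        subst this
        rw [wlast j hj, vlast j hj]
    rw [hL.w1 j hj, mu j hj] at h1
    linarith
  have rt : ∀ p q : Fin 3, p ≠ q → p ≠ 0 → q ≠ 0 → ∀ i j : Fin (K + 1), (i : ℕ) < K →
      1 ≤ (j : ℕ) → (j : ℕ) < K → 0 < v q j → v p i ≤ v q j := by
    intro p q hpq hp hq i j hi hj1 hjK hj
    rcases root hL hN hpq hp hq (mu p hp).le i j hi with h | h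
    · exact h
    · rw [hL.w_eq q j hjK] at h
      have : (1 : ℝ) ≤ ((j : ℕ) : ℝ) := by exact_mod_cast hj1
      nlinarith
  obtain ⟨i0, hi1, hiK, hi0⟩ := exh 1 (by decide)
  obtain ⟨j0, hj1, hjK, hj0⟩ := exh 2 (by decide)
  have e1 := rt 1 2 (by decide) (by decide) (by decide) i0 j0 hiK hj1 hjK hj0
  have e2 := rt 2 1 (by decide) (by decide) (by decide) j0 i0 hjK hi1 hiK hi0
  have e3 : v 2 j0 = v 1 i0 := le_antisymm e2 e1
  refine ⟨v 1 i0, hi0, mu, vlast, wlast, ?_, ?_, ?_⟩
  · intro j i hj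
    by_cases hi : (i : ℕ) < K
    · fin_cases j
      · exact absurd rfl hj
      · have := rt 1 2 (by decide) (by decide) (by decide) i j0 hi hj1 hjK hj0
        simp only [Fin.mk_one]
        linarith
      · exact rt 2 1 (by decide) (by decide) (by decide) i i0 hi hi1 hiK hi0
    · have : i = Fin.last K := by
        apply Fin.ext
        have := i.isLt
        simp only [Fin.val_last]
        omega
      subst this
      rw [vlast j hj]
      exact hi0.le
  · intro j i hj hi1'
    by_cases hi : (i : ℕ) < K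
    · by_cases h0 : v j i = 0
      · exact Or.inl h0
      · right
        have hpos : 0 < v j i := lt_of_le_of_ne (hL.v_nonneg j i) (Ne.symm h0)
        fin_cases j
        · exact absurd rfl hj
        · have a1 := rt 1 2 (by decide) (by decide) (by decide) i j0 hi hj1 hjK hj0
          have a2 := rt 2 1 (by decide) (by decide) (by decide) j0 i hjK hi1' hi hpos
          simp only [Fin.mk_one]
          linarith
        · have a1 := rt 2 1 (by decide) (by decide) (by decide) i i0 hi hi1 hiK hi0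
          have a2 := rt 1 2 (by decide) (by decide) (by decide) i0 i hiK hi1' hi hpos
          simp only [Fin.reduceFinMk]
          linarith
    · left
      have : i = Fin.last K := by
        apply Fin.ext
        have := i.isLt
        simp only [Fin.val_last]
        omega
      subst this
      exact vlast j hj
  · intro j hj
    fin_cases j
    · exact absurd rfl hj
    · exact ⟨i0, hi1, hiK, rfl⟩
    · exact ⟨j0, hj1, hjK, e3⟩

end Pool.Agent.H541.SM
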