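import Mathlib
import Pool.Agent.H541.SM.Exact

/-!
# The configurations without saving: generic `lam`, and `lam = 1`
-/

namespace Pool.Agent.H541.SM

open Finset Pool.Agent.H785R2.ABC

variable {K : ℕ} {lam : ℝ} {v w : Fin 3 → Fin (K + 1) → ℝ} {c : ℝ}

/-- `lam / 2` is not the inverse of the mean of a set of two or more positive integers -/
def Generic (lam : ℝ) : Prop :=
  ∀ G : Finset ℕ, 2 ≤ G.card → (∀ i ∈ G, 1 ≤ i) → lam * ∑ i ∈ G, (i : ℝ) ≠ 2 * G.card

/-- the heavy classes -/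
noncomputable def Hv (v : Fin 3 → Fin (K + 1) → ℝ) (c : ℝ) (j : Fin 3) : Finset (Fin (K + 1)) :=
  univ.filter fun i => 1 ≤ (i : ℕ) ∧ v j i = c

lemma lt_of_heavy (hS : Str K lam v w c) {j : Fin 3} (hj : j ≠ 0) {i : Fin (K + 1)}
    (hi : v j i = c) : (i : ℕ) < K := by
  by_contra h
  have : i = Fin.last K := by
    apply Fin.ext
    have := i.isLt
    simp only [Fin.val_last]
    omega
  subst this
  have := hS.vlast j hj
  have := hS.pos
  linarith

lemma w_heavy (hL : Lim K lam v w) (hS : Str K lam v w c) {j : Fin 3} (hj : j ≠ 0)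
    {i : Fin (K + 1)} (hi : v j i = c) : w j i = (((i : ℕ) : ℝ) + 1) * c := by
  rw [hL.w_eq j i (lt_of_heavy hS hj hi), hi]

lemma w_zero (hL : Lim K lam v w) (hS : Str K lam v w c) {j : Fin 3} (hj : j ≠ 0)
    {i : Fin (K + 1)} (hi : v j i = 0) : w j i = 0 := by
  by_cases h : (i : ℕ) < K
  · rw [hL.w_eq j i h, hi, mul_zero]
  · have : i = Fin.last K := by
      apply Fin.ext
      have := i.isLt
      simp only [Fin.val_last]
      omega
    subst this
    exact hS.wlast j hj

lemma cost_Hv (hL : Lim K lam v w) (hS : Str K lam v w c) {j : Fin 3} (hj : j ≠ 0) (hK : 0 < K) :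
    cost v j (Hv v c j) = lam / 2 - v j 0 ∧ cost w j (Hv v c j) = 1 - v j 0 := by
  classical
  have h0 : (0 : Fin (K + 1)) ∈ (Hv v c j)ᶜ := by
    rw [mem_compl, Hv, mem_filter]
    rintro ⟨-, h, -⟩
    simp at h
  have hz : ∀ i ∈ (Hv v c j)ᶜ, i ≠ 0 → v j i = 0 := by
    intro i hi hne
    rw [mem_compl, Hv, mem_filter] at hi
    have h1 : 1 ≤ (i : ℕ) := by
      rcases Nat.eq_zero_or_pos (i : ℕ) with h | h
      · exact absurd (Fin.ext (by simpa using h)) hne
      · exact h
    rcases hS.heavy j i hj h1 with h | h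
    · exact h
    · exact absurd ⟨mem_univ _, h1, h⟩ hi
  have a1 : cost v j (Hv v c j)ᶜ = v j 0 := by
    unfold cost
    exact sum_eq_single_of_mem 0 h0 hz
  have a2 : cost w j (Hv v c j)ᶜ = v j 0 := by
    unfold cost
    rw [sum_eq_single_of_mem 0 h0 (fun i hi hne => w_zero hL hS hj (hz i hi hne)),
      hL.w_eq j 0 (by simpa using hK)]
    simp
  rw [cost_compl] at a1 a2
  rw [hS.mu j hj] at a1
  rw [hL.w1 j hj] at a2
  constructor <;> linarith

lemma mem_Hv {j : Fin 3} {i : Fin (K + 1)} : i ∈ Hv v c j ↔ 1 ≤ (i : ℕ) ∧ v j i = c := by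
  simp [Hv]

lemma c_lt (hL : Lim K lam v w) (hN : NoSave lam v w) (hS : Str K lam v w c) (h2 : lam < 2) :
    c < lam / 2 := by
  by_contra hcon
  push Not at hcon
  have huniq : ∀ j, j ≠ 0 → ∀ i, v j i = c → c = lam / 2 ∧ (((i : ℕ) : ℝ) + 1) * c = 1 := by
    intro j hj i hi
    have e := hS.mu j hj
    have e1 : cost v j univ = v j i + ∑ x ∈ univ.erase i, v j x := by
      unfold cost
      rw [add_sum_erase _ _ (mem_univ i)]
    have e2 : 0 ≤ ∑ x ∈ univ.erase i, v j x := sum_nonneg fun x _ => hL.v_nonneg j x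
    have e3 : ∑ x ∈ univ.erase i, v j x = 0 := by linarith
    have e4 := (sum_eq_zero_iff_of_nonneg (fun x _ => hL.v_nonneg j x)).1 e3
    have e5 : cost w j univ = w j i + ∑ x ∈ univ.erase i, w j x := by
      unfold cost
      rw [add_sum_erase _ _ (mem_univ i)]
    have e6 : ∑ x ∈ univ.erase i, w j x = 0 :=
      sum_eq_zero fun x hx => w_zero hL hS hj (e4 x hx)
    rw [hL.w1 j hj, e6, w_heavy hL hS hj hi] at e5
    constructor
    · linarith
    · linarith
  obtain ⟨i, hi1, hiK, hi⟩ := hS.ex 1 (by decide)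
  obtain ⟨i', hi1', hiK', hi'⟩ := hS.ex 2 (by decide)
  obtain ⟨a1, a2⟩ := huniq 1 (by decide) i hi
  obtain ⟨b1, b2⟩ := huniq 2 (by decide) i' hi'
  have hc := hS.pos
  have e : ((i : ℕ) : ℝ) = ((i' : ℕ) : ℝ) := by
    have : (((i : ℕ) : ℝ) + 1) * c = (((i' : ℕ) : ℝ) + 1) * c := by rw [a2, b2]
    have := mul_right_cancel₀ hc.ne' this
    linarith
  have e' : i = i' := Fin.ext (by exact_mod_cast e)
  subst e'
  have hp := pell hL hN h2 (by rw [hS.mu 1 (by decide), hS.mu 2 (by decide)]; linarith) i hiK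
  rw [hi, hi'] at hp
  linarith

/-- comparison of the heavy classes of the two sides -/
lemma compare1 (hL : Lim K lam v w) (hN : NoSave lam v w) (hS : Str K lam v w c) (hK : 0 < K)
    (h0 : 0 < v 1 0) {x y : Fin (K + 1)} (hx : x ∈ Hv v c 1) (hy : y ∈ Hv v c 2) :
    (y : ℕ) ≤ (x : ℕ) := by
  classical
  obtain ⟨c1, c2⟩ := cost_Hv hL hS (j := 1) (by decide) hK
  have hc := hS.pos
  have hx' := (mem_Hv.1 hx).2
  have hy' := (mem_Hv.1 hy).2
  have e1 : cost v 1 ((Hv v c 1).erase x) = lam / 2 - v 1 0 - c := by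
    have : cost v 1 (Hv v c 1) = v 1 x + cost v 1 ((Hv v c 1).erase x) := by
      unfold cost
      rw [add_sum_erase _ _ hx]
    linarith
  have e2 : cost w 1 ((Hv v c 1).erase x) = 1 - v 1 0 - (((x : ℕ) : ℝ) + 1) * c := by
    have : cost w 1 (Hv v c 1) = w 1 x + cost w 1 ((Hv v c 1).erase x) := by
      unfold cost
      rw [add_sum_erase _ _ hx]
    rw [w_heavy hL hS (by decide) hx'] at this
    linarith
  have h := crt hL hN ((Hv v c 1).erase x) {y}
  rw [e1, e2, cost_single, cost_single, hy', w_heavy hL hS (by decide) hy'] at h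
  rcases h with h | h
  · linarith
  · have h3 : ((y : ℕ) : ℝ) * c ≤ ((x : ℕ) : ℝ) * c := by linarith
    have h4 := le_of_mul_le_mul_right h3 hc
    exact_mod_cast h4

lemma compare2 (hL : Lim K lam v w) (hN : NoSave lam v w) (hS : Str K lam v w c) (hK : 0 < K)
    (h0 : 0 < v 2 0) {x y : Fin (K + 1)} (hx : x ∈ Hv v c 1) (hy : y ∈ Hv v c 2) :
    (x : ℕ) ≤ (y : ℕ) := by
  classical
  obtain ⟨c1, c2⟩ := cost_Hv hL hS (j := 2) (by decide) hK
  have hc := hS.pos
  have hx' := (mem_Hv.1 hx).2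
  have hy' := (mem_Hv.1 hy).2
  have e1 : cost v 2 ((Hv v c 2).erase y) = lam / 2 - v 2 0 - c := by
    have : cost v 2 (Hv v c 2) = v 2 y + cost v 2 ((Hv v c 2).erase y) := by
      unfold cost
      rw [add_sum_erase _ _ hy]
    linarith
  have e2 : cost w 2 ((Hv v c 2).erase y) = 1 - v 2 0 - (((y : ℕ) : ℝ) + 1) * c := by
    have : cost w 2 (Hv v c 2) = w 2 y + cost w 2 ((Hv v c 2).erase y) := by
      unfold cost
      rw [add_sum_erase _ _ hy]
    rw [w_heavy hL hS (by decide) hy'] at this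
    linarith
  have h := crt hL hN {x} ((Hv v c 2).erase y)
  rw [e1, e2, cost_single, cost_single, hx', w_heavy hL hS (by decide) hx'] at h
  rcases h with h | h
  · linarith
  · have h3 : ((x : ℕ) : ℝ) * c ≤ ((y : ℕ) : ℝ) * c := by linarith
    have h4 := le_of_mul_le_mul_right h3 hc
    exact_mod_cast h4

/-- for generic `lam` the class of exponent one has an intermediate mass -/
lemma gen_m0 (hL : Lim K lam v w) (hS : Str K lam v w c) (hK : 0 < K) (hc2 : c < lam / 2)
    (hG : Generic lam) {j : Fin 3} (hj : j ≠ 0) : 0 < v j 0 ∧ v j 0 < c := by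
  classical
  have hc := hS.pos
  obtain ⟨c1, c2⟩ := cost_Hv hL hS hj hK
  -- the sums over the heavy classes
  have s1 : cost v j (Hv v c j) = (Hv v c j).card * c := by
    unfold cost
    rw [sum_congr rfl (fun i hi => (mem_Hv.1 hi).2), sum_const, nsmul_eq_mul]
  have s2 : cost w j (Hv v c j) = (∑ i ∈ Hv v c j, (((i : ℕ) : ℝ) + 1)) * c := by
    unfold cost
    rw [sum_mul]
    exact sum_congr rfl fun i hi => w_heavy hL hS hj (mem_Hv.1 hi).2
  have hne0 : v j 0 ≠ 0 := by
    intro h0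
    set G : Finset ℕ := (Hv v c j).image fun i : Fin (K + 1) => (i : ℕ) + 1 with hGdef
    have hinj : Set.InjOn (fun i : Fin (K + 1) => (i : ℕ) + 1) (Hv v c j : Set (Fin (K + 1))) := by
      intro a _ b _ hab
      simp only at hab
      exact Fin.ext (by omega)
    have hcard : G.card = (Hv v c j).card := card_image_of_injOn hinj
    have hsum : ∑ i ∈ G, (i : ℝ) = ∑ i ∈ Hv v c j, (((i : ℕ) : ℝ) + 1) := by
      rw [hGdef, sum_image hinj]
      push_cast
      rfl
    have h1 : (G.card : ℝ) * c = lam / 2 := by rw [hcard]; linarith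
    have h2 : (∑ i ∈ G, (i : ℝ)) * c = 1 := by rw [hsum]; linarith
    have h3 : 2 ≤ G.card := by
      by_contra hlt
      push Not at hlt
      have : (G.card : ℝ) ≤ 1 := by exact_mod_cast (by omega : G.card ≤ 1)
      nlinarith
    apply hG G h3
    · intro i hi
      rw [hGdef, mem_image] at hi
      obtain ⟨a, -, rfl⟩ := hi
      omega
    · have h4 : lam = 2 * (G.card * c) := by linarith
      calc lam * ∑ i ∈ G, (i : ℝ) = 2 * G.card * ((∑ i ∈ G, (i : ℝ)) * c) := by
            rw [h4]; ring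
        _ = 2 * G.card := by rw [h2, mul_one]
  have hnec : v j 0 ≠ c := by
    intro h0
    set G : Finset ℕ := insert 1 ((Hv v c j).image fun i : Fin (K + 1) => (i : ℕ) + 1) with hGdef
    have hinj : Set.InjOn (fun i : Fin (K + 1) => (i : ℕ) + 1) (Hv v c j : Set (Fin (K + 1))) := by
      intro a _ b _ hab
      simp only at hab
      exact Fin.ext (by omega)
    have hnot : 1 ∉ ((Hv v c j).image fun i : Fin (K + 1) => (i : ℕ) + 1) := by
      rw [mem_image]
      rintro ⟨a, ha, hb⟩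
      have := (mem_Hv.1 ha).1
      omega
    have hcard : G.card = (Hv v c j).card + 1 := by
      rw [hGdef, card_insert_of_notMem hnot, card_image_of_injOn hinj]
    have hsum : ∑ i ∈ G, (i : ℝ) = 1 + ∑ i ∈ Hv v c j, (((i : ℕ) : ℝ) + 1) := by
      rw [hGdef, sum_insert hnot, sum_image hinj]
      push_cast
      rfl
    have h1 : (G.card : ℝ) * c = lam / 2 := by
      rw [hcard]; push_cast; linarith
    have h2 : (∑ i ∈ G, (i : ℝ)) * c = 1 := by rw [hsum]; linarith
    have h3 : 2 ≤ G.card := by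
      by_contra hlt
      push Not at hlt
      have : (G.card : ℝ) ≤ 1 := by exact_mod_cast (by omega : G.card ≤ 1)
      nlinarith
    apply hG G h3
    · intro i hi
      rw [hGdef, mem_insert, mem_image] at hi
      rcases hi with rfl | ⟨a, -, rfl⟩ <;> omega
    · have h4 : lam = 2 * (G.card * c) := by linarith
      calc lam * ∑ i ∈ G, (i : ℝ) = 2 * G.card * ((∑ i ∈ G, (i : ℝ)) * c) := by
            rw [h4]; ring
        _ = 2 * G.card := by rw [h2, mul_one]
  exact ⟨lt_of_le_of_ne (hL.v_nonneg j 0) (Ne.symm hne0),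
    lt_of_le_of_ne (hS.le j 0 hj) hnec⟩

/-- for generic `lam` there is always a saving -/
theorem exact_generic (hL : Lim K lam v w) (h2 : lam < 2) (T : ℕ)
    (hT : 4 ≤ T * lam) (hK : T ^ 2 ≤ K) (hG : Generic lam) : ¬ NoSave lam v w := by
  classical
  intro hN
  obtain ⟨c, hS⟩ := str_of hL hN h2 T hT hK
  have hK0 : 0 < K := by
    have : 0 < T := by
      rcases Nat.eq_zero_or_pos T with h | h
      · subst h; norm_num at hT
      · exact h
    exact lt_of_lt_of_le (by positivity) hK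
  have hc := hS.pos
  have hc2 := c_lt hL hN hS h2
  obtain ⟨a1, a2⟩ := gen_m0 hL hS hK0 hc2 hG (j := 1) (by decide)
  obtain ⟨b1, b2⟩ := gen_m0 hL hS hK0 hc2 hG (j := 2) (by decide)
  obtain ⟨i, hi1, hiK, hi⟩ := hS.ex 1 (by decide)
  obtain ⟨j, hj1, hjK, hj⟩ := hS.ex 2 (by decide)
  have hi' : i ∈ Hv v c 1 := mem_Hv.2 ⟨hi1, hi⟩
  have hj' : j ∈ Hv v c 2 := mem_Hv.2 ⟨hj1, hj⟩
  have key : ∀ x ∈ Hv v c 1, ∀ y ∈ Hv v c 2, x = y := fun x hx y hy =>
    Fin.ext (le_antisymm (compare2 hL hN hS hK0 b1 hx hy) (compare1 hL hN hS hK0 a1 hx hy))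
  have hij := key i hi' j hj'
  subst hij
  have hH : Hv v c 1 = {i} := by
    ext x
    rw [mem_singleton]
    exact ⟨fun hx => key x hx i hj', fun hx => hx ▸ hi'⟩
  have e := (cost_Hv hL hS (j := 1) (by decide) hK0).1
  rw [hH, cost_single, hi] at e
  have hp := pell hL hN h2 (by rw [hS.mu 1 (by decide), hS.mu 2 (by decide)]; linarith) i hiK
  rw [hi, hj] at hp
  linarith

/-- for `lam = 1` the only configuration without saving is `M x ^ 3 + h = M' y ^ 3` -/
theorem exact_one (hL : Lim K 1 v w) (hK : 16 ≤ K) (hN : NoSave 1 v w) :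
    v 1 ⟨2, by omega⟩ = 1 / 4 ∧ v 2 ⟨2, by omega⟩ = 1 / 4 := by
  classical
  obtain ⟨c, hS⟩ := str_of hL hN (by norm_num) 4 (by norm_num) (by omega)
  have hK0 : 0 < K := by omega
  have hc := hS.pos
  set i0 : Fin (K + 1) := 0 with hi0
  set i1 : Fin (K + 1) := ⟨1, by omega⟩ with hi1
  set i2 : Fin (K + 1) := ⟨2, by omega⟩ with hi2
  -- heavy classes are at most `2`
  have hsmall : ∀ j, j ≠ 0 → ∀ i ∈ Hv v c j, (i : ℕ) ≤ 2 := by
    intro j hj i hi
    obtain ⟨c1, c2⟩ := cost_Hv hL hS hj hK0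
    have s1 : cost v j (Hv v c j) = (Hv v c j).card * c := by
      unfold cost
      rw [sum_congr rfl (fun i hi => (mem_Hv.1 hi).2), sum_const, nsmul_eq_mul]
    have s2 : cost w j (Hv v c j) = (∑ i ∈ Hv v c j, (((i : ℕ) : ℝ) + 1)) * c := by
      unfold cost
      rw [sum_mul]
      exact sum_congr rfl fun i hi => w_heavy hL hS hj (mem_Hv.1 hi).2
    have hle := hS.le j 0 hj
    -- `∑ (i - 1) ≤ 1`
    have h1 : (∑ i ∈ Hv v c j, (((i : ℕ) : ℝ) - 1)) * c ≤ 1 * c := by
      have e : ∑ i ∈ Hv v c j, (((i : ℕ) : ℝ) - 1) =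
          ∑ i ∈ Hv v c j, (((i : ℕ) : ℝ) + 1) - 2 * (Hv v c j).card := by
        rw [sum_sub_distrib, sum_add_distrib]
        simp only [sum_const, nsmul_eq_mul, mul_one]
        ring
      rw [e]
      nlinarith
    have h2 := le_of_mul_le_mul_right h1 hc
    have h3 : (((i : ℕ) : ℝ) - 1) ≤ ∑ i ∈ Hv v c j, (((i : ℕ) : ℝ) - 1) :=
      single_le_sum (f := fun i : Fin (K + 1) => (((i : ℕ) : ℝ) - 1)) (fun a ha => by
        have : (1 : ℝ) ≤ ((a : ℕ) : ℝ) := by exact_mod_cast (mem_Hv.1 ha).1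
        linarith) hi
    have h4 : ((i : ℕ) : ℝ) ≤ 2 := by linarith
    exact_mod_cast h4
  -- the sums
  have hsum : ∀ j, j ≠ 0 → v j i0 + v j i1 + v j i2 = 1 / 2 ∧
      v j i0 + 2 * v j i1 + 3 * v j i2 = 1 := by
    intro j hj
    have n01 : i0 ≠ i1 := by
      intro h; have := congrArg Fin.val h; simp [hi0, hi1] at this
    have n02 : i0 ≠ i2 := by
      intro h; have := congrArg Fin.val h; simp [hi0, hi2] at this
    have n12 : i1 ≠ i2 := by
      intro h; have := congrArg Fin.val h; simp [hi1, hi2] at this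
    have hz : ∀ i : Fin (K + 1), i ∉ ({i0, i1, i2} : Finset (Fin (K + 1))) → v j i = 0 := by
      intro i hi
      simp only [mem_insert, mem_singleton, not_or] at hi
      have h1 : 1 ≤ (i : ℕ) := by
        rcases Nat.eq_zero_or_pos (i : ℕ) with h | h
        · exact absurd (Fin.ext (by simpa [hi0] using h)) hi.1
        · exact h
      rcases hS.heavy j i hj h1 with h | h
      · exact h
      · exfalso
        have h3 := hsmall j hj i (mem_Hv.2 ⟨h1, h⟩)
        have h4 : (i : ℕ) = 1 ∨ (i : ℕ) = 2 := by omega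
        rcases h4 with h4 | h4
        · exact hi.2.1 (Fin.ext h4)
        · exact hi.2.2 (Fin.ext h4)
    have a1 : ∑ i ∈ ({i0, i1, i2} : Finset (Fin (K + 1))), v j i = ∑ i, v j i :=
      sum_subset (subset_univ _) (fun i _ hi => hz i hi)
    have a2 : ∑ i ∈ ({i0, i1, i2} : Finset (Fin (K + 1))), w j i = ∑ i, w j i :=
      sum_subset (subset_univ _) (fun i _ hi => w_zero hL hS hj (hz i hi))
    rw [sum_insert (by simp [n01, n02]), sum_insert (by simp [n12]), sum_singleton] at a1 a2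
    have b1 : ∑ i, v j i = 1 / 2 := hS.mu j hj
    have b2 : ∑ i, w j i = 1 := hL.w1 j hj
    have w0 : w j i0 = v j i0 := by
      rw [hL.w_eq j i0 (by simpa [hi0] using hK0)]; simp [hi0]
    have w1 : w j i1 = 2 * v j i1 := by
      rw [hL.w_eq j i1 (by simp only [hi1]; omega)]; simp only [hi1]; norm_num
    have w2 : w j i2 = 3 * v j i2 := by
      rw [hL.w_eq j i2 (by simp only [hi2]; omega)]; simp only [hi2]; norm_num
    constructor <;> linarith
  obtain ⟨p1, p2⟩ := hsum 1 (by decide)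
  obtain ⟨q1, q2⟩ := hsum 2 (by decide)
  have p0 := hL.v_nonneg 1 i0
  have q0 := hL.v_nonneg 2 i0
  have p0' := hS.le 1 i0 (by decide)
  have q0' := hS.le 2 i0 (by decide)
  have hp1 := hS.heavy 1 i1 (by decide) (by simp [hi1])
  have hp2 := hS.heavy 1 i2 (by decide) (by simp [hi2])
  have hq1 := hS.heavy 2 i1 (by decide) (by simp [hi1])
  have hq2 := hS.heavy 2 i2 (by decide) (by simp [hi2])
  have hpell := pell hL hN (by norm_num)
    (by rw [hS.mu 1 (by decide), hS.mu 2 (by decide)]; norm_num) i1 (by simp only [hi1]; omega)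
  have hcrt := crt hL hN {i2} {i2}
  have w1 : w 1 i2 = 3 * v 1 i2 := by
    rw [hL.w_eq 1 i2 (by simp only [hi2]; omega)]; simp only [hi2]; norm_num
  have w2 : w 2 i2 = 3 * v 2 i2 := by
    rw [hL.w_eq 2 i2 (by simp only [hi2]; omega)]; simp only [hi2]; norm_num
  rw [cost_single, cost_single, cost_single, cost_single, w1, w2] at hcrt
  rcases hp1 with hp1 | hp1 <;> rcases hp2 with hp2 | hp2 <;> rcases hq1 with hq1 | hq1 <;>
    rcases hq2 with hq2 | hq2 <;> rcases hcrt with hcrt | hcrt <;>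
    first
      | (exfalso; linarith)
      | (constructor <;> linarith)

end Pool.Agent.H541.SM
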