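import Mathlib
import Pool.Agent.H541.SM.Exact2

/-!
# A saving in a neighbourhood, by compactness
-/

namespace Pool.Agent.H541.SM

open Finset Filter Topology Pool.Agent.H785R2.ABC

variable {K : ℕ} {lam : ℝ}

lemma cont_cost (j : Fin 3) (S : Finset (Fin (K + 1))) :
    Continuous fun v : Fin 3 → Fin (K + 1) → ℝ => cost v j S := by
  unfold cost
  fun_prop

lemma cont_f1 (b : Par K) : Continuous fun v : Fin 3 → Fin (K + 1) → ℝ => b.f1 v := by
  unfold Par.f1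
  exact ((cont_cost _ _).add (cont_cost _ _)).add (cont_cost _ _)

lemma cont_thn (r : Fin 3) :
    Continuous fun w : Fin 3 → Fin (K + 1) → ℝ => thn w r := by
  unfold thn
  split_ifs
  · exact continuous_const.sub (cont_cost _ _)
  · exact continuous_const

lemma cont_f2 (b : Par K) :
    Continuous fun x : (Fin 3 → Fin (K + 1) → ℝ) × (Fin 3 → Fin (K + 1) → ℝ) =>
      b.f2 x.1 x.2 := by
  unfold Par.f2
  refine ((cont_f1 b).comp continuous_fst).add ?_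
  refine ((Continuous.div_const ?_ _).sub ((cont_cost _ _).comp continuous_snd)).sub
    ((cont_thn _).comp continuous_snd)
  exact ((cont_cost _ _).comp continuous_snd).add ((cont_cost _ _).comp continuous_snd)

/-- the exponents are bounded -/
lemma poly_mem {κ : ℝ} {v w : Fin 3 → Fin (K + 1) → ℝ} (hP : Poly K (lam + κ) κ v w) :
    v ∈ Set.Icc (0 : Fin 3 → Fin (K + 1) → ℝ) 1 ∧ w ∈ Set.Icc (0 : Fin 3 → Fin (K + 1) → ℝ) 1 := by
  have hw : ∀ j i, v j i ≤ w j i := by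
    intro j i
    have hv := hP.v_nonneg j i
    by_cases hi : (i : ℕ) < K
    · rw [hP.w_eq j i hi]
      have : (0 : ℝ) ≤ ((i : ℕ) : ℝ) := Nat.cast_nonneg _
      nlinarith
    · have : i = Fin.last K := by
        apply Fin.ext
        have := i.isLt
        simp only [Fin.val_last]
        omega
      subst this
      have h1 := hP.w_last j
      have : (0 : ℝ) ≤ (K : ℝ) := Nat.cast_nonneg _
      nlinarith
  have hw0 : ∀ j i, 0 ≤ w j i := fun j i => (hP.v_nonneg j i).trans (hw j i)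
  have hc : ∀ j, cost w j univ ≤ 1 := by
    intro j
    fin_cases j
    · exact hP.w0
    · exact hP.w1
    · exact hP.w2
  have hw1 : ∀ j i, w j i ≤ 1 := fun j i =>
    (single_le_sum (f := w j) (fun i _ => hw0 j i) (mem_univ i)).trans (hc j)
  refine ⟨⟨fun j i => hP.v_nonneg j i, fun j i => (hw j i).trans (hw1 j i)⟩,
    ⟨fun j i => hw0 j i, fun j i => hw1 j i⟩⟩

/-- compactness -/
theorem compact (i2 : Fin (K + 1)) (ζ : ℝ) (hζ : 0 < ζ)
    (hex : ∀ v w : Fin 3 → Fin (K + 1) → ℝ, Lim K lam v w → NoSave lam v w →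
      lam = 1 ∧ v 1 i2 = 1 / 4 ∧ v 2 i2 = 1 / 4) :
    ∃ κ : ℝ, 0 < κ ∧ ∀ v w : Fin 3 → Fin (K + 1) → ℝ, Poly K (lam + κ) κ v w →
      cost w 0 univ ≤ κ →
      (∃ b : Par K, b.Valid ∧ b.f1 v ≤ lam / 2 - κ ∧ b.f2 v w ≤ lam / 2 - κ) ∨
      (lam = 1 ∧ |v 1 i2 - 1 / 4| ≤ ζ ∧ |v 2 i2 - 1 / 4| ≤ ζ) := by
  by_contra hcon
  push Not at hcon
  have hseq : ∀ n : ℕ, ∃ x : (Fin 3 → Fin (K + 1) → ℝ) × (Fin 3 → Fin (K + 1) → ℝ),
      Poly K (lam + 1 / ((n : ℝ) + 1)) (1 / ((n : ℝ) + 1)) x.1 x.2 ∧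
      cost x.2 0 univ ≤ 1 / ((n : ℝ) + 1) ∧
      (∀ b : Par K, b.Valid → b.f1 x.1 ≤ lam / 2 - 1 / ((n : ℝ) + 1) →
        lam / 2 - 1 / ((n : ℝ) + 1) < b.f2 x.1 x.2) ∧
      (lam = 1 → |x.1 1 i2 - 1 / 4| ≤ ζ → ζ < |x.1 2 i2 - 1 / 4|) := by
    intro n
    obtain ⟨v, w, h1, h2, h3, h4⟩ := hcon (1 / ((n : ℝ) + 1)) (by positivity)
    exact ⟨(v, w), h1, h2, h3, h4⟩
  choose x hx1 hx2 hx3 hx4 using hseq
  have hcomp : IsCompact ((Set.Icc (0 : Fin 3 → Fin (K + 1) → ℝ) 1) ×ˢ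
      (Set.Icc (0 : Fin 3 → Fin (K + 1) → ℝ) 1)) := isCompact_Icc.prod isCompact_Icc
  obtain ⟨a, -, φ, hφ, hlim⟩ := hcomp.tendsto_subseq (x := x) (fun n => by
    obtain ⟨m1, m2⟩ := poly_mem (hx1 n)
    exact ⟨m1, m2⟩)
  have hε : Tendsto (fun n : ℕ => 1 / (((φ n : ℕ) : ℝ) + 1)) atTop (𝓝 0) :=
    tendsto_one_div_add_atTop_nhds_zero_nat.comp hφ.tendsto_atTop
  have hv : Tendsto (fun n => (x (φ n)).1) atTop (𝓝 a.1) :=
    (continuous_fst.tendsto a).comp hlim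
  have hw : Tendsto (fun n => (x (φ n)).2) atTop (𝓝 a.2) :=
    (continuous_snd.tendsto a).comp hlim
  have hvji : ∀ j i, Tendsto (fun n => (x (φ n)).1 j i) atTop (𝓝 (a.1 j i)) := fun j i =>
    (tendsto_pi_nhds.1 ((tendsto_pi_nhds.1 hv) j)) i
  have hwji : ∀ j i, Tendsto (fun n => (x (φ n)).2 j i) atTop (𝓝 (a.2 j i)) := fun j i =>
    (tendsto_pi_nhds.1 ((tendsto_pi_nhds.1 hw) j)) i
  have hcv : ∀ j S, Tendsto (fun n => cost (x (φ n)).1 j S) atTop (𝓝 (cost a.1 j S)) :=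
    fun j S => ((cont_cost j S).tendsto a.1).comp hv
  have hcw : ∀ j S, Tendsto (fun n => cost (x (φ n)).2 j S) atTop (𝓝 (cost a.2 j S)) :=
    fun j S => ((cont_cost j S).tendsto a.2).comp hw
  -- the limit
  have vnn : ∀ j i, 0 ≤ a.1 j i := fun j i =>
    ge_of_tendsto' (hvji j i) fun n => (hx1 (φ n)).v_nonneg j i
  have weq : ∀ (j : Fin 3) (i : Fin (K + 1)), (i : ℕ) < K →
      a.2 j i = (((i : ℕ) : ℝ) + 1) * a.1 j i := by
    intro j i hi
    have h1 : Tendsto (fun n => (x (φ n)).2 j i) atTop (𝓝 ((((i : ℕ) : ℝ) + 1) * a.1 j i)) := by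
      have h2 := (hvji j i).const_mul (((i : ℕ) : ℝ) + 1)
      refine h2.congr fun n => ?_
      exact ((hx1 (φ n)).w_eq j i hi).symm
    exact tendsto_nhds_unique (hwji j i) h1
  have wlast : ∀ j : Fin 3, ((K : ℝ) + 1) * a.1 j (Fin.last K) ≤ a.2 j (Fin.last K) := fun j =>
    le_of_tendsto_of_tendsto' ((hvji j _).const_mul _) (hwji j _) fun n => (hx1 (φ n)).w_last j
  have wge : ∀ j i, a.1 j i ≤ a.2 j i := by
    intro j i
    by_cases hi : (i : ℕ) < K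
    · rw [weq j i hi]
      have := vnn j i
      have : (0 : ℝ) ≤ ((i : ℕ) : ℝ) := Nat.cast_nonneg _
      nlinarith
    · have : i = Fin.last K := by
        apply Fin.ext
        have := i.isLt
        simp only [Fin.val_last]
        omega
      subst this
      have := vnn j (Fin.last K)
      have := wlast j
      have : (0 : ℝ) ≤ (K : ℝ) := Nat.cast_nonneg _
      nlinarith
  have wnn : ∀ j i, 0 ≤ a.2 j i := fun j i => (vnn j i).trans (wge j i)
  have w0 : cost a.2 0 univ = 0 := by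
    apply le_antisymm
    · exact le_of_tendsto_of_tendsto' (hcw 0 univ) hε fun n => hx2 (φ n)
    · exact sum_nonneg fun i _ => wnn 0 i
  have w1 : ∀ j, j ≠ 0 → cost a.2 j univ = 1 := by
    intro j hj
    have h1 : Tendsto (fun n : ℕ => 1 - 1 / (((φ n : ℕ) : ℝ) + 1)) atTop (𝓝 (1 - 0)) :=
      tendsto_const_nhds.sub hε
    rw [sub_zero] at h1
    apply le_antisymm
    · refine le_of_tendsto' (hcw j univ) fun n => ?_
      fin_cases j
      · exact absurd rfl hj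
      · exact (hx1 (φ n)).w1
      · exact (hx1 (φ n)).w2
    · refine le_of_tendsto_of_tendsto' h1 (hcw j univ) fun n => ?_
      fin_cases j
      · exact absurd rfl hj
      · exact (hx1 (φ n)).w1'
      · exact (hx1 (φ n)).w2'
  have v0 : ∀ i, a.1 0 i = 0 := by
    intro i
    have h1 : a.2 0 i = 0 := (sum_eq_zero_iff_of_nonneg (fun i _ => wnn 0 i)).1 w0 i (mem_univ _)
    exact le_antisymm ((wge 0 i).trans h1.le) (vnn 0 i)
  have tot : cost a.1 0 univ + cost a.1 1 univ + cost a.1 2 univ ≤ lam := by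
    have h1 : Tendsto (fun n : ℕ => lam + 1 / (((φ n : ℕ) : ℝ) + 1)) atTop (𝓝 (lam + 0)) :=
      tendsto_const_nhds.add hε
    rw [add_zero] at h1
    exact le_of_tendsto_of_tendsto' (((hcv 0 univ).add (hcv 1 univ)).add (hcv 2 univ)) h1
      fun n => (hx1 (φ n)).tot
  have hL : Lim K lam a.1 a.2 := ⟨vnn, weq, wlast, v0, w0, w1, tot⟩
  have hN : NoSave lam a.1 a.2 := by
    intro b hb
    by_contra hc
    push Not at hc
    obtain ⟨c1, c2⟩ := hc
    have hθ : Tendsto (fun n : ℕ => lam / 2 - 1 / (((φ n : ℕ) : ℝ) + 1)) atTop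
        (𝓝 (lam / 2 - 0)) := tendsto_const_nhds.sub hε
    rw [sub_zero] at hθ
    have g1 : Tendsto (fun n => b.f1 (x (φ n)).1) atTop (𝓝 (b.f1 a.1)) :=
      ((cont_f1 b).tendsto a.1).comp hv
    have g2 : Tendsto (fun n => b.f2 (x (φ n)).1 (x (φ n)).2) atTop (𝓝 (b.f2 a.1 a.2)) :=
      ((cont_f2 b).tendsto a).comp hlim
    have e1 := g1.eventually_lt hθ c1
    have e2 := g2.eventually_lt hθ c2
    obtain ⟨n, hn1, hn2⟩ := (e1.and e2).exists
    exact absurd (hx3 (φ n) b hb hn1.le) (not_lt.2 hn2.le)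
  obtain ⟨hl1, t1, t2⟩ := hex a.1 a.2 hL hN
  have k1 : ∀ᶠ n in atTop, |(x (φ n)).1 1 i2 - 1 / 4| ≤ ζ := by
    have : Tendsto (fun n => |(x (φ n)).1 1 i2 - 1 / 4|) atTop (𝓝 |a.1 1 i2 - 1 / 4|) :=
      ((hvji 1 i2).sub tendsto_const_nhds).abs
    rw [t1, sub_self, abs_zero] at this
    exact (this.eventually_lt_const hζ).mono fun n hn => hn.le
  have k2 : ∀ᶠ n in atTop, |(x (φ n)).1 2 i2 - 1 / 4| ≤ ζ := by
    have : Tendsto (fun n => |(x (φ n)).1 2 i2 - 1 / 4|) atTop (𝓝 |a.1 2 i2 - 1 / 4|) :=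
      ((hvji 2 i2).sub tendsto_const_nhds).abs
    rw [t2, sub_self, abs_zero] at this
    exact (this.eventually_lt_const hζ).mono fun n hn => hn.le
  obtain ⟨n, hn1, hn2⟩ := (k1.and k2).exists
  exact absurd (hx4 (φ n) hl1 hn1) (not_lt.2 hn2)

end Pool.Agent.H541.SM
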