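import Mathlib
import Pool.Agent.H541.SM.Exact2

/-!
# The configurations without saving: `lam = 6 / 7`; the range `4 / 5 < lam < 2`
-/

namespace Pool.Agent.H541.SM

open Finset Pool.Agent.H785R2.ABC

variable {K : ℕ} {lam : ℝ} {v w : Fin 3 → Fin (K + 1) → ℝ} {c : ℝ}

/-- for `lam = 6 / 7` there is always a saving -/
theorem exact_67 (hL : Lim K (6 / 7) v w) (hK : 25 ≤ K) : ¬ NoSave (6 / 7) v w := by
  classical
  intro hN
  obtain ⟨c, hS⟩ := str_of hL hN (by norm_num) 5 (by norm_num) (by omega)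
  have hK0 : 0 < K := by omega
  have hc := hS.pos
  set i0 : Fin (K + 1) := 0 with hi0
  set i1 : Fin (K + 1) := ⟨1, by omega⟩ with hi1
  set i2 : Fin (K + 1) := ⟨2, by omega⟩ with hi2
  set i3 : Fin (K + 1) := ⟨3, by omega⟩ with hi3
  -- heavy classes are at most `3`
  have hsmall : ∀ j, j ≠ 0 → ∀ i ∈ Hv v c j, (i : ℕ) ≤ 3 := by
    intro j hj i hi
    obtain ⟨c1, c2⟩ := cost_Hv hL hS hj hK0
    have s1 : cost v j (Hv v c j) = (Hv v c j).card * c := by
      unfold cost
      rw [sum_congr rfl (fun i hi => (mem_Hv.1 hi).2), sum_const, nsmul_eq_mul]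
    have s2 : cost w j (Hv v c j) = (∑ i ∈ Hv v c j, (((i : ℕ) : ℝ) + 1)) * c := by
      unfold cost
      rw [sum_mul]
      exact sum_congr rfl fun i hi => w_heavy hL hS hj (mem_Hv.1 hi).2
    have hle := hS.le j 0 hj
    -- `∑ (i - 4 / 3) ≤ 4 / 3`
    have h1 : (∑ i ∈ Hv v c j, (((i : ℕ) : ℝ) - 4 / 3)) * c ≤ 4 / 3 * c := by
      have e : ∑ i ∈ Hv v c j, (((i : ℕ) : ℝ) - 4 / 3) =
          ∑ i ∈ Hv v c j, (((i : ℕ) : ℝ) + 1) - 7 / 3 * (Hv v c j).card := by
        rw [sum_sub_distrib, sum_add_distrib]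
        simp only [sum_const, nsmul_eq_mul, mul_one]
        ring
      rw [e]
      nlinarith
    have h2 := le_of_mul_le_mul_right h1 hc
    by_contra hcon
    push Not at hcon
    have h3 : ((i : ℕ) : ℝ) - 4 / 3 + ∑ x ∈ (Hv v c j).erase i, (((x : ℕ) : ℝ) - 4 / 3) =
        ∑ x ∈ Hv v c j, (((x : ℕ) : ℝ) - 4 / 3) :=
      add_sum_erase (Hv v c j) (fun x : Fin (K + 1) => (((x : ℕ) : ℝ) - 4 / 3)) hi
    have h4 : -(1 / 3 : ℝ) ≤ ∑ x ∈ (Hv v c j).erase i, (((x : ℕ) : ℝ) - 4 / 3) := by
      by_cases hm : i1 ∈ (Hv v c j).erase i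
      · have h5 : (((i1 : Fin (K + 1)) : ℕ) : ℝ) - 4 / 3 +
            ∑ x ∈ ((Hv v c j).erase i).erase i1, (((x : ℕ) : ℝ) - 4 / 3) =
            ∑ x ∈ (Hv v c j).erase i, (((x : ℕ) : ℝ) - 4 / 3) :=
          add_sum_erase _ (fun x : Fin (K + 1) => (((x : ℕ) : ℝ) - 4 / 3)) hm
        have h6 : 0 ≤ ∑ x ∈ ((Hv v c j).erase i).erase i1, (((x : ℕ) : ℝ) - 4 / 3) := by
          apply sum_nonneg
          intro x hx
          have hx1 := mem_erase.1 hx
          have hx2 := mem_Hv.1 (mem_erase.1 hx1.2).2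
          have hx3 : (x : ℕ) ≠ 1 := fun h => hx1.1 (Fin.ext h)
          have hx4 : (2 : ℝ) ≤ ((x : ℕ) : ℝ) := by exact_mod_cast (by omega : 2 ≤ (x : ℕ))
          linarith
        have h7 : (((i1 : Fin (K + 1)) : ℕ) : ℝ) = 1 := by simp [hi1]
        rw [h7] at h5
        linarith
      · have h6 : 0 ≤ ∑ x ∈ (Hv v c j).erase i, (((x : ℕ) : ℝ) - 4 / 3) := by
          apply sum_nonneg
          intro x hx
          have hx2 := mem_Hv.1 (mem_erase.1 hx).2
          have hx3 : (x : ℕ) ≠ 1 := fun h => hm (by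
            have : x = i1 := Fin.ext h
            rw [← this]; exact hx)
          have hx4 : (2 : ℝ) ≤ ((x : ℕ) : ℝ) := by exact_mod_cast (by omega : 2 ≤ (x : ℕ))
          linarith
        linarith
    have h5 : (4 : ℝ) ≤ ((i : ℕ) : ℝ) := by exact_mod_cast hcon
    linarith
  -- the sums
  have hsum : ∀ j, j ≠ 0 → v j i0 + v j i1 + v j i2 + v j i3 = 3 / 7 ∧
      v j i0 + 2 * v j i1 + 3 * v j i2 + 4 * v j i3 = 1 := by
    intro j hj
    have n01 : i0 ≠ i1 := by
      intro h; have := congrArg Fin.val h; simp [hi0, hi1] at this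
    have n02 : i0 ≠ i2 := by
      intro h; have := congrArg Fin.val h; simp [hi0, hi2] at this
    have n03 : i0 ≠ i3 := by
      intro h; have := congrArg Fin.val h; simp [hi0, hi3] at this
    have n12 : i1 ≠ i2 := by
      intro h; have := congrArg Fin.val h; simp [hi1, hi2] at this
    have n13 : i1 ≠ i3 := by
      intro h; have := congrArg Fin.val h; simp [hi1, hi3] at this
    have n23 : i2 ≠ i3 := by
      intro h; have := congrArg Fin.val h; simp [hi2, hi3] at this
    have hz : ∀ i : Fin (K + 1), i ∉ ({i0, i1, i2, i3} : Finset (Fin (K + 1))) → v j i = 0 := by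
      intro i hi
      simp only [mem_insert, mem_singleton, not_or] at hi
      have h1 : 1 ≤ (i : ℕ) := by
        rcases Nat.eq_zero_or_pos (i : ℕ) with h | h
        · exact absurd (Fin.ext (by simpa [hi0] using h)) hi.1
        · exact h
      rcases hS.heavy j i hj h1 with h | h
      · exact h
      · exfalso
        have h3 := hsmall j hj i (mem_Hv.2 ⟨h1, h⟩)
        have h4 : (i : ℕ) = 1 ∨ (i : ℕ) = 2 ∨ (i : ℕ) = 3 := by omega
        rcases h4 with h4 | h4 | h4
        · exact hi.2.1 (Fin.ext h4)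
        · exact hi.2.2.1 (Fin.ext h4)
        · exact hi.2.2.2 (Fin.ext h4)
    have a1 : ∑ i ∈ ({i0, i1, i2, i3} : Finset (Fin (K + 1))), v j i = ∑ i, v j i :=
      sum_subset (subset_univ _) (fun i _ hi => hz i hi)
    have a2 : ∑ i ∈ ({i0, i1, i2, i3} : Finset (Fin (K + 1))), w j i = ∑ i, w j i :=
      sum_subset (subset_univ _) (fun i _ hi => w_zero hL hS hj (hz i hi))
    rw [sum_insert (by simp [n01, n02, n03]), sum_insert (by simp [n12, n13]),
      sum_insert (by simp [n23]), sum_singleton] at a1 a2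
    have b1 : ∑ i, v j i = 6 / 7 / 2 := hS.mu j hj
    have b2 : ∑ i, w j i = 1 := hL.w1 j hj
    have w0 : w j i0 = v j i0 := by
      rw [hL.w_eq j i0 (by simpa [hi0] using hK0)]; simp [hi0]
    have w1 : w j i1 = 2 * v j i1 := by
      rw [hL.w_eq j i1 (by simp only [hi1]; omega)]; simp only [hi1]; norm_num
    have w2 : w j i2 = 3 * v j i2 := by
      rw [hL.w_eq j i2 (by simp only [hi2]; omega)]; simp only [hi2]; norm_num
    have w3 : w j i3 = 4 * v j i3 := by
      rw [hL.w_eq j i3 (by simp only [hi3]; omega)]; simp only [hi3]; norm_num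
    constructor <;> linarith
  obtain ⟨p1, p2⟩ := hsum 1 (by decide)
  obtain ⟨q1, q2⟩ := hsum 2 (by decide)
  have p0 := hL.v_nonneg 1 i0
  have q0 := hL.v_nonneg 2 i0
  have p0' := hS.le 1 i0 (by decide)
  have q0' := hS.le 2 i0 (by decide)
  have hp1 := hS.heavy 1 i1 (by decide) (by simp [hi1])
  have hp2 := hS.heavy 1 i2 (by decide) (by simp [hi2])
  have hp3 := hS.heavy 1 i3 (by decide) (by simp [hi3])
  have hq1 := hS.heavy 2 i1 (by decide) (by simp [hi1])
  have hq2 := hS.heavy 2 i2 (by decide) (by simp [hi2])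
  have hq3 := hS.heavy 2 i3 (by decide) (by simp [hi3])
  have hpell := pell hL hN (by norm_num)
    (by rw [hS.mu 1 (by decide), hS.mu 2 (by decide)]; norm_num) i2 (by simp only [hi2]; omega)
  have hcrt3 := crt hL hN {i3} {i3}
  have hcrt2 := crt hL hN {i2} {i2}
  have w1 : w 1 i3 = 4 * v 1 i3 := by
    rw [hL.w_eq 1 i3 (by simp only [hi3]; omega)]; simp only [hi3]; norm_num
  have w2 : w 2 i3 = 4 * v 2 i3 := by
    rw [hL.w_eq 2 i3 (by simp only [hi3]; omega)]; simp only [hi3]; norm_num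
  have w3 : w 1 i2 = 3 * v 1 i2 := by
    rw [hL.w_eq 1 i2 (by simp only [hi2]; omega)]; simp only [hi2]; norm_num
  have w4 : w 2 i2 = 3 * v 2 i2 := by
    rw [hL.w_eq 2 i2 (by simp only [hi2]; omega)]; simp only [hi2]; norm_num
  rw [cost_single, cost_single, cost_single, cost_single, w1, w2] at hcrt3
  rw [cost_single, cost_single, cost_single, cost_single, w3, w4] at hcrt2
  rcases hp1 with hp1 | hp1 <;> rcases hp2 with hp2 | hp2 <;> rcases hp3 with hp3 | hp3 <;>
    first
      | (exfalso; linarith)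
      | (rcases hq1 with hq1 | hq1 <;> rcases hq2 with hq2 | hq2 <;> rcases hq3 with hq3 | hq3 <;>
          first
            | (exfalso; linarith)
            | (rcases hcrt3 with hcrt3 | hcrt3 <;> rcases hcrt2 with hcrt2 | hcrt2 <;>
                (exfalso; linarith)))

/-- a set of `g` positive integers has sum at least `g (g + 1) / 2` -/
lemma gauss (G : Finset ℕ) (hpos : ∀ i ∈ G, 1 ≤ i) : G.card * (G.card + 1) ≤ 2 * ∑ i ∈ G, i := by
  classical
  induction G using Finset.induction_on_max with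
  | empty => simp
  | insert a s hmax ih =>
    have hpos' : ∀ i ∈ s, 1 ≤ i := fun i hi => hpos i (mem_insert_of_mem hi)
    have h1 := ih hpos'
    have ha : a ∉ s := fun h => lt_irrefl a (hmax a h)
    have h2 : (insert a s).card ≤ a := by
      have h3 : insert a s ⊆ Icc 1 a := by
        intro x hx
        rw [mem_Icc]
        refine ⟨hpos x hx, ?_⟩
        rcases mem_insert.1 hx with rfl | h
        · exact le_rfl
        · exact (hmax x h).le
      calc (insert a s).card ≤ (Icc 1 a).card := card_le_card h3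
        _ = a := by rw [Nat.card_Icc]; omega
    rw [card_insert_of_notMem ha] at h2 ⊢
    rw [sum_insert ha]
    nlinarith

/-- the admissible exponents -/
def Adm (lam : ℝ) : Prop := (4 / 5 < lam ∧ lam ≠ 4 / 3) ∨ Generic lam

/-- all `lam` between `4 / 5` and `2` except `4 / 3`, `1`, `6 / 7` are generic -/
lemma generic_of (h1 : 4 / 5 < lam) (h2 : lam < 2) (h3 : lam ≠ 4 / 3) (h4 : lam ≠ 1)
    (h5 : lam ≠ 6 / 7) : Generic lam := by
  intro G hG hpos heq
  have hg := gauss G hpos
  set g := G.card with hgdef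
  set s : ℕ := ∑ i ∈ G, i with hs
  have hs' : (∑ i ∈ G, (i : ℝ)) = (s : ℝ) := by rw [hs]; push_cast; rfl
  rw [hs'] at heq
  have hs0 : (0 : ℝ) ≤ s := Nat.cast_nonneg _
  have hgr : (2 : ℝ) ≤ g := by exact_mod_cast hG
  -- `s < 5 g / 2` and `s > g`
  have hsp : (0 : ℝ) < s := by
    rcases hs0.lt_or_eq with h | h
    · exact h
    · rw [← h] at heq; linarith
  have a1 : (s : ℝ) * 4 < 10 * g := by nlinarith
  have a2 : (g : ℝ) < s := by nlinarith
  have b1 : s * 4 < 10 * g := by exact_mod_cast a1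
  have b2 : g < s := by exact_mod_cast a2
  have hg4 : g < 4 := by
    by_contra hcon
    push Not at hcon
    have : 5 * g ≤ g * (g + 1) := by nlinarith
    omega
  have hcases : g = 2 ∨ g = 3 := by omega
  rcases hcases with hg2 | hg3
  · rw [hg2] at b1 b2 heq
    have : s = 3 ∨ s = 4 := by omega
    rcases this with h | h <;> rw [h] at heq <;> push_cast at heq
    · exact h3 (by linarith)
    · exact h4 (by linarith)
  · rw [hg3] at b1 b2 heq hg
    have : s = 6 ∨ s = 7 := by omega
    rcases this with h | h <;> rw [h] at heq <;> push_cast at heq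
    · exact h4 (by linarith)
    · exact h5 (by linarith)

end Pool.Agent.H541.SM
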