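import Mathlib

/-!
# Small minors of points `(1, t, s, s t)` near a cubic curve `s = γ t ^ 3`
-/

namespace Pool.Agent.H541.SM

/-- hypotheses on the points of a short arc -/
structure Arc (Λ ρ γ : ℝ) (t s : ℝ) : Prop where
  t0 : 0 ≤ t
  t1 : t ≤ Λ
  s0 : 0 ≤ s
  s1 : s ≤ Λ
  e0 : 0 ≤ s - γ * t ^ 3
  e1 : s - γ * t ^ 3 ≤ ρ ^ 2

variable {Λ ρ γ t₁ s₁ t₂ s₂ t₃ s₃ t₄ s₄ : ℝ}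

lemma sig' (hΛ : 1 ≤ Λ) (hρ : 0 ≤ ρ) (hρ1 : ρ ≤ 1) (hγ : 0 ≤ γ) (hγ1 : γ ≤ Λ)
    (h1 : Arc Λ ρ γ t₁ s₁) (h2 : Arc Λ ρ γ t₂ s₂) (h : |t₂ - t₁| ≤ ρ) :
    |(s₂ - s₁) - 3 * γ * t₁ ^ 2 * (t₂ - t₁)| ≤ 5 * Λ ^ 2 * ρ ^ 2 := by
  set τ := t₂ - t₁ with hτ
  have e : (s₂ - s₁) - 3 * γ * t₁ ^ 2 * τ =
      γ * (3 * t₁ * τ ^ 2 + τ ^ 3) + ((s₂ - γ * t₂ ^ 3) - (s₁ - γ * t₁ ^ 3)) := by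
    have : t₂ = t₁ + τ := by rw [hτ]; ring
    rw [this]; ring
  rw [e]
  have hτ2 : τ ^ 2 ≤ ρ ^ 2 := by
    rw [← sq_abs τ]
    exact pow_le_pow_left₀ (abs_nonneg _) h 2
  have hτ3 : |τ ^ 3| ≤ ρ ^ 2 := by
    rw [abs_pow]
    calc |τ| ^ 3 ≤ ρ ^ 3 := pow_le_pow_left₀ (abs_nonneg _) h 3
      _ = ρ ^ 2 * ρ := by ring
      _ ≤ ρ ^ 2 * 1 := by gcongr
      _ = ρ ^ 2 := by ring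
  have h3 : |3 * t₁ * τ ^ 2 + τ ^ 3| ≤ 4 * Λ * ρ ^ 2 := by
    calc |3 * t₁ * τ ^ 2 + τ ^ 3| ≤ |3 * t₁ * τ ^ 2| + |τ ^ 3| := abs_add_le _ _
      _ ≤ 3 * Λ * ρ ^ 2 + Λ * ρ ^ 2 := by
          apply add_le_add
          · rw [abs_of_nonneg (by have := h1.t0; positivity)]
            have := h1.t1
            have := h1.t0
            gcongr
          · calc |τ ^ 3| ≤ ρ ^ 2 := hτ3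
              _ = 1 * ρ ^ 2 := by ring
              _ ≤ Λ * ρ ^ 2 := by gcongr
      _ = 4 * Λ * ρ ^ 2 := by ring
  have h4 : |γ * (3 * t₁ * τ ^ 2 + τ ^ 3)| ≤ 4 * Λ ^ 2 * ρ ^ 2 := by
    rw [abs_mul, abs_of_nonneg hγ]
    calc γ * |3 * t₁ * τ ^ 2 + τ ^ 3| ≤ Λ * (4 * Λ * ρ ^ 2) := by gcongr
      _ = 4 * Λ ^ 2 * ρ ^ 2 := by ring
  have h5 : |(s₂ - γ * t₂ ^ 3) - (s₁ - γ * t₁ ^ 3)| ≤ ρ ^ 2 := by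
    rw [abs_le]
    constructor
    · linarith [h1.e1, h2.e0]
    · linarith [h2.e1, h1.e0]
  calc _ ≤ |γ * (3 * t₁ * τ ^ 2 + τ ^ 3)| + |(s₂ - γ * t₂ ^ 3) - (s₁ - γ * t₁ ^ 3)| :=
        abs_add_le _ _
    _ ≤ 4 * Λ ^ 2 * ρ ^ 2 + Λ ^ 2 * ρ ^ 2 := by
        apply add_le_add h4 (h5.trans _)
        have : 1 ≤ Λ ^ 2 := one_le_pow₀ hΛ
        nlinarith [sq_nonneg ρ]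
    _ = 5 * Λ ^ 2 * ρ ^ 2 := by ring

lemma sig (hΛ : 1 ≤ Λ) (hρ : 0 ≤ ρ) (hρ1 : ρ ≤ 1) (hγ : 0 ≤ γ) (hγ1 : γ ≤ Λ)
    (h1 : Arc Λ ρ γ t₁ s₁) (h2 : Arc Λ ρ γ t₂ s₂) (h : |t₂ - t₁| ≤ ρ) :
    |s₂ - s₁| ≤ 8 * Λ ^ 3 * ρ := by
  have h3 := sig' hΛ hρ hρ1 hγ hγ1 h1 h2 h
  have h4 : |3 * γ * t₁ ^ 2 * (t₂ - t₁)| ≤ 3 * Λ ^ 3 * ρ := by
    rw [abs_mul, abs_of_nonneg (by positivity)]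
    have := h1.t0
    have := h1.t1
    calc 3 * γ * t₁ ^ 2 * |t₂ - t₁| ≤ 3 * Λ * Λ ^ 2 * ρ := by gcongr
      _ = 3 * Λ ^ 3 * ρ := by ring
  have h5 : 5 * Λ ^ 2 * ρ ^ 2 ≤ 5 * Λ ^ 3 * ρ := by
    calc 5 * Λ ^ 2 * ρ ^ 2 = 5 * Λ ^ 2 * (1 * (ρ * ρ)) := by ring
      _ ≤ 5 * Λ ^ 2 * (Λ * (ρ * 1)) := by gcongr
      _ = 5 * Λ ^ 3 * ρ := by ring
  calc |s₂ - s₁| = |((s₂ - s₁) - 3 * γ * t₁ ^ 2 * (t₂ - t₁)) + 3 * γ * t₁ ^ 2 * (t₂ - t₁)| := by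
        congr 1; ring
    _ ≤ _ := abs_add_le _ _
    _ ≤ 5 * Λ ^ 3 * ρ + 3 * Λ ^ 3 * ρ := add_le_add (h3.trans h5) h4
    _ = _ := by ring

/-- product of three bounded factors -/
lemma abs_mul_le {a b A B : ℝ} (ha : |a| ≤ A) (hb : |b| ≤ B) : |a * b| ≤ A * B := by
  rw [abs_mul]
  exact mul_le_mul ha hb (abs_nonneg _) ((abs_nonneg _).trans ha)

/-- the four minors -/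
lemma minor1 (hΛ : 1 ≤ Λ) (hρ : 0 ≤ ρ) (hρ1 : ρ ≤ 1) (hγ : 0 ≤ γ) (hγ1 : γ ≤ Λ)
    (h1 : Arc Λ ρ γ t₁ s₁) (h2 : Arc Λ ρ γ t₂ s₂) (h3 : Arc Λ ρ γ t₃ s₃)
    (h21 : |t₂ - t₁| ≤ ρ) (h31 : |t₃ - t₁| ≤ ρ) :
    |(t₂ - t₁) * (s₃ - s₁) - (t₃ - t₁) * (s₂ - s₁)| ≤ 10 * Λ ^ 2 * ρ ^ 3 := by
  have a2 := sig' hΛ hρ hρ1 hγ hγ1 h1 h2 h21
  have a3 := sig' hΛ hρ hρ1 hγ hγ1 h1 h3 h31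
  have b1 := abs_mul_le h21 a3
  have b2 := abs_mul_le h31 a2
  have e : (t₂ - t₁) * (s₃ - s₁) - (t₃ - t₁) * (s₂ - s₁) =
      (t₂ - t₁) * ((s₃ - s₁) - 3 * γ * t₁ ^ 2 * (t₃ - t₁)) -
        (t₃ - t₁) * ((s₂ - s₁) - 3 * γ * t₁ ^ 2 * (t₂ - t₁)) := by ring
  rw [e]
  refine (abs_sub _ _).trans ?_
  calc _ ≤ ρ * (5 * Λ ^ 2 * ρ ^ 2) + ρ * (5 * Λ ^ 2 * ρ ^ 2) := add_le_add b1 b2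
    _ = _ := by ring

/-- `det` of the columns `1, t, s t` -/
lemma minor2 (hΛ : 1 ≤ Λ) (hρ : 0 ≤ ρ) (hρ1 : ρ ≤ 1) (hγ : 0 ≤ γ) (hγ1 : γ ≤ Λ)
    (h1 : Arc Λ ρ γ t₁ s₁) (h2 : Arc Λ ρ γ t₂ s₂) (h3 : Arc Λ ρ γ t₃ s₃)
    (h21 : |t₂ - t₁| ≤ ρ) (h31 : |t₃ - t₁| ≤ ρ) :
    |(t₂ - t₁) * (s₃ * t₃ - s₁ * t₁) - (t₃ - t₁) * (s₂ * t₂ - s₁ * t₁)| ≤
      26 * Λ ^ 3 * ρ ^ 3 := by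
  have m1 := minor1 hΛ hρ hρ1 hγ hγ1 h1 h2 h3 h21 h31
  have a2 := sig hΛ hρ hρ1 hγ hγ1 h1 h2 h21
  have a3 := sig hΛ hρ hρ1 hγ hγ1 h1 h3 h31
  have e : (t₂ - t₁) * (s₃ * t₃ - s₁ * t₁) - (t₃ - t₁) * (s₂ * t₂ - s₁ * t₁) =
      t₁ * ((t₂ - t₁) * (s₃ - s₁) - (t₃ - t₁) * (s₂ - s₁)) +
        (t₂ - t₁) * (t₃ - t₁) * ((s₃ - s₁) - (s₂ - s₁)) := by ring
  rw [e]
  have ht1 : |t₁| ≤ Λ := by rw [abs_of_nonneg h1.t0]; exact h1.t1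
  have b1 := abs_mul_le ht1 m1
  have b2 : |(s₃ - s₁) - (s₂ - s₁)| ≤ 8 * Λ ^ 3 * ρ + 8 * Λ ^ 3 * ρ :=
    (abs_sub _ _).trans (add_le_add a3 a2)
  have b3 := abs_mul_le (abs_mul_le h21 h31) b2
  calc _ ≤ _ := abs_add_le _ _
    _ ≤ Λ * (10 * Λ ^ 2 * ρ ^ 3) + ρ * ρ * (8 * Λ ^ 3 * ρ + 8 * Λ ^ 3 * ρ) := add_le_add b1 b3
    _ = _ := by ring

/-- `det` of the columns `1, s, s t` -/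
lemma minor3 (hΛ : 1 ≤ Λ) (hρ : 0 ≤ ρ) (hρ1 : ρ ≤ 1) (hγ : 0 ≤ γ) (hγ1 : γ ≤ Λ)
    (h1 : Arc Λ ρ γ t₁ s₁) (h2 : Arc Λ ρ γ t₂ s₂) (h3 : Arc Λ ρ γ t₃ s₃)
    (h21 : |t₂ - t₁| ≤ ρ) (h31 : |t₃ - t₁| ≤ ρ) :
    |(s₂ - s₁) * (s₃ * t₃ - s₁ * t₁) - (s₃ - s₁) * (s₂ * t₂ - s₁ * t₁)| ≤
      138 * Λ ^ 6 * ρ ^ 3 := by
  have m1 := minor1 hΛ hρ hρ1 hγ hγ1 h1 h2 h3 h21 h31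
  have a2 := sig hΛ hρ hρ1 hγ hγ1 h1 h2 h21
  have a3 := sig hΛ hρ hρ1 hγ hγ1 h1 h3 h31
  have e : (s₂ - s₁) * (s₃ * t₃ - s₁ * t₁) - (s₃ - s₁) * (s₂ * t₂ - s₁ * t₁) =
      -(s₁ * ((t₂ - t₁) * (s₃ - s₁) - (t₃ - t₁) * (s₂ - s₁))) +
        (s₂ - s₁) * (s₃ - s₁) * ((t₃ - t₁) - (t₂ - t₁)) := by ring
  rw [e]
  have hs1 : |s₁| ≤ Λ := by rw [abs_of_nonneg h1.s0]; exact h1.s1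
  have b1 := abs_mul_le hs1 m1
  have b2 : |(t₃ - t₁) - (t₂ - t₁)| ≤ ρ + ρ := (abs_sub _ _).trans (add_le_add h31 h21)
  have b3 := abs_mul_le (abs_mul_le a2 a3) b2
  have hp : (1 : ℝ) ≤ Λ ^ 3 := one_le_pow₀ hΛ
  calc _ ≤ _ := abs_add_le _ _
    _ ≤ Λ * (10 * Λ ^ 2 * ρ ^ 3) + 8 * Λ ^ 3 * ρ * (8 * Λ ^ 3 * ρ) * (ρ + ρ) := by
        rw [abs_neg]; exact add_le_add b1 b3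
    _ = 10 * (Λ ^ 3 * 1) * ρ ^ 3 + 128 * Λ ^ 6 * ρ ^ 3 := by ring
    _ ≤ 10 * (Λ ^ 3 * Λ ^ 3) * ρ ^ 3 + 128 * Λ ^ 6 * ρ ^ 3 := by gcongr
    _ = _ := by ring

/-- `det` of the columns `t, s, s t` -/
lemma minor4 (hΛ : 1 ≤ Λ) (hρ : 0 ≤ ρ) (hρ1 : ρ ≤ 1) (hγ : 0 ≤ γ) (hγ1 : γ ≤ Λ)
    (h1 : Arc Λ ρ γ t₁ s₁) (h2 : Arc Λ ρ γ t₂ s₂) (h3 : Arc Λ ρ γ t₃ s₃)
    (h21 : |t₂ - t₁| ≤ ρ) (h31 : |t₃ - t₁| ≤ ρ) :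
    |t₁ * (s₂ * (s₃ * t₃) - s₃ * (s₂ * t₂)) - t₂ * (s₁ * (s₃ * t₃) - s₃ * (s₁ * t₁)) +
      t₃ * (s₁ * (s₂ * t₂) - s₂ * (s₁ * t₁))| ≤ 174 * Λ ^ 7 * ρ ^ 3 := by
  have m1 := minor1 hΛ hρ hρ1 hγ hγ1 h1 h2 h3 h21 h31
  have m2 := minor2 hΛ hρ hρ1 hγ hγ1 h1 h2 h3 h21 h31
  have m3 := minor3 hΛ hρ hρ1 hγ hγ1 h1 h2 h3 h21 h31
  have e : t₁ * (s₂ * (s₃ * t₃) - s₃ * (s₂ * t₂)) - t₂ * (s₁ * (s₃ * t₃) - s₃ * (s₁ * t₁)) +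
      t₃ * (s₁ * (s₂ * t₂) - s₂ * (s₁ * t₁)) =
      t₁ * ((s₂ - s₁) * (s₃ * t₃ - s₁ * t₁) - (s₃ - s₁) * (s₂ * t₂ - s₁ * t₁)) -
      s₁ * ((t₂ - t₁) * (s₃ * t₃ - s₁ * t₁) - (t₃ - t₁) * (s₂ * t₂ - s₁ * t₁)) +
      s₁ * t₁ * ((t₂ - t₁) * (s₃ - s₁) - (t₃ - t₁) * (s₂ - s₁)) := by ring
  rw [e]
  have hs1 : |s₁| ≤ Λ := by rw [abs_of_nonneg h1.s0]; exact h1.s1
  have ht1 : |t₁| ≤ Λ := by rw [abs_of_nonneg h1.t0]; exact h1.t1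
  have b1 := abs_mul_le ht1 m3
  have b2 := abs_mul_le hs1 m2
  have b3 := abs_mul_le (abs_mul_le hs1 ht1) m1
  have hp : (1 : ℝ) ≤ Λ ^ 3 := one_le_pow₀ hΛ
  calc _ ≤ _ := abs_add_le _ _
    _ ≤ (Λ * (138 * Λ ^ 6 * ρ ^ 3) + Λ * (26 * Λ ^ 3 * ρ ^ 3)) + Λ * Λ * (10 * Λ ^ 2 * ρ ^ 3) :=
        add_le_add ((abs_sub _ _).trans (add_le_add b1 b2)) b3
    _ = 138 * Λ ^ 7 * ρ ^ 3 + 36 * (Λ ^ 4 * 1) * ρ ^ 3 := by ring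
    _ ≤ 138 * Λ ^ 7 * ρ ^ 3 + 36 * (Λ ^ 4 * Λ ^ 3) * ρ ^ 3 := by gcongr
    _ = _ := by ring

/-- the determinant of four points -/
lemma det4 (hΛ : 1 ≤ Λ) (hρ : 0 ≤ ρ) (hρ1 : ρ ≤ 1) (hγ : 0 ≤ γ) (hγ1 : γ ≤ Λ)
    (h1 : Arc Λ ρ γ t₁ s₁) (h2 : Arc Λ ρ γ t₂ s₂) (h3 : Arc Λ ρ γ t₃ s₃)
    (h4 : Arc Λ ρ γ t₄ s₄)
    (h21 : |t₂ - t₁| ≤ ρ) (h31 : |t₃ - t₁| ≤ ρ) (h41 : |t₄ - t₁| ≤ ρ) :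
    |(t₂ - t₁) * ((s₃ - s₁) * ((s₄ - s₁) * (t₄ - t₁)) - (s₄ - s₁) * ((s₃ - s₁) * (t₃ - t₁))) -
      (t₃ - t₁) * ((s₂ - s₁) * ((s₄ - s₁) * (t₄ - t₁)) - (s₄ - s₁) * ((s₂ - s₁) * (t₂ - t₁))) +
      (t₄ - t₁) * ((s₂ - s₁) * ((s₃ - s₁) * (t₃ - t₁)) - (s₃ - s₁) * ((s₂ - s₁) * (t₂ - t₁)))| ≤
      240 * Λ ^ 5 * ρ ^ 5 := by
  have a2 := sig' hΛ hρ hρ1 hγ hγ1 h1 h2 h21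
  have a3 := sig' hΛ hρ hρ1 hγ hγ1 h1 h3 h31
  have a4 := sig' hΛ hρ hρ1 hγ hγ1 h1 h4 h41
  have c2 := abs_mul_le (sig hΛ hρ hρ1 hγ hγ1 h1 h2 h21) h21
  have c3 := abs_mul_le (sig hΛ hρ hρ1 hγ hγ1 h1 h3 h31) h31
  have c4 := abs_mul_le (sig hΛ hρ hρ1 hγ hγ1 h1 h4 h41) h41
  set a := 3 * γ * t₁ ^ 2
  have e : (t₂ - t₁) * ((s₃ - s₁) * ((s₄ - s₁) * (t₄ - t₁)) - (s₄ - s₁) * ((s₃ - s₁) * (t₃ - t₁))) -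
      (t₃ - t₁) * ((s₂ - s₁) * ((s₄ - s₁) * (t₄ - t₁)) - (s₄ - s₁) * ((s₂ - s₁) * (t₂ - t₁))) +
      (t₄ - t₁) * ((s₂ - s₁) * ((s₃ - s₁) * (t₃ - t₁)) - (s₃ - s₁) * ((s₂ - s₁) * (t₂ - t₁))) =
      (t₂ - t₁) * (((s₃ - s₁) - a * (t₃ - t₁)) * ((s₄ - s₁) * (t₄ - t₁)) -
        ((s₄ - s₁) - a * (t₄ - t₁)) * ((s₃ - s₁) * (t₃ - t₁))) -
      (t₃ - t₁) * (((s₂ - s₁) - a * (t₂ - t₁)) * ((s₄ - s₁) * (t₄ - t₁)) -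
        ((s₄ - s₁) - a * (t₄ - t₁)) * ((s₂ - s₁) * (t₂ - t₁))) +
      (t₄ - t₁) * (((s₂ - s₁) - a * (t₂ - t₁)) * ((s₃ - s₁) * (t₃ - t₁)) -
        ((s₃ - s₁) - a * (t₃ - t₁)) * ((s₂ - s₁) * (t₂ - t₁))) := by ring
  rw [e]
  have d2 := abs_mul_le h21 ((abs_sub _ _).trans (add_le_add (abs_mul_le a3 c4) (abs_mul_le a4 c3)))
  have d3 := abs_mul_le h31 ((abs_sub _ _).trans (add_le_add (abs_mul_le a2 c4) (abs_mul_le a4 c2)))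
  have d4 := abs_mul_le h41 ((abs_sub _ _).trans (add_le_add (abs_mul_le a2 c3) (abs_mul_le a3 c2)))
  refine ((abs_add_le _ _).trans (add_le_add ((abs_sub _ _).trans (add_le_add d2 d3)) d4)).trans
    (le_of_eq ?_)
  ring

end Pool.Agent.H541.SM
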