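import Mathlib
import Pool.Agent.H541.SM.Det

/-!
# Relations between the points `(M y, M x, M' y, M' x)` of a short arc
-/

namespace Pool.Agent.H541.SM

/-- a quadruple `(M, x, M', y)` with `M' y ^ 3 = M x ^ 3 + h` in a box -/
structure Dat (l x0 y0 M0 N0 : ℝ) (h : ℕ) (u : ℕ × ℕ × ℕ × ℕ) : Prop where
  eq : u.2.2.1 * u.2.2.2 ^ 3 = u.1 * u.2.1 ^ 3 + h
  cM : Nat.Coprime u.1 u.2.2.1
  cx : Nat.Coprime u.2.1 u.2.2.2
  M1 : M0 ≤ u.1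
  M2 : (u.1 : ℝ) ≤ l * M0
  x1 : x0 ≤ u.2.1
  x2 : (u.2.1 : ℝ) ≤ l * x0
  N1 : N0 ≤ u.2.2.1
  N2 : (u.2.2.1 : ℝ) ≤ l * N0
  y1 : y0 ≤ u.2.2.2
  y2 : (u.2.2.2 : ℝ) ≤ l * y0

section
variable {R : Type*} [CommRing R]

/-- determinant of three rows -/
def D3 (a1 b1 c1 a2 b2 c2 a3 b3 c3 : R) : R :=
  a1 * (b2 * c3 - b3 * c2) - a2 * (b1 * c3 - b3 * c1) + a3 * (b1 * c2 - b2 * c1)
end

/-- coordinates -/
def U (u : ℕ × ℕ × ℕ × ℕ) (j : Fin 4) : ℤ :=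
  ![(u.1 : ℤ) * u.2.2.2, (u.1 : ℤ) * u.2.1, (u.2.2.1 : ℤ) * u.2.2.2, (u.2.2.1 : ℤ) * u.2.1] j

/-- the cross product -/
def cr (p q r : ℕ × ℕ × ℕ × ℕ) (j : Fin 4) : ℤ :=
  ![- D3 (U p 1) (U p 2) (U p 3) (U q 1) (U q 2) (U q 3) (U r 1) (U r 2) (U r 3),
    D3 (U p 0) (U p 2) (U p 3) (U q 0) (U q 2) (U q 3) (U r 0) (U r 2) (U r 3),
    - D3 (U p 0) (U p 1) (U p 3) (U q 0) (U q 1) (U q 3) (U r 0) (U r 1) (U r 3),
    D3 (U p 0) (U p 1) (U p 2) (U q 0) (U q 1) (U q 2) (U r 0) (U r 1) (U r 2)] j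

/-- the value of the linear form -/
def lin (c : Fin 4 → ℤ) (u : ℕ × ℕ × ℕ × ℕ) : ℤ :=
  c 0 * U u 0 + c 1 * U u 1 + c 2 * U u 2 + c 3 * U u 3

/-- the box sizes -/
def A (x0 y0 M0 N0 : ℝ) (j : Fin 4) : ℝ := ![M0 * y0, M0 * x0, N0 * y0, N0 * x0] j

noncomputable def nt (x0 y0 : ℝ) (u : ℕ × ℕ × ℕ × ℕ) : ℝ := (u.2.1 / x0) / (u.2.2.2 / y0)
noncomputable def ns (M0 N0 : ℝ) (u : ℕ × ℕ × ℕ × ℕ) : ℝ := (u.2.2.1 / N0) / (u.1 / M0)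
noncomputable def ng (y0 M0 : ℝ) (u : ℕ × ℕ × ℕ × ℕ) : ℝ := (u.1 / M0) * (u.2.2.2 / y0)

variable {l x0 y0 M0 N0 : ℝ} {h : ℕ}

lemma U_eq (hx : 0 < x0) (hy : 0 < y0) (hM : 0 < M0) (hN : 0 < N0) {u : ℕ × ℕ × ℕ × ℕ}
    (hu : Dat l x0 y0 M0 N0 h u) :
    (U u 0 : ℝ) = A x0 y0 M0 N0 0 * ng y0 M0 u ∧
    (U u 1 : ℝ) = A x0 y0 M0 N0 1 * (ng y0 M0 u * nt x0 y0 u) ∧
    (U u 2 : ℝ) = A x0 y0 M0 N0 2 * (ng y0 M0 u * ns M0 N0 u) ∧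
    (U u 3 : ℝ) = A x0 y0 M0 N0 3 * (ng y0 M0 u * (ns M0 N0 u * nt x0 y0 u)) := by
  have h1 : (0 : ℝ) < u.1 := hM.trans_le hu.M1
  have h2 : (0 : ℝ) < u.2.1 := hx.trans_le hu.x1
  have h3 : (0 : ℝ) < u.2.2.1 := hN.trans_le hu.N1
  have h4 : (0 : ℝ) < u.2.2.2 := hy.trans_le hu.y1
  refine ⟨?_, ?_, ?_, ?_⟩ <;>
  · simp only [U, A, ng, nt, ns, Matrix.cons_val]
    push_cast
    field_simp

lemma g_pos (hy : 0 < y0) (hM : 0 < M0) {u : ℕ × ℕ × ℕ × ℕ}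
    (hu : Dat l x0 y0 M0 N0 h u) : 0 < ng y0 M0 u := by
  have h1 : (0 : ℝ) < u.1 := hM.trans_le hu.M1
  have h4 : (0 : ℝ) < u.2.2.2 := hy.trans_le hu.y1
  unfold ng
  positivity

lemma g_le (hy : 0 < y0) (hM : 0 < M0) {u : ℕ × ℕ × ℕ × ℕ}
    (hu : Dat l x0 y0 M0 N0 h u) : ng y0 M0 u ≤ l ^ 2 := by
  have h1 : (0 : ℝ) < u.1 := hM.trans_le hu.M1
  have h4 : (0 : ℝ) < u.2.2.2 := hy.trans_le hu.y1
  have a : (u.1 : ℝ) / M0 ≤ l := by rw [div_le_iff₀ hM]; exact hu.M2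
  have b : (u.2.2.2 : ℝ) / y0 ≤ l := by rw [div_le_iff₀ hy]; exact hu.y2
  unfold ng
  calc (u.1 : ℝ) / M0 * (u.2.2.2 / y0) ≤ l * l := by
        apply mul_le_mul a b (by positivity)
        exact le_trans (by positivity) a
    _ = l ^ 2 := by ring

/-- the hypotheses for the real lemmas -/
lemma arc_of (hl : 1 ≤ l) (hx : 0 < x0) (hy : 0 < y0) (hM : 0 < M0) (hN : 0 < N0) {ρ : ℝ}
    (hρ : (h : ℝ) ≤ ρ ^ 2 * (N0 * y0 ^ 3)) {u : ℕ × ℕ × ℕ × ℕ}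
    (hu : Dat l x0 y0 M0 N0 h u) :
    Arc (l ^ 4) ρ ((M0 * x0 ^ 3) / (N0 * y0 ^ 3)) (nt x0 y0 u) (ns M0 N0 u) := by
  have h1 : (0 : ℝ) < u.1 := hM.trans_le hu.M1
  have h2 : (0 : ℝ) < u.2.1 := hx.trans_le hu.x1
  have h3 : (0 : ℝ) < u.2.2.1 := hN.trans_le hu.N1
  have h4 : (0 : ℝ) < u.2.2.2 := hy.trans_le hu.y1
  have hl4 : l ≤ l ^ 4 := by
    calc l = l ^ 1 := (pow_one l).symm
      _ ≤ l ^ 4 := pow_le_pow_right₀ hl (by norm_num)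
  have e : ns M0 N0 u - (M0 * x0 ^ 3) / (N0 * y0 ^ 3) * nt x0 y0 u ^ 3 =
      M0 / N0 * (h / (u.1 * u.2.2.2 ^ 3)) := by
    have heq : ((u.2.2.1 : ℝ)) * u.2.2.2 ^ 3 = u.1 * u.2.1 ^ 3 + h := by exact_mod_cast hu.eq
    have : (h : ℝ) = (u.2.2.1 : ℝ) * u.2.2.2 ^ 3 - u.1 * u.2.1 ^ 3 := by linarith
    rw [this]
    unfold ns nt
    field_simp
  refine ⟨?_, ?_, ?_, ?_, ?_, ?_⟩
  · unfold nt; positivity
  · unfold nt
    rw [div_le_iff₀ (by positivity)]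
    have a : (u.2.1 : ℝ) / x0 ≤ l := by rw [div_le_iff₀ hx]; exact hu.x2
    have b : 1 ≤ (u.2.2.2 : ℝ) / y0 := by rw [le_div_iff₀ hy]; linarith [hu.y1]
    calc (u.2.1 : ℝ) / x0 ≤ l := a
      _ ≤ l ^ 4 * 1 := by linarith
      _ ≤ l ^ 4 * (u.2.2.2 / y0) := by gcongr
  · unfold ns; positivity
  · unfold ns
    rw [div_le_iff₀ (by positivity)]
    have a : (u.2.2.1 : ℝ) / N0 ≤ l := by rw [div_le_iff₀ hN]; exact hu.N2
    have b : 1 ≤ (u.1 : ℝ) / M0 := by rw [le_div_iff₀ hM]; linarith [hu.M1]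
    calc (u.2.2.1 : ℝ) / N0 ≤ l := a
      _ ≤ l ^ 4 * 1 := by linarith
      _ ≤ l ^ 4 * (u.1 / M0) := by gcongr
  · rw [e]; positivity
  · rw [e]
    calc M0 / N0 * (h / (u.1 * u.2.2.2 ^ 3)) ≤ M0 / N0 * (h / (M0 * y0 ^ 3)) := by
          have := hu.M1
          have := hu.y1
          gcongr
      _ = h / (N0 * y0 ^ 3) := by field_simp
      _ ≤ ρ ^ 2 := by rw [div_le_iff₀ (by positivity)]; exact hρ

lemma gam_le (hl : 1 ≤ l) (hx : 0 < x0) (hy : 0 < y0) (hM : 0 < M0) (hN : 0 < N0)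
    {u : ℕ × ℕ × ℕ × ℕ} (hu : Dat l x0 y0 M0 N0 h u) :
    (M0 * x0 ^ 3) / (N0 * y0 ^ 3) ≤ l ^ 4 := by
  have h1 : (0 : ℝ) < u.1 := hM.trans_le hu.M1
  have h2 : (0 : ℝ) < u.2.1 := hx.trans_le hu.x1
  have heq : ((u.2.2.1 : ℝ)) * u.2.2.2 ^ 3 = u.1 * u.2.1 ^ 3 + h := by exact_mod_cast hu.eq
  rw [div_le_iff₀ (by positivity)]
  calc M0 * x0 ^ 3 ≤ (u.1 : ℝ) * (u.2.1 : ℝ) ^ 3 := by
        have := hu.M1
        have := hu.x1
        gcongr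
    _ ≤ (u.2.2.1 : ℝ) * (u.2.2.2 : ℝ) ^ 3 := by
        rw [heq]
        have : (0 : ℝ) ≤ h := Nat.cast_nonneg _
        linarith
    _ ≤ (l * N0) * (l * y0) ^ 3 := by
        have := hu.N2
        have := hu.y2
        gcongr
    _ = l ^ 4 * (N0 * y0 ^ 3) := by ring

/-- the linear form vanishes at all the points of the arc -/
lemma lin_zero (hl : 1 ≤ l) (hx : 0 < x0) (hy : 0 < y0) (hM : 0 < M0) (hN : 0 < N0) {ρ : ℝ}
    (hρ0 : 0 ≤ ρ) (hρ1 : ρ ≤ 1) (hρ : (h : ℝ) ≤ ρ ^ 2 * (N0 * y0 ^ 3))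
    (hD : 240 * l ^ 28 * (M0 * N0 * x0 * y0) ^ 2 * ρ ^ 5 < 1)
    {p q r w : ℕ × ℕ × ℕ × ℕ} (hp : Dat l x0 y0 M0 N0 h p) (hq : Dat l x0 y0 M0 N0 h q)
    (hr : Dat l x0 y0 M0 N0 h r) (hw : Dat l x0 y0 M0 N0 h w)
    (h1 : |nt x0 y0 q - nt x0 y0 p| ≤ ρ) (h2 : |nt x0 y0 r - nt x0 y0 p| ≤ ρ)
    (h3 : |nt x0 y0 w - nt x0 y0 p| ≤ ρ) : lin (cr p q r) w = 0 := by
  have ap := arc_of hl hx hy hM hN hρ hp
  have aq := arc_of hl hx hy hM hN hρ hq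
  have ar := arc_of hl hx hy hM hN hρ hr
  have aw := arc_of hl hx hy hM hN hρ hw
  have hg0 : 0 ≤ (M0 * x0 ^ 3) / (N0 * y0 ^ 3) := by positivity
  have hg1 := gam_le hl hx hy hM hN hp
  have hl4 : 1 ≤ l ^ 4 := one_le_pow₀ hl
  have hdet := det4 hl4 hρ0 hρ1 hg0 hg1 ap aq ar aw h1 h2 h3
  obtain ⟨p0, p1, p2, p3⟩ := U_eq hx hy hM hN hp
  obtain ⟨q0, q1, q2, q3⟩ := U_eq hx hy hM hN hq
  obtain ⟨r0, r1, r2, r3⟩ := U_eq hx hy hM hN hr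
  obtain ⟨w0, w1, w2, w3⟩ := U_eq hx hy hM hN hw
  have gp := g_pos hy hM hp
  have gq := g_pos hy hM hq
  have gr := g_pos hy hM hr
  have gw := g_pos hy hM hw
  have gp' := g_le hy hM hp
  have gq' := g_le hy hM hq
  have gr' := g_le hy hM hr
  have gw' := g_le hy hM hw
  have key : (lin (cr p q r) w : ℝ) =
      (M0 * N0 * x0 * y0) ^ 2 * (ng y0 M0 p * ng y0 M0 q * ng y0 M0 r * ng y0 M0 w) *
      ((nt x0 y0 q - nt x0 y0 p) * ((ns M0 N0 r - ns M0 N0 p) * ((ns M0 N0 w - ns M0 N0 p) *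
          (nt x0 y0 w - nt x0 y0 p)) - (ns M0 N0 w - ns M0 N0 p) * ((ns M0 N0 r - ns M0 N0 p) *
          (nt x0 y0 r - nt x0 y0 p))) -
        (nt x0 y0 r - nt x0 y0 p) * ((ns M0 N0 q - ns M0 N0 p) * ((ns M0 N0 w - ns M0 N0 p) *
          (nt x0 y0 w - nt x0 y0 p)) - (ns M0 N0 w - ns M0 N0 p) * ((ns M0 N0 q - ns M0 N0 p) *
          (nt x0 y0 q - nt x0 y0 p))) +
        (nt x0 y0 w - nt x0 y0 p) * ((ns M0 N0 q - ns M0 N0 p) * ((ns M0 N0 r - ns M0 N0 p) *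
          (nt x0 y0 r - nt x0 y0 p)) - (ns M0 N0 r - ns M0 N0 p) * ((ns M0 N0 q - ns M0 N0 p) *
          (nt x0 y0 q - nt x0 y0 p)))) := by
    simp only [lin, cr, D3, Matrix.cons_val]
    push_cast
    rw [p0, p1, p2, p3, q0, q1, q2, q3, r0, r1, r2, r3, w0, w1, w2, w3]
    simp only [A, Matrix.cons_val]
    generalize ng y0 M0 p = g1
    generalize ng y0 M0 q = g2
    generalize ng y0 M0 r = g3
    generalize ng y0 M0 w = g4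
    generalize nt x0 y0 p = t1
    generalize nt x0 y0 q = t2
    generalize nt x0 y0 r = t3
    generalize nt x0 y0 w = t4
    generalize ns M0 N0 p = s1
    generalize ns M0 N0 q = s2
    generalize ns M0 N0 r = s3
    generalize ns M0 N0 w = s4
    ring
  have hlt : |(lin (cr p q r) w : ℝ)| < 1 := by
    rw [key, abs_mul, abs_mul, abs_of_nonneg (by positivity : 0 ≤ (M0 * N0 * x0 * y0) ^ 2),
      abs_of_nonneg (by positivity : 0 ≤ ng y0 M0 p * ng y0 M0 q * ng y0 M0 r * ng y0 M0 w)]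
    refine lt_of_le_of_lt ?_ hD
    calc _ ≤ (M0 * N0 * x0 * y0) ^ 2 * (l ^ 2 * l ^ 2 * l ^ 2 * l ^ 2) *
          (240 * (l ^ 4) ^ 5 * ρ ^ 5) := by gcongr
      _ = _ := by ring
  have : |lin (cr p q r) w| < 1 := by
    have h5 : ((|lin (cr p q r) w| : ℤ) : ℝ) < 1 := by push_cast; exact hlt
    exact_mod_cast h5
  exact Int.abs_lt_one_iff.1 this

set_option maxHeartbeats 4000000 in
/-- bounds for the coefficients of the linear form -/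
lemma cr_le (hl : 1 ≤ l) (hx : 0 < x0) (hy : 0 < y0) (hM : 0 < M0) (hN : 0 < N0) {ρ : ℝ}
    (hρ0 : 0 ≤ ρ) (hρ1 : ρ ≤ 1) (hρ : (h : ℝ) ≤ ρ ^ 2 * (N0 * y0 ^ 3))
    {p q r : ℕ × ℕ × ℕ × ℕ} (hp : Dat l x0 y0 M0 N0 h p) (hq : Dat l x0 y0 M0 N0 h q)
    (hr : Dat l x0 y0 M0 N0 h r)
    (h1 : |nt x0 y0 q - nt x0 y0 p| ≤ ρ) (h2 : |nt x0 y0 r - nt x0 y0 p| ≤ ρ) (j : Fin 4) :
    |(cr p q r j : ℝ)| ≤ 174 * l ^ 34 * (M0 * N0 * x0 * y0) ^ 2 * ρ ^ 3 / A x0 y0 M0 N0 j := by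
  have ap := arc_of hl hx hy hM hN hρ hp
  have aq := arc_of hl hx hy hM hN hρ hq
  have ar := arc_of hl hx hy hM hN hρ hr
  have hg0 : 0 ≤ (M0 * x0 ^ 3) / (N0 * y0 ^ 3) := by positivity
  have hg1 := gam_le hl hx hy hM hN hp
  have hl4 : 1 ≤ l ^ 4 := one_le_pow₀ hl
  have m1 := minor1 hl4 hρ0 hρ1 hg0 hg1 ap aq ar h1 h2
  have m2 := minor2 hl4 hρ0 hρ1 hg0 hg1 ap aq ar h1 h2
  have m3 := minor3 hl4 hρ0 hρ1 hg0 hg1 ap aq ar h1 h2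
  have m4 := minor4 hl4 hρ0 hρ1 hg0 hg1 ap aq ar h1 h2
  obtain ⟨p0, p1, p2, p3⟩ := U_eq hx hy hM hN hp
  obtain ⟨q0, q1, q2, q3⟩ := U_eq hx hy hM hN hq
  obtain ⟨r0, r1, r2, r3⟩ := U_eq hx hy hM hN hr
  have gp := g_pos hy hM hp
  have gq := g_pos hy hM hq
  have gr := g_pos hy hM hr
  have gp' := g_le hy hM hp
  have gq' := g_le hy hM hq
  have gr' := g_le hy hM hr
  have hG : 0 ≤ ng y0 M0 p * ng y0 M0 q * ng y0 M0 r := by positivity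
  have hG' : ng y0 M0 p * ng y0 M0 q * ng y0 M0 r ≤ l ^ 6 := by
    calc _ ≤ l ^ 2 * l ^ 2 * l ^ 2 := by gcongr
      _ = l ^ 6 := by ring
  have hA : 0 < A x0 y0 M0 N0 j := by
    fin_cases j <;> simp only [A, Fin.zero_eta, Fin.mk_one, Fin.reduceFinMk, Matrix.cons_val] <;>
      positivity
  have fin : ∀ P m : ℝ, 0 ≤ P → |m| ≤ 174 * (l ^ 4) ^ 7 * ρ ^ 3 →
      P * A x0 y0 M0 N0 j = (M0 * N0 * x0 * y0) ^ 2 →
      |P * (ng y0 M0 p * ng y0 M0 q * ng y0 M0 r) * m| ≤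
        174 * l ^ 34 * (M0 * N0 * x0 * y0) ^ 2 * ρ ^ 3 / A x0 y0 M0 N0 j := by
    intro P m hP hm hPA
    rw [le_div_iff₀ hA, abs_mul, abs_mul, abs_of_nonneg hP, abs_of_nonneg hG, ← hPA]
    calc P * (ng y0 M0 p * ng y0 M0 q * ng y0 M0 r) * |m| * A x0 y0 M0 N0 j ≤
        P * l ^ 6 * (174 * (l ^ 4) ^ 7 * ρ ^ 3) * A x0 y0 M0 N0 j := by gcongr
      _ = _ := by ring
  have hp3 : (1 : ℝ) ≤ l ^ 4 := hl4
  have up : ∀ k n : ℕ, k ≤ n → (l ^ 4) ^ k ≤ (l ^ 4) ^ n := fun k n hkn =>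
    pow_le_pow_right₀ hl4 hkn
  have hr3 : 0 ≤ ρ ^ 3 := by positivity
  fin_cases j
  · have e : (cr p q r 0 : ℝ) = (M0 * x0) * (N0 * y0) * (N0 * x0) *
        (ng y0 M0 p * ng y0 M0 q * ng y0 M0 r) *
        (-(nt x0 y0 p * (ns M0 N0 q * (ns M0 N0 r * nt x0 y0 r) -
            ns M0 N0 r * (ns M0 N0 q * nt x0 y0 q)) -
          nt x0 y0 q * (ns M0 N0 p * (ns M0 N0 r * nt x0 y0 r) -
            ns M0 N0 r * (ns M0 N0 p * nt x0 y0 p)) +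
          nt x0 y0 r * (ns M0 N0 p * (ns M0 N0 q * nt x0 y0 q) -
            ns M0 N0 q * (ns M0 N0 p * nt x0 y0 p)))) := by
      simp only [cr, D3, Matrix.cons_val]
      push_cast
      rw [p1, p2, p3, q1, q2, q3, r1, r2, r3]
      simp only [A, Matrix.cons_val]
      ring
    simp only [Fin.zero_eta]
    rw [e]
    apply fin
    · positivity
    · rw [abs_neg]; exact m4
    · simp only [A, Fin.zero_eta, Matrix.cons_val]; ring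
  · have e : (cr p q r 1 : ℝ) = (M0 * y0) * (N0 * y0) * (N0 * x0) *
        (ng y0 M0 p * ng y0 M0 q * ng y0 M0 r) *
        ((ns M0 N0 q - ns M0 N0 p) * (ns M0 N0 r * nt x0 y0 r - ns M0 N0 p * nt x0 y0 p) -
          (ns M0 N0 r - ns M0 N0 p) * (ns M0 N0 q * nt x0 y0 q - ns M0 N0 p * nt x0 y0 p)) := by
      simp only [cr, D3, Matrix.cons_val]
      push_cast
      rw [p0, p2, p3, q0, q2, q3, r0, r2, r3]
      simp only [A, Matrix.cons_val]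
      ring
    simp only [Fin.mk_one]
    rw [e]
    apply fin
    · positivity
    · refine m3.trans ?_
      have := up 6 7 (by norm_num)
      have h5 : 0 ≤ (l ^ 4) ^ 7 * ρ ^ 3 := by positivity
      nlinarith [mul_le_mul_of_nonneg_right this hr3]
    · simp only [A, Fin.mk_one, Matrix.cons_val]; ring
  · have e : (cr p q r 2 : ℝ) = (M0 * y0) * (M0 * x0) * (N0 * x0) *
        (ng y0 M0 p * ng y0 M0 q * ng y0 M0 r) *
        (-((nt x0 y0 q - nt x0 y0 p) * (ns M0 N0 r * nt x0 y0 r - ns M0 N0 p * nt x0 y0 p) -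
          (nt x0 y0 r - nt x0 y0 p) * (ns M0 N0 q * nt x0 y0 q - ns M0 N0 p * nt x0 y0 p))) := by
      simp only [cr, D3, Matrix.cons_val]
      push_cast
      rw [p0, p1, p3, q0, q1, q3, r0, r1, r3]
      simp only [A, Matrix.cons_val]
      ring
    simp only [Fin.reduceFinMk]
    rw [e]
    apply fin
    · positivity
    · rw [abs_neg]
      refine m2.trans ?_
      have := up 3 7 (by norm_num)
      have h5 : 0 ≤ (l ^ 4) ^ 7 * ρ ^ 3 := by positivity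
      nlinarith [mul_le_mul_of_nonneg_right this hr3]
    · simp only [A, Fin.reduceFinMk, Matrix.cons_val]; ring
  · have e : (cr p q r 3 : ℝ) = (M0 * y0) * (M0 * x0) * (N0 * y0) *
        (ng y0 M0 p * ng y0 M0 q * ng y0 M0 r) *
        ((nt x0 y0 q - nt x0 y0 p) * (ns M0 N0 r - ns M0 N0 p) -
          (nt x0 y0 r - nt x0 y0 p) * (ns M0 N0 q - ns M0 N0 p)) := by
      simp only [cr, D3, Matrix.cons_val]
      push_cast
      rw [p0, p1, p2, q0, q1, q2, r0, r1, r2]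
      simp only [A, Matrix.cons_val]
      ring
    simp only [Fin.reduceFinMk]
    rw [e]
    apply fin
    · positivity
    · refine m1.trans ?_
      have := up 2 7 (by norm_num)
      have h5 : 0 ≤ (l ^ 4) ^ 7 * ρ ^ 3 := by positivity
      nlinarith [mul_le_mul_of_nonneg_right this hr3]
    · simp only [A, Fin.reduceFinMk, Matrix.cons_val]; ring

/-- the ratios `x / y` and `M / M'` are different for different points -/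
lemma nt_inj (hx : 0 < x0) (hy : 0 < y0) (hlM : l * M0 < y0 ^ 3)
    {p q : ℕ × ℕ × ℕ × ℕ} (hp : Dat l x0 y0 M0 N0 h p) (hq : Dat l x0 y0 M0 N0 h q)
    (he : p.2.1 = q.2.1) (he' : p.2.2.2 = q.2.2.2) : p = q := by
  obtain ⟨M, x, M', y⟩ := p
  obtain ⟨m, x', m', y'⟩ := q
  simp only at he he'
  subst he he'
  have e1 := hp.eq
  have e2 := hq.eq
  simp only at e1 e2
  have hy1 : (0 : ℝ) < y := hy.trans_le hp.y1
  have hyn : 0 < y := by exact_mod_cast hy1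
  have hxn : 0 < x := by exact_mod_cast hx.trans_le hp.x1
  have hcop : Nat.Coprime (y ^ 3) (x ^ 3) := (hp.cx.pow 3 3).symm
  have hy3 : (y0 : ℝ) ^ 3 ≤ (y : ℝ) ^ 3 := by
    have := hp.y1
    simp only at this
    gcongr
  have a1 : (M : ℝ) < (y : ℝ) ^ 3 := (hp.M2.trans_lt hlM).trans_le hy3
  have a2 : (m : ℝ) < (y : ℝ) ^ 3 := (hq.M2.trans_lt hlM).trans_le hy3
  have b1 : M < y ^ 3 := by exact_mod_cast a1
  have b2 : m < y ^ 3 := by exact_mod_cast a2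
  have hmod : M * x ^ 3 ≡ m * x ^ 3 [MOD y ^ 3] := by
    have c1 : (M * x ^ 3 + h) ≡ (m * x ^ 3 + h) [MOD y ^ 3] := by
      rw [← e1, ← e2]
      exact ((Nat.modEq_zero_iff_dvd.2 (Dvd.intro_left _ rfl)).trans
        (Nat.modEq_zero_iff_dvd.2 (Dvd.intro_left _ rfl)).symm)
    exact Nat.ModEq.add_right_cancel' h c1
  have hmod2 : M ≡ m [MOD y ^ 3] := Nat.ModEq.cancel_right_of_coprime hcop hmod
  have hMm : M = m := Nat.ModEq.eq_of_lt_of_lt hmod2 b1 b2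
  subst hMm
  have : M' * y ^ 3 = m' * y ^ 3 := by rw [e1, e2]
  have : M' = m' := Nat.eq_of_mul_eq_mul_right (by positivity) this
  subst this
  rfl

lemma cr2_eq (hx : 0 < x0) (hy : 0 < y0) (hM : 0 < M0) (hN : 0 < N0)
    {p q r : ℕ × ℕ × ℕ × ℕ} (hp : Dat l x0 y0 M0 N0 h p) (hq : Dat l x0 y0 M0 N0 h q)
    (hr : Dat l x0 y0 M0 N0 h r) : (cr p q r 2 : ℝ) = (M0 * y0) * (M0 * x0) * (N0 * x0) *
        (ng y0 M0 p * ng y0 M0 q * ng y0 M0 r) *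
        (-((nt x0 y0 q - nt x0 y0 p) * (ns M0 N0 r * nt x0 y0 r - ns M0 N0 p * nt x0 y0 p) -
          (nt x0 y0 r - nt x0 y0 p) * (ns M0 N0 q * nt x0 y0 q - ns M0 N0 p * nt x0 y0 p))) := by
  obtain ⟨p0, p1, p2, p3⟩ := U_eq hx hy hM hN hp
  obtain ⟨q0, q1, q2, q3⟩ := U_eq hx hy hM hN hq
  obtain ⟨r0, r1, r2, r3⟩ := U_eq hx hy hM hN hr
  simp only [cr, D3, Matrix.cons_val]
  push_cast
  rw [p0, p1, p3, q0, q1, q3, r0, r1, r3]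
  simp only [A, Matrix.cons_val]
  ring

lemma cr3_eq (hx : 0 < x0) (hy : 0 < y0) (hM : 0 < M0) (hN : 0 < N0)
    {p q r : ℕ × ℕ × ℕ × ℕ} (hp : Dat l x0 y0 M0 N0 h p) (hq : Dat l x0 y0 M0 N0 h q)
    (hr : Dat l x0 y0 M0 N0 h r) : (cr p q r 3 : ℝ) = (M0 * y0) * (M0 * x0) * (N0 * y0) *
        (ng y0 M0 p * ng y0 M0 q * ng y0 M0 r) *
        ((nt x0 y0 q - nt x0 y0 p) * (ns M0 N0 r - ns M0 N0 p) -
          (nt x0 y0 r - nt x0 y0 p) * (ns M0 N0 q - ns M0 N0 p)) := by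
  obtain ⟨p0, p1, p2, p3⟩ := U_eq hx hy hM hN hp
  obtain ⟨q0, q1, q2, q3⟩ := U_eq hx hy hM hN hq
  obtain ⟨r0, r1, r2, r3⟩ := U_eq hx hy hM hN hr
  simp only [cr, D3, Matrix.cons_val]
  push_cast
  rw [p0, p1, p2, q0, q1, q2, r0, r1, r2]
  simp only [A, Matrix.cons_val]
  ring

lemma coprime_cross {a b c d : ℕ} (ha : 0 < a) (h1 : Nat.Coprime a b) (h2 : Nat.Coprime c d)
    (h : a * d = c * b) : a = c ∧ b = d := by
  have e1 : a ∣ c := by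
    apply h1.dvd_of_dvd_mul_right
    exact ⟨d, by rw [h]⟩
  have e2 : c ∣ a := by
    apply h2.dvd_of_dvd_mul_right
    exact ⟨b, by rw [h]⟩
  have e3 := Nat.dvd_antisymm e1 e2
  subst e3
  exact ⟨rfl, (Nat.eq_of_mul_eq_mul_left ha h).symm⟩

lemma nt_ne (hx : 0 < x0) (hy : 0 < y0) (hlM : l * M0 < y0 ^ 3)
    {p q : ℕ × ℕ × ℕ × ℕ} (hp : Dat l x0 y0 M0 N0 h p) (hq : Dat l x0 y0 M0 N0 h q)
    (hne : p ≠ q) : nt x0 y0 p ≠ nt x0 y0 q := by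
  intro he
  apply hne
  have h1 : (0 : ℝ) < p.2.2.2 := hy.trans_le hp.y1
  have h2 : (0 : ℝ) < q.2.2.2 := hy.trans_le hq.y1
  have h3 : (0 : ℝ) < p.2.1 := hx.trans_le hp.x1
  unfold nt at he
  rw [div_eq_div_iff (by positivity) (by positivity)] at he
  have he2 : (p.2.1 : ℝ) * q.2.2.2 = q.2.1 * p.2.2.2 := by
    field_simp at he
    linarith
  have he3 : p.2.1 * q.2.2.2 = q.2.1 * p.2.2.2 := by exact_mod_cast he2
  obtain ⟨e1, e2⟩ := coprime_cross (by exact_mod_cast h3) hp.cx hq.cx he3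
  exact nt_inj hx hy hlM hp hq e1 e2

lemma ns_ne (hx : 0 < x0) (hy : 0 < y0) (hM : 0 < M0) (hN : 0 < N0) (hl : 1 ≤ l)
    (hlM : l * M0 < y0 ^ 3) (hh : h * l ^ 3 * y0 < 3 * M0 * x0 ^ 2)
    {p q : ℕ × ℕ × ℕ × ℕ} (hp : Dat l x0 y0 M0 N0 h p) (hq : Dat l x0 y0 M0 N0 h q)
    (hne : p ≠ q) : ns M0 N0 p ≠ ns M0 N0 q := by
  intro he
  have h1 : (0 : ℝ) < p.1 := hM.trans_le hp.M1
  have h2 : (0 : ℝ) < q.1 := hM.trans_le hq.M1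
  have h3 : (0 : ℝ) < p.2.2.1 := hN.trans_le hp.N1
  unfold ns at he
  rw [div_eq_div_iff (by positivity) (by positivity)] at he
  have he2 : (p.2.2.1 : ℝ) * q.1 = q.2.2.1 * p.1 := by
    field_simp at he
    linarith
  have he3 : p.2.2.1 * q.1 = q.2.2.1 * p.1 := by exact_mod_cast he2
  obtain ⟨e1, e2⟩ := coprime_cross (by exact_mod_cast h3) hp.cM.symm hq.cM.symm he3
  obtain ⟨M, x, M', y⟩ := p
  obtain ⟨m, x', m', y'⟩ := q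
  simp only at e1 e2
  subst e1 e2
  have f1 := hp.eq
  have f2 := hq.eq
  simp only at f1 f2
  have px := hp.x1
  have qx := hq.x1
  have py := hp.y1
  have qy := hq.y1
  have py2 := hp.y2
  have qy2 := hq.y2
  have pM := hp.M1
  simp only at px qx py qy py2 qy2 pM h1
  -- the integers `x y'` and `x' y`
  have hab : (x : ℤ) * y' ≠ x' * y := by
    intro hc
    have hc' : x * y' = x' * y := by exact_mod_cast hc
    have hxn : 0 < x := by exact_mod_cast hx.trans_le px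
    obtain ⟨g1, g2⟩ := coprime_cross hxn hp.cx hq.cx hc'
    exact hne (nt_inj hx hy hlM hp hq g1 g2)
  have k1 : (M : ℝ) * (((x : ℝ) * y') ^ 3 - ((x' : ℝ) * y) ^ 3) = h * ((y : ℝ) ^ 3 - (y' : ℝ) ^ 3) := by
    have g1 : (M' : ℝ) * y ^ 3 = M * x ^ 3 + h := by exact_mod_cast f1
    have g2 : (M' : ℝ) * y' ^ 3 = M * x' ^ 3 + h := by exact_mod_cast f2
    linear_combination (-(y' : ℝ) ^ 3) * g1 + (y : ℝ) ^ 3 * g2
  have k2 : (1 : ℝ) ≤ |(x : ℝ) * y' - x' * y| := by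
    have : (1 : ℤ) ≤ |(x : ℤ) * y' - x' * y| := Int.one_le_abs (sub_ne_zero.2 hab)
    exact_mod_cast this
  have ka : x0 * y0 ≤ (x : ℝ) * y' := by gcongr
  have kb : x0 * y0 ≤ (x' : ℝ) * y := by gcongr
  have hxy : 0 < x0 * y0 := by positivity
  have k3 : 3 * (x0 * y0) ^ 2 ≤ |((x : ℝ) * y') ^ 3 - ((x' : ℝ) * y) ^ 3| := by
    have e : ((x : ℝ) * y') ^ 3 - ((x' : ℝ) * y) ^ 3 = ((x : ℝ) * y' - x' * y) *
        (((x : ℝ) * y') ^ 2 + ((x : ℝ) * y') * ((x' : ℝ) * y) + ((x' : ℝ) * y) ^ 2) := by ring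
    have p1 : 3 * (x0 * y0) ^ 2 ≤
        ((x : ℝ) * y') ^ 2 + ((x : ℝ) * y') * ((x' : ℝ) * y) + ((x' : ℝ) * y) ^ 2 := by
      have q1 : (x0 * y0) ^ 2 ≤ ((x : ℝ) * y') ^ 2 := by gcongr
      have q2 : (x0 * y0) ^ 2 ≤ ((x' : ℝ) * y) ^ 2 := by gcongr
      have q3 : (x0 * y0) * (x0 * y0) ≤ ((x : ℝ) * y') * ((x' : ℝ) * y) := by gcongr
      nlinarith
    rw [e, abs_mul]
    calc 3 * (x0 * y0) ^ 2 ≤ 1 * (((x : ℝ) * y') ^ 2 + ((x : ℝ) * y') * ((x' : ℝ) * y) +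
          ((x' : ℝ) * y) ^ 2) := by linarith
      _ ≤ _ := by
          apply mul_le_mul k2 (le_abs_self _) _ (abs_nonneg _)
          positivity
  have k4 : |(y : ℝ) ^ 3 - (y' : ℝ) ^ 3| ≤ (l * y0) ^ 3 := by
    have hb1 : (y : ℝ) ^ 3 ≤ (l * y0) ^ 3 := by gcongr
    have hb2 : (y' : ℝ) ^ 3 ≤ (l * y0) ^ 3 := by gcongr
    have hc1 : (0 : ℝ) ≤ (y : ℝ) ^ 3 := by positivity
    have hc2 : (0 : ℝ) ≤ (y' : ℝ) ^ 3 := by positivity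
    rw [abs_le]
    constructor <;> linarith
  have k5 : (M : ℝ) * |((x : ℝ) * y') ^ 3 - ((x' : ℝ) * y) ^ 3| =
      h * |(y : ℝ) ^ 3 - (y' : ℝ) ^ 3| := by
    rw [← abs_of_pos h1, ← abs_mul, k1, abs_mul, Nat.abs_cast]
  have k6 : M0 * (3 * (x0 * y0) ^ 2) ≤ h * (l * y0) ^ 3 := by
    calc M0 * (3 * (x0 * y0) ^ 2) ≤ (M : ℝ) * |((x : ℝ) * y') ^ 3 - ((x' : ℝ) * y) ^ 3| := by
          gcongr
      _ = h * |(y : ℝ) ^ 3 - (y' : ℝ) ^ 3| := k5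
      _ ≤ h * (l * y0) ^ 3 := by gcongr
  have k7 : h * l ^ 3 * y0 * y0 ^ 2 < 3 * M0 * x0 ^ 2 * y0 ^ 2 := by gcongr
  nlinarith

lemma cr_ne (hx : 0 < x0) (hy : 0 < y0) (hM : 0 < M0) (hN : 0 < N0) (hl : 1 ≤ l)
    (hlM : l * M0 < y0 ^ 3) (hh : h * l ^ 3 * y0 < 3 * M0 * x0 ^ 2)
    {p q r : ℕ × ℕ × ℕ × ℕ} (hp : Dat l x0 y0 M0 N0 h p) (hq : Dat l x0 y0 M0 N0 h q)
    (hr : Dat l x0 y0 M0 N0 h r) (hpq : q ≠ p) (hpr : r ≠ p) (hqr : r ≠ q) :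
    cr p q r ≠ 0 := by
  intro hc
  have gp := g_pos hy hM hp
  have gq := g_pos hy hM hq
  have gr := g_pos hy hM hr
  have c2 := cr2_eq hx hy hM hN hp hq hr
  have c3 := cr3_eq hx hy hM hN hp hq hr
  rw [hc] at c2 c3
  simp only [Pi.zero_apply, Int.cast_zero] at c2 c3
  have p2 : 0 < (M0 * y0) * (M0 * x0) * (N0 * x0) *
        (ng y0 M0 p * ng y0 M0 q * ng y0 M0 r) := by positivity
  have p3 : 0 < (M0 * y0) * (M0 * x0) * (N0 * y0) *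
        (ng y0 M0 p * ng y0 M0 q * ng y0 M0 r) := by positivity
  have z2 := (mul_eq_zero.1 c2.symm).resolve_left p2.ne'
  have z3 := (mul_eq_zero.1 c3.symm).resolve_left p3.ne'
  have t1 := sub_ne_zero.2 (nt_ne hx hy hlM hq hp hpq)
  have t2 := sub_ne_zero.2 (nt_ne hx hy hlM hr hp hpr)
  have s1 := sub_ne_zero.2 (ns_ne hx hy hM hN hl hlM hh hr hq hqr)
  have key : (nt x0 y0 q - nt x0 y0 p) * (nt x0 y0 r - nt x0 y0 p) *
      (ns M0 N0 r - ns M0 N0 q) = 0 := by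
    linear_combination (-1 : ℝ) * z2 - nt x0 y0 p * z3
  exact mul_ne_zero (mul_ne_zero t1 t2) s1 key

end Pool.Agent.H541.SM
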