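import Mathlib
import Pool.Agent.H541.SM.Cross

/-!
# The number of quadruples `(M, x, M', y)` with `M' y ^ 3 = M x ^ 3 + h` in a box
-/

namespace Pool.Agent.H541.SM

open Finset Polynomial

variable {l x0 y0 M0 N0 : ℝ} {h : ℕ}

/-- bound of the coefficient `j` -/
noncomputable def CC (l x0 y0 M0 N0 ρ : ℝ) (j : Fin 4) : ℝ :=
  174 * l ^ 34 * (M0 * N0 * x0 * y0) ^ 2 * ρ ^ 3 / A x0 y0 M0 N0 j

/-- bound of the quotient -/
noncomputable def CK (l x0 y0 M0 N0 ρ : ℝ) : ℝ :=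
  2 * l * (174 * l ^ 34 * (M0 * N0 * x0 * y0) ^ 2 * ρ ^ 3) / (M0 * N0)

/-- the point satisfies a linear relation with small coefficients -/
def Sp (l x0 y0 M0 N0 ρ : ℝ) (u : ℕ × ℕ × ℕ × ℕ) : Prop :=
  ∃ c : Fin 4 → ℤ, c ≠ 0 ∧ (∀ j, |(c j : ℝ)| ≤ CC l x0 y0 M0 N0 ρ j) ∧ lin c u = 0

/-- the quotient -/
lemma quot {u : ℕ × ℕ × ℕ × ℕ} (hl : 1 ≤ l) (hx : 0 < x0) (hy : 0 < y0) (hM : 0 < M0)
    (hN : 0 < N0) {ρ : ℝ} (hρ0 : 0 ≤ ρ)
    (hu : Dat l x0 y0 M0 N0 h u) {c : Fin 4 → ℤ} (hc : lin c u = 0)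
    (hcb : ∀ j, |(c j : ℝ)| ≤ CC l x0 y0 M0 N0 ρ j) :
    ∃ k : ℤ, |(k : ℝ)| ≤ CK l x0 y0 M0 N0 ρ ∧
      c 0 * u.2.2.2 ^ 4 + c 1 * u.2.1 * u.2.2.2 ^ 3 + c 2 * u.2.1 ^ 3 * u.2.2.2 +
        c 3 * u.2.1 ^ 4 = k * h := by
  obtain ⟨M, x, M', y⟩ := u
  have hM1 : (0 : ℝ) < M := hM.trans_le hu.M1
  have hN1 : (0 : ℝ) < M' := hN.trans_le hu.N1
  have hMn : 0 < M := by exact_mod_cast hM1
  have hNn : 0 < M' := by exact_mod_cast hN1
  simp only [lin, U, Matrix.cons_val] at hc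
  have h1 : (M : ℤ) * (c 0 * y + c 1 * x) = -(M' : ℤ) * (c 2 * y + c 3 * x) := by
    linear_combination hc
  have h2 : (M' : ℤ) ∣ (M : ℤ) * (c 0 * y + c 1 * x) := ⟨-(c 2 * y + c 3 * x), by rw [h1]; ring⟩
  have hcop : IsCoprime (M' : ℤ) (M : ℤ) := by
    rw [Int.isCoprime_iff_gcd_eq_one]
    exact_mod_cast hu.cM.symm
  obtain ⟨k, hk⟩ := hcop.dvd_of_dvd_mul_left h2
  have h3 : c 2 * y + c 3 * x = -(M : ℤ) * k := by
    have h4 : (M' : ℤ) * (c 2 * y + c 3 * x) = (M' : ℤ) * (-(M : ℤ) * k) := by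
      linear_combination h1 - (M : ℤ) * hk
    exact mul_left_cancel₀ (by exact_mod_cast hNn.ne') h4
  refine ⟨k, ?_, ?_⟩
  · have hy1 : (y : ℝ) ≤ l * y0 := hu.y2
    have hx1 : (x : ℝ) ≤ l * x0 := hu.x2
    have hb : |((M' : ℝ) * k)| ≤ CC l x0 y0 M0 N0 ρ 0 * (l * y0) + CC l x0 y0 M0 N0 ρ 1 * (l * x0) := by
      have e : (M' : ℝ) * k = c 0 * y + c 1 * x := by exact_mod_cast hk.symm
      rw [e]
      refine (abs_add_le _ _).trans (add_le_add ?_ ?_)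
      · rw [abs_mul, Nat.abs_cast]
        exact mul_le_mul (hcb 0) hy1 (Nat.cast_nonneg _) ((abs_nonneg _).trans (hcb 0))
      · rw [abs_mul, Nat.abs_cast]
        exact mul_le_mul (hcb 1) hx1 (Nat.cast_nonneg _) ((abs_nonneg _).trans (hcb 1))
    have e2 : CC l x0 y0 M0 N0 ρ 0 * (l * y0) + CC l x0 y0 M0 N0 ρ 1 * (l * x0) =
        CK l x0 y0 M0 N0 ρ * N0 := by
      simp only [CC, CK, A, Matrix.cons_val]
      field_simp
      ring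
    rw [e2, abs_mul, Nat.abs_cast] at hb
    have h5 : N0 * |(k : ℝ)| ≤ (M' : ℝ) * |(k : ℝ)| :=
      mul_le_mul_of_nonneg_right hu.N1 (abs_nonneg _)
    have h6 : N0 * |(k : ℝ)| ≤ N0 * CK l x0 y0 M0 N0 ρ := by linarith
    exact le_of_mul_le_mul_left h6 hN
  · have heq : (M' : ℤ) * y ^ 3 = M * x ^ 3 + h := by exact_mod_cast hu.eq
    simp only
    linear_combination (y : ℤ) ^ 3 * hk + (x : ℤ) ^ 3 * h3 + k * heq

/-- the polynomial -/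
noncomputable def pol (c : Fin 4 → ℤ) (k : ℤ) (x h : ℕ) : ℤ[X] :=
  C (c 0) * X ^ 4 + C (c 1 * x) * X ^ 3 + C (c 2 * x ^ 3) * X + C (c 3 * x ^ 4 - k * h)

lemma pol_deg (c : Fin 4 → ℤ) (k : ℤ) (x h : ℕ) : (pol c k x h).natDegree ≤ 4 := by
  unfold pol
  compute_degree

lemma pol_ne (c : Fin 4 → ℤ) (hc : c ≠ 0) (k : ℤ) (x h : ℕ) (hx : 0 < x)
    (hk : |(k : ℝ)| * h < (x : ℝ) ^ 4) : pol c k x h ≠ 0 := by
  intro h0
  have e4 : (pol c k x h).coeff 4 = 0 := by rw [h0, coeff_zero]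
  have e3 : (pol c k x h).coeff 3 = 0 := by rw [h0, coeff_zero]
  have e1 : (pol c k x h).coeff 1 = 0 := by rw [h0, coeff_zero]
  have e0 : (pol c k x h).coeff 0 = 0 := by rw [h0, coeff_zero]
  simp only [pol, coeff_add, coeff_C_mul, coeff_X_pow, coeff_X, coeff_C] at e4 e3 e1 e0
  norm_num at e4 e3 e1 e0
  have c1 : c 1 = 0 := e3.resolve_right hx.ne'
  have c2 : c 2 = 0 := e1.resolve_right hx.ne'
  have c3 : c 3 ≠ 0 := by
    intro h3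
    apply hc
    funext j
    fin_cases j
    · exact e4
    · exact c1
    · exact c2
    · exact h3
  have h1 : (1 : ℝ) ≤ |(c 3 : ℝ)| := by
    exact_mod_cast Int.one_le_abs c3
  have h2 : ((c 3 : ℝ)) * (x : ℝ) ^ 4 = k * h := by
    have : c 3 * (x : ℤ) ^ 4 = k * h := by linarith
    exact_mod_cast this
  have h3 : |(c 3 : ℝ)| * (x : ℝ) ^ 4 = |(k : ℝ)| * h := by
    have h4 := congrArg abs h2
    rwa [abs_mul, abs_mul, Nat.abs_cast, abs_of_nonneg (by positivity : (0 : ℝ) ≤ (x : ℝ) ^ 4)]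
      at h4
  have h5 : (0 : ℝ) ≤ (x : ℝ) ^ 4 := by positivity
  nlinarith

/-- few points on one relation -/
lemma fiber (hl : 1 ≤ l) (hx : 0 < x0) (hy : 0 < y0) (hlM : l * M0 < y0 ^ 3) {ρ : ℝ}
    (hK : CK l x0 y0 M0 N0 ρ * h < x0 ^ 4)
    (T : Finset (ℕ × ℕ × ℕ × ℕ)) (c : Fin 4 → ℤ) (hc : c ≠ 0) (k : ℤ)
    (hk : |(k : ℝ)| ≤ CK l x0 y0 M0 N0 ρ) (x : ℕ)
    (hT : ∀ u ∈ T, Dat l x0 y0 M0 N0 h u ∧ u.2.1 = x ∧
      c 0 * u.2.2.2 ^ 4 + c 1 * u.2.1 * u.2.2.2 ^ 3 + c 2 * u.2.1 ^ 3 * u.2.2.2 +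
        c 3 * u.2.1 ^ 4 = k * h) : T.card ≤ 4 := by
  classical
  rcases T.eq_empty_or_nonempty with h0 | ⟨u0, hu0⟩
  · subst h0; simp
  obtain ⟨hd0, hx0, -⟩ := hT u0 hu0
  have hxr : x0 ≤ (x : ℝ) := by rw [← hx0]; exact hd0.x1
  have hxn : 0 < x := by exact_mod_cast hx.trans_le hxr
  have hkh : |(k : ℝ)| * h < (x : ℝ) ^ 4 := by
    calc |(k : ℝ)| * h ≤ CK l x0 y0 M0 N0 ρ * h :=
          mul_le_mul_of_nonneg_right hk (Nat.cast_nonneg _)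
      _ < x0 ^ 4 := hK
      _ ≤ (x : ℝ) ^ 4 := by gcongr
  have hne := pol_ne c hc k x h hxn hkh
  have hmap : T.card ≤ (pol c k x h).roots.toFinset.card := by
    apply card_le_card_of_injOn (fun u => ((u.2.2.2 : ℕ) : ℤ))
    · intro u hu
      obtain ⟨hd, hxu, he⟩ := hT u hu
      rw [mem_coe, Multiset.mem_toFinset, mem_roots hne]
      subst hxu
      simp only [pol, IsRoot, eval_add, eval_mul, eval_C, eval_pow, eval_X]
      linear_combination he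
    · intro u hu v hv huv
      obtain ⟨hd, hxu, -⟩ := hT u hu
      obtain ⟨hd', hxv, -⟩ := hT v hv
      simp only at huv
      exact nt_inj hx hy hlM hd hd' (by rw [hxu, hxv]) (by exact_mod_cast huv)
  calc T.card ≤ (pol c k x h).roots.toFinset.card := hmap
    _ ≤ Multiset.card (pol c k x h).roots := Multiset.toFinset_card_le _
    _ ≤ (pol c k x h).natDegree := card_roots' _
    _ ≤ 4 := pol_deg c k x h

lemma CC_nonneg (hx : 0 < x0) (hy : 0 < y0) (hM : 0 < M0) (hN : 0 < N0) (hl : 1 ≤ l)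
    {ρ : ℝ} (hρ0 : 0 ≤ ρ) (j : Fin 4) : 0 ≤ CC l x0 y0 M0 N0 ρ j := by
  have hA : 0 < A x0 y0 M0 N0 j := by
    fin_cases j <;> simp only [A, Fin.zero_eta, Fin.mk_one, Fin.reduceFinMk, Matrix.cons_val] <;>
      positivity
  unfold CC
  positivity

lemma CK_nonneg (hM : 0 < M0) (hN : 0 < N0) (hl : 1 ≤ l)
    {ρ : ℝ} (hρ0 : 0 ≤ ρ) : 0 ≤ CK l x0 y0 M0 N0 ρ := by
  unfold CK
  positivity

lemma card_Icc_floor (C : ℝ) (hC : 0 ≤ C) :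
    (((Icc (-⌊C⌋) ⌊C⌋ : Finset ℤ).card : ℕ) : ℝ) ≤ 2 * C + 1 := by
  have h0 : 0 ≤ ⌊C⌋ := Int.floor_nonneg.2 hC
  rw [Int.card_Icc]
  have : (((⌊C⌋ + 1 - -⌊C⌋).toNat : ℕ) : ℝ) = ((⌊C⌋ + 1 - -⌊C⌋ : ℤ) : ℝ) := by
    have h1 : ((⌊C⌋ + 1 - -⌊C⌋).toNat : ℤ) = ⌊C⌋ + 1 - -⌊C⌋ := Int.toNat_of_nonneg (by omega)
    exact_mod_cast h1
  rw [this]
  push_cast
  have := Int.floor_le C
  linarith

lemma mem_Icc_floor {C : ℝ} {c : ℤ} (h : |(c : ℝ)| ≤ C) : c ∈ (Icc (-⌊C⌋) ⌊C⌋ : Finset ℤ) := by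
  rw [abs_le] at h
  rw [mem_Icc]
  have h2 : c ≤ ⌊C⌋ := Int.le_floor.2 h.2
  have h1 : -c ≤ ⌊C⌋ := Int.le_floor.2 (by push_cast; linarith)
  omega

/-- the number of the points with a linear relation -/
lemma card_sp (hl : 1 ≤ l) (hx : 0 < x0) (hy : 0 < y0) (hM : 0 < M0) (hN : 0 < N0) {ρ : ℝ}
    (hρ0 : 0 ≤ ρ) (hlM : l * M0 < y0 ^ 3) (hK : CK l x0 y0 M0 N0 ρ * h < x0 ^ 4)
    (T : Finset (ℕ × ℕ × ℕ × ℕ))
    (hT : ∀ u ∈ T, Dat l x0 y0 M0 N0 h u ∧ Sp l x0 y0 M0 N0 ρ u) :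
    (T.card : ℝ) ≤ 4 * ((∏ j, (2 * CC l x0 y0 M0 N0 ρ j + 1)) *
      ((2 * CK l x0 y0 M0 N0 ρ + 1) * (l * x0))) := by
  classical
  have hex : ∀ u : ℕ × ℕ × ℕ × ℕ, ∃ ck : (Fin 4 → ℤ) × ℤ, u ∈ T →
      ck.1 ≠ 0 ∧ (∀ j, |(ck.1 j : ℝ)| ≤ CC l x0 y0 M0 N0 ρ j) ∧
      |(ck.2 : ℝ)| ≤ CK l x0 y0 M0 N0 ρ ∧
      ck.1 0 * u.2.2.2 ^ 4 + ck.1 1 * u.2.1 * u.2.2.2 ^ 3 + ck.1 2 * u.2.1 ^ 3 * u.2.2.2 +
        ck.1 3 * u.2.1 ^ 4 = ck.2 * h := by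
    intro u
    by_cases hu : u ∈ T
    · obtain ⟨hd, c, hc0, hcb, hlin⟩ := hT u hu
      obtain ⟨k, hk, he⟩ := quot hl hx hy hM hN hρ0 hd hlin hcb
      exact ⟨(c, k), fun _ => ⟨hc0, hcb, hk, he⟩⟩
    · exact ⟨(0, 0), fun h => absurd h hu⟩
  choose f hf using hex
  set S : Finset (((Fin 4 → ℤ) × ℤ) × ℕ) :=
    (Fintype.piFinset (fun j => Icc (-⌊CC l x0 y0 M0 N0 ρ j⌋) ⌊CC l x0 y0 M0 N0 ρ j⌋) ×ˢ
      Icc (-⌊CK l x0 y0 M0 N0 ρ⌋) ⌊CK l x0 y0 M0 N0 ρ⌋) ×ˢ Icc 1 ⌊l * x0⌋₊ with hS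
  have hcard : T.card ≤ 4 * S.card := by
    apply card_le_mul_card_image_of_maps_to (f := fun u => (f u, u.2.1))
    · intro u hu
      obtain ⟨h1, h2, h3, h4⟩ := hf u hu
      have hd := (hT u hu).1
      rw [hS, mem_product, mem_product]
      refine ⟨⟨?_, mem_Icc_floor h3⟩, ?_⟩
      · rw [Fintype.mem_piFinset]
        exact fun j => mem_Icc_floor (h2 j)
      · rw [mem_Icc]
        constructor
        · have : (0 : ℝ) < u.2.1 := hx.trans_le hd.x1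
          exact_mod_cast this
        · exact Nat.le_floor hd.x2
    · intro b hb
      rcases (T.filter fun u => (f u, u.2.1) = b).eq_empty_or_nonempty with h0 | ⟨u0, hu0⟩
      · rw [h0]; simp
      · have hb0 := (mem_filter.1 hu0).2
        have hu0T := (mem_filter.1 hu0).1
        obtain ⟨h1, h2, h3, h4⟩ := hf u0 hu0T
        apply fiber hl hx hy hlM hK _ b.1.1 _ b.1.2 _ b.2
        · intro u hu
          rw [mem_filter] at hu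
          obtain ⟨g1, g2, g3, g4⟩ := hf u hu.1
          refine ⟨(hT u hu.1).1, ?_, ?_⟩
          · rw [← hu.2]
          · rw [← hu.2]; exact g4
        · rw [← hb0]; exact h1
        · rw [← hb0]; exact h3
  have hSc : (S.card : ℝ) ≤ (∏ j, (2 * CC l x0 y0 M0 N0 ρ j + 1)) *
      (2 * CK l x0 y0 M0 N0 ρ + 1) * (l * x0) := by
    rw [hS, card_product, card_product, Fintype.card_piFinset]
    push_cast
    have a1 : ∏ j, ((Icc (-⌊CC l x0 y0 M0 N0 ρ j⌋) ⌊CC l x0 y0 M0 N0 ρ j⌋ : Finset ℤ).card : ℝ) ≤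
        ∏ j, (2 * CC l x0 y0 M0 N0 ρ j + 1) :=
      prod_le_prod (fun j _ => Nat.cast_nonneg _)
        (fun j _ => card_Icc_floor _ (CC_nonneg hx hy hM hN hl hρ0 j))
    have a2 := card_Icc_floor _ (CK_nonneg (x0 := x0) (y0 := y0) hM hN hl hρ0)
    have a3 : ((Icc 1 ⌊l * x0⌋₊).card : ℝ) ≤ l * x0 := by
      rw [Nat.card_Icc, Nat.add_sub_cancel]
      exact Nat.floor_le (by positivity)
    have p1 : 0 ≤ ∏ j, (2 * CC l x0 y0 M0 N0 ρ j + 1) :=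
      prod_nonneg fun j _ => by
        have := CC_nonneg hx hy hM hN hl hρ0 j
        linarith
    have p2 : 0 ≤ 2 * CK l x0 y0 M0 N0 ρ + 1 := by
      have := CK_nonneg (x0 := x0) (y0 := y0) hM hN hl hρ0
      linarith
    exact mul_le_mul (mul_le_mul a1 a2 (Nat.cast_nonneg _) p1) a3 (Nat.cast_nonneg _)
      (mul_nonneg p1 p2)
  calc (T.card : ℝ) ≤ 4 * S.card := by exact_mod_cast hcard
    _ ≤ 4 * ((∏ j, (2 * CC l x0 y0 M0 N0 ρ j + 1)) *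
      (2 * CK l x0 y0 M0 N0 ρ + 1) * (l * x0)) := by linarith
    _ = _ := by ring

/-- the number of all points -/
theorem card_all (hl : 1 ≤ l) (hx : 0 < x0) (hy : 0 < y0) (hM : 0 < M0) (hN : 0 < N0) {ρ : ℝ}
    (hρ0 : 0 < ρ) (hρ1 : ρ ≤ 1) (hρ : (h : ℝ) ≤ ρ ^ 2 * (N0 * y0 ^ 3))
    (hD : 240 * l ^ 28 * (M0 * N0 * x0 * y0) ^ 2 * ρ ^ 5 < 1)
    (hlM : l * M0 < y0 ^ 3) (hh : h * l ^ 3 * y0 < 3 * M0 * x0 ^ 2)
    (hK : CK l x0 y0 M0 N0 ρ * h < x0 ^ 4)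
    (T : Finset (ℕ × ℕ × ℕ × ℕ)) (hT : ∀ u ∈ T, Dat l x0 y0 M0 N0 h u) :
    (T.card : ℝ) ≤ 2 * (l ^ 4 / ρ + 1) + 4 * ((∏ j, (2 * CC l x0 y0 M0 N0 ρ j + 1)) *
      ((2 * CK l x0 y0 M0 N0 ρ + 1) * (l * x0))) := by
  classical
  have hs := card_filter_add_card_filter_not (s := T) (fun u => Sp l x0 y0 M0 N0 ρ u)
  have h1 := card_sp hl hx hy hM hN hρ0.le hlM hK (T.filter (fun u => Sp l x0 y0 M0 N0 ρ u))
    (fun u hu => ⟨hT u (mem_filter.1 hu).1, (mem_filter.1 hu).2⟩)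
  have h2 : (T.filter (fun u => ¬ Sp l x0 y0 M0 N0 ρ u)).card ≤
      2 * (range (⌊l ^ 4 / ρ⌋₊ + 1)).card := by
    apply card_le_mul_card_image_of_maps_to (f := fun u => ⌊nt x0 y0 u / ρ⌋₊)
    · intro u hu
      have hd := hT u (mem_filter.1 hu).1
      have ha := arc_of hl hx hy hM hN hρ hd
      rw [mem_range, Nat.lt_succ_iff]
      apply Nat.floor_le_floor
      exact div_le_div_of_nonneg_right ha.t1 hρ0.le
    · intro b hb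
      by_contra hcon
      push Not at hcon
      obtain ⟨p, hp, q, hq, r, hr, hpq, hpr, hqr⟩ := two_lt_card.1 hcon
      rw [mem_filter, mem_filter] at hp hq hr
      have dp := hT p hp.1.1
      have dq := hT q hq.1.1
      have dr := hT r hr.1.1
      have near : ∀ u v : ℕ × ℕ × ℕ × ℕ, Dat l x0 y0 M0 N0 h u → Dat l x0 y0 M0 N0 h v →
          ⌊nt x0 y0 u / ρ⌋₊ = b → ⌊nt x0 y0 v / ρ⌋₊ = b → |nt x0 y0 u - nt x0 y0 v| ≤ ρ := by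
        intro u v hu hv eu ev
        have au := (arc_of hl hx hy hM hN hρ hu).t0
        have av := (arc_of hl hx hy hM hN hρ hv).t0
        have u1 := Nat.floor_le (div_nonneg au hρ0.le)
        have v1 := Nat.floor_le (div_nonneg av hρ0.le)
        have u2 := Nat.lt_floor_add_one (nt x0 y0 u / ρ)
        have v2 := Nat.lt_floor_add_one (nt x0 y0 v / ρ)
        rw [eu] at u1 u2
        rw [ev] at v1 v2
        rw [le_div_iff₀ hρ0] at u1 v1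
        rw [div_lt_iff₀ hρ0] at u2 v2
        rw [abs_le]
        constructor <;> nlinarith
      have d1 := near q p dq dp hq.2 hp.2
      have d2 := near r p dr dp hr.2 hp.2
      apply hp.1.2
      refine ⟨cr p q r, cr_ne hx hy hM hN hl hlM hh dp dq dr (Ne.symm hpq) (Ne.symm hpr)
        (Ne.symm hqr), fun j => ?_, ?_⟩
      · exact cr_le hl hx hy hM hN hρ0.le hρ1 hρ dp dq dr d1 d2 j
      · apply lin_zero hl hx hy hM hN hρ0.le hρ1 hρ hD dp dq dr dp d1 d2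
        rw [sub_self, abs_zero]
        exact hρ0.le
  rw [card_range] at h2
  have h3 : ((T.filter (fun u => ¬ Sp l x0 y0 M0 N0 ρ u)).card : ℝ) ≤ 2 * (l ^ 4 / ρ + 1) := by
    have h4 : ((T.filter (fun u => ¬ Sp l x0 y0 M0 N0 ρ u)).card : ℝ) ≤
        2 * ((⌊l ^ 4 / ρ⌋₊ : ℝ) + 1) := by exact_mod_cast h2
    have h5 := Nat.floor_le (a := l ^ 4 / ρ) (by positivity)
    linarith
  have h4 : (T.card : ℝ) = ((T.filter (fun u => Sp l x0 y0 M0 N0 ρ u)).card : ℝ) +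
      ((T.filter (fun u => ¬ Sp l x0 y0 M0 N0 ρ u)).card : ℝ) := by exact_mod_cast hs.symm
  rw [h4]
  linarith

end Pool.Agent.H541.SM
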