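import Mathlib
import Pool.Agent.H541.SM.Count
import Pool.Graph.R_seed8.H785R2.ABC.Basics
import Pool.Graph.R_seed8.H785R2.ABC.Bridge

/-!
# Cells of triples `h + M x ^ 3 = M' y ^ 3`
-/

namespace Pool.Agent.H541.SM

open Finset Pool.Agent.H785R2.ABC

/-- all the conditions in terms of one large parameter `Q` -/
theorem card_Q (Q x0 y0 M0 N0 : ℝ) (hQ : ∀ n : ℕ, n ≤ 2000 → (2 : ℝ) ^ n ≤ Q) (h : ℕ) (hh : (h : ℝ) ≤ Q ^ 51)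
    (hx1 : Q ^ 2498 ≤ x0) (hx2 : x0 ≤ Q ^ 2501) (hy1 : Q ^ 2498 ≤ y0) (hy2 : y0 ≤ Q ^ 2501)
    (hM1 : Q ^ 2496 ≤ M0) (hM2 : M0 ≤ Q ^ 2503) (hN1 : Q ^ 2496 ≤ N0) (hN2 : N0 ≤ Q ^ 2503)
    (hNy : Q ^ 9999 ≤ N0 * y0 ^ 3)
    (T : Finset (ℕ × ℕ × ℕ × ℕ)) (hT : ∀ u ∈ T, Dat (2 ^ 34) x0 y0 M0 N0 h u) :
    (T.card : ℝ) ≤ Q ^ 4902 := by
  have hQ2 : (2 : ℝ) ≤ Q := by simpa using hQ 1 (by norm_num)
  have hQ1 : (1 : ℝ) ≤ Q := by linarith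
  have hQ0 : (0 : ℝ) < Q := by linarith
  have hx : 0 < x0 := lt_of_lt_of_le (by positivity) hx1
  have hy : 0 < y0 := lt_of_lt_of_le (by positivity) hy1
  have hM : 0 < M0 := lt_of_lt_of_le (by positivity) hM1
  have hN : 0 < N0 := lt_of_lt_of_le (by positivity) hN1
  have hpow : ∀ a b : ℕ, a ≤ b → Q ^ a ≤ Q ^ b := fun a b hab => pow_le_pow_right₀ hQ1 hab
  have hpowlt : ∀ a b : ℕ, a < b → Q ^ a < Q ^ b := fun a b hab =>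
    pow_lt_pow_right₀ (by linarith) hab
  -- constants
  have k1 : (240 : ℝ) * (2 ^ 34) ^ 28 ≤ Q := by
    refine le_trans ?_ (hQ 960 (by norm_num))
    calc (240 : ℝ) * (2 ^ 34) ^ 28 ≤ 2 ^ 8 * (2 ^ 34) ^ 28 := by gcongr; norm_num
      _ = 2 ^ 960 := by rw [← pow_mul, ← pow_add]
  have k2 : (2 : ℝ) * 2 ^ 34 * (174 * (2 ^ 34) ^ 34) ≤ Q := by
    refine le_trans ?_ (hQ (1 + 34 + (8 + 34 * 34)) (by norm_num))
    calc (2 : ℝ) * 2 ^ 34 * (174 * (2 ^ 34) ^ 34) ≤ 2 * 2 ^ 34 * (2 ^ 8 * (2 ^ 34) ^ 34) := by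
          gcongr; norm_num
      _ = 2 ^ 1 * 2 ^ 34 * (2 ^ 8 * 2 ^ (34 * 34)) := by rw [← pow_mul, pow_one]
      _ = 2 ^ (1 + 34 + (8 + 34 * 34)) := by rw [← pow_add, ← pow_add, ← pow_add]
  have k3 : (174 : ℝ) * (2 ^ 34) ^ 34 ≤ Q := by
    refine le_trans ?_ k2
    have : (0 : ℝ) ≤ 174 * (2 ^ 34) ^ 34 := by positivity
    nlinarith
  have k4 : (2 : ℝ) ^ 34 ≤ Q := hQ 34 (by norm_num)
  have k5 : ((2 : ℝ) ^ 34) ^ 3 ≤ Q := by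
    rw [← pow_mul]
    exact hQ _ (by norm_num)
  have k6 : (4 : ℝ) * (2 ^ 34) ^ 4 ≤ Q := by
    refine le_trans ?_ (hQ 138 (by norm_num))
    norm_num
  have k7 : (8 : ℝ) ≤ Q := le_trans (by norm_num) (hQ 3 (by norm_num))
  set ρ : ℝ := 1 / Q ^ 4900 with hρ
  have hρ0 : 0 < ρ := by positivity
  have hρ1 : ρ ≤ 1 := by
    rw [hρ, div_le_one (by positivity)]
    exact one_le_pow₀ hQ1
  -- the basic products
  have P1 : M0 * N0 * x0 * y0 ≤ Q ^ 10008 := by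
    calc M0 * N0 * x0 * y0 ≤ Q ^ 2503 * Q ^ 2503 * Q ^ 2501 * Q ^ 2501 := by gcongr
      _ = Q ^ 10008 := by rw [← pow_add, ← pow_add, ← pow_add]
  have P2 : (M0 * N0 * x0 * y0) ^ 2 ≤ Q ^ 20016 := by
    calc (M0 * N0 * x0 * y0) ^ 2 ≤ (Q ^ 10008) ^ 2 := by gcongr
      _ = Q ^ 20016 := by rw [← pow_mul]
  have r3 : ρ ^ 3 = 1 / Q ^ 14700 := by rw [hρ, div_pow, one_pow, ← pow_mul]
  have r5 : ρ ^ 5 = 1 / Q ^ 24500 := by rw [hρ, div_pow, one_pow, ← pow_mul]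
  have r2 : ρ ^ 2 = 1 / Q ^ 9800 := by rw [hρ, div_pow, one_pow, ← pow_mul]
  have hA : ∀ j, Q ^ 4994 ≤ A x0 y0 M0 N0 j := by
    intro j
    have e : Q ^ 4994 = Q ^ 2496 * Q ^ 2498 := by rw [← pow_add]
    fin_cases j <;>
      simp only [A, Fin.zero_eta, Fin.mk_one, Fin.reduceFinMk, Matrix.cons_val] <;>
      (rw [e]; gcongr)
  have hCC : ∀ j, CC (2 ^ 34) x0 y0 M0 N0 ρ j ≤ Q ^ 323 := by
    intro j
    unfold CC
    have hAj := hA j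
    have hAp : 0 < A x0 y0 M0 N0 j := lt_of_lt_of_le (by positivity) hAj
    rw [div_le_iff₀ hAp, r3]
    calc 174 * (2 ^ 34) ^ 34 * (M0 * N0 * x0 * y0) ^ 2 * (1 / Q ^ 14700) ≤
        Q * Q ^ 20016 * (1 / Q ^ 14700) := by gcongr
      _ = Q ^ 5317 := by
          rw [← pow_succ', mul_one_div, div_eq_iff (by positivity), ← pow_add]
      _ = Q ^ 323 * Q ^ 4994 := by rw [← pow_add]
      _ ≤ Q ^ 323 * A x0 y0 M0 N0 j := by gcongr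
  have hCK : CK (2 ^ 34) x0 y0 M0 N0 ρ ≤ Q ^ 311 := by
    unfold CK
    have e : 2 * 2 ^ 34 * (174 * (2 ^ 34) ^ 34 * (M0 * N0 * x0 * y0) ^ 2 * ρ ^ 3) / (M0 * N0) =
        (2 * 2 ^ 34 * (174 * (2 ^ 34) ^ 34)) * (M0 * N0 * x0 ^ 2 * y0 ^ 2) * ρ ^ 3 := by
      field_simp
    rw [e, r3]
    calc (2 * 2 ^ 34 * (174 * (2 ^ 34) ^ 34)) * (M0 * N0 * x0 ^ 2 * y0 ^ 2) * (1 / Q ^ 14700) ≤
        Q * (Q ^ 2503 * Q ^ 2503 * (Q ^ 2501) ^ 2 * (Q ^ 2501) ^ 2) * (1 / Q ^ 14700) := by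
          gcongr
      _ = Q ^ 311 := by
          rw [← pow_mul, ← pow_add, ← pow_add, ← pow_add, ← pow_succ', mul_one_div,
            div_eq_iff (by positivity), ← pow_add]
  have hCK0 := CK_nonneg (l := (2 : ℝ) ^ 34) (x0 := x0) (y0 := y0) hM hN (by norm_num) hρ0.le
  have main := card_all (l := (2 : ℝ) ^ 34) (h := h) (by norm_num) hx hy hM hN hρ0 hρ1
    (by
      rw [r2]
      calc (h : ℝ) ≤ Q ^ 51 := hh
        _ ≤ Q ^ 199 := hpow _ _ (by norm_num)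
        _ = 1 / Q ^ 9800 * Q ^ 9999 := by
            rw [one_div, inv_mul_eq_div, eq_div_iff (by positivity), ← pow_add]
        _ ≤ 1 / Q ^ 9800 * (N0 * y0 ^ 3) := by gcongr)
    (by
      rw [r5]
      calc 240 * (2 ^ 34) ^ 28 * (M0 * N0 * x0 * y0) ^ 2 * (1 / Q ^ 24500) ≤
          Q * Q ^ 20016 * (1 / Q ^ 24500) := by gcongr
        _ = Q ^ 20017 / Q ^ 24500 := by rw [← pow_succ', mul_one_div]
        _ < 1 := by
            rw [div_lt_one (by positivity)]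
            exact hpowlt _ _ (by norm_num))
    (by
      calc 2 ^ 34 * M0 ≤ Q * Q ^ 2503 := by gcongr
        _ = Q ^ 2504 := by rw [← pow_succ']
        _ < Q ^ 7494 := hpowlt _ _ (by norm_num)
        _ = (Q ^ 2498) ^ 3 := by rw [← pow_mul]
        _ ≤ y0 ^ 3 := by gcongr)
    (by
      calc (h : ℝ) * (2 ^ 34) ^ 3 * y0 ≤ Q ^ 51 * Q * Q ^ 2501 := by gcongr
        _ = Q ^ 2553 := by rw [← pow_succ, ← pow_add]
        _ < Q ^ 7492 := hpowlt _ _ (by norm_num)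
        _ = 1 * (Q ^ 2496 * (Q ^ 2498) ^ 2) := by rw [← pow_mul, ← pow_add, one_mul]
        _ ≤ 3 * (M0 * x0 ^ 2) := by gcongr; norm_num
        _ = 3 * M0 * x0 ^ 2 := by ring)
    (by
      calc CK (2 ^ 34) x0 y0 M0 N0 ρ * h ≤ Q ^ 311 * Q ^ 51 := by gcongr
        _ = Q ^ 362 := by rw [← pow_add]
        _ < Q ^ 9992 := hpowlt _ _ (by norm_num)
        _ = (Q ^ 2498) ^ 4 := by rw [← pow_mul]
        _ ≤ x0 ^ 4 := by gcongr)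
    T hT
  refine main.trans ?_
  have t1 : 2 * (((2 : ℝ) ^ 34) ^ 4 / ρ + 1) ≤ Q ^ 4901 := by
    rw [hρ, div_div_eq_mul_div, div_one]
    have : (1 : ℝ) ≤ (2 ^ 34) ^ 4 * Q ^ 4900 := by
      have a : (1 : ℝ) ≤ (2 ^ 34) ^ 4 := by norm_num
      have b : (1 : ℝ) ≤ Q ^ 4900 := one_le_pow₀ hQ1
      nlinarith
    calc 2 * (((2 : ℝ) ^ 34) ^ 4 * Q ^ 4900 + 1) ≤ (4 * (2 ^ 34) ^ 4) * Q ^ 4900 := by linarith
      _ ≤ Q * Q ^ 4900 := by gcongr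
      _ = Q ^ 4901 := by rw [← pow_succ']
  have t2 : ∏ j, (2 * CC (2 ^ 34) x0 y0 M0 N0 ρ j + 1) ≤ Q ^ 1296 := by
    have h1 : ∀ j, 2 * CC (2 ^ 34) x0 y0 M0 N0 ρ j + 1 ≤ Q ^ 324 := by
      intro j
      have a := hCC j
      have b : (1 : ℝ) ≤ Q ^ 323 := one_le_pow₀ hQ1
      calc 2 * CC (2 ^ 34) x0 y0 M0 N0 ρ j + 1 ≤ 8 * Q ^ 323 := by linarith
        _ ≤ Q * Q ^ 323 := by gcongr
        _ = Q ^ 324 := by rw [← pow_succ']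
    calc ∏ j, (2 * CC (2 ^ 34) x0 y0 M0 N0 ρ j + 1) ≤ ∏ _j : Fin 4, Q ^ 324 := by
          apply prod_le_prod
          · intro j _
            have := CC_nonneg (l := (2 : ℝ) ^ 34) hx hy hM hN (by norm_num) hρ0.le j
            linarith
          · exact fun j _ => h1 j
      _ = Q ^ 1296 := by rw [prod_const, card_univ, Fintype.card_fin, ← pow_mul]
  have t3 : 2 * CK (2 ^ 34) x0 y0 M0 N0 ρ + 1 ≤ Q ^ 312 := by
    have b : (1 : ℝ) ≤ Q ^ 311 := one_le_pow₀ hQ1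
    calc 2 * CK (2 ^ 34) x0 y0 M0 N0 ρ + 1 ≤ 8 * Q ^ 311 := by linarith
      _ ≤ Q * Q ^ 311 := by gcongr
      _ = Q ^ 312 := by rw [← pow_succ']
  have t4 : 2 ^ 34 * x0 ≤ Q ^ 2502 := by
    calc 2 ^ 34 * x0 ≤ Q * Q ^ 2501 := by gcongr
      _ = Q ^ 2502 := by rw [← pow_succ']
  have t5 : 4 * ((∏ j, (2 * CC (2 ^ 34) x0 y0 M0 N0 ρ j + 1)) *
      ((2 * CK (2 ^ 34) x0 y0 M0 N0 ρ + 1) * (2 ^ 34 * x0))) ≤ Q ^ 4111 := by
    calc 4 * ((∏ j, (2 * CC (2 ^ 34) x0 y0 M0 N0 ρ j + 1)) *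
      ((2 * CK (2 ^ 34) x0 y0 M0 N0 ρ + 1) * (2 ^ 34 * x0))) ≤
        Q * (Q ^ 1296 * (Q ^ 312 * Q ^ 2502)) := by
          have n1 : 0 ≤ ∏ j, (2 * CC (2 ^ 34) x0 y0 M0 N0 ρ j + 1) := prod_nonneg fun j _ => by
            have := CC_nonneg (l := (2 : ℝ) ^ 34) hx hy hM hN (by norm_num) hρ0.le j
            linarith
          have n2 : 0 ≤ 2 * CK (2 ^ 34) x0 y0 M0 N0 ρ + 1 := by linarith
          have n3 : (4 : ℝ) ≤ Q := by linarith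
          gcongr
      _ = Q ^ 4111 := by rw [← pow_add, ← pow_add, ← pow_succ']
  calc _ ≤ Q ^ 4901 + Q ^ 4111 := add_le_add t1 t5
    _ ≤ Q ^ 4901 + Q ^ 4901 := by gcongr; norm_num
    _ = 2 * Q ^ 4901 := by ring
    _ ≤ Q * Q ^ 4901 := by gcongr
    _ = Q ^ 4902 := by rw [← pow_succ']

end Pool.Agent.H541.SM
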