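import Mathlib
import Pool.Agent.H541.SM.TypeCell

/-!
# Cells near the configuration `h + M x ^ 3 = M' y ^ 3`, all variables about `c ^ (1 / 4)`
-/

namespace Pool.Agent.H541.SM

open Finset Pool.Agent.H785R2.ABC

/-- the class of exponent three -/
def c3 : Fin (16 + 1) := ⟨2, by norm_num⟩

/-- the quadruple of a triple -/
def quad (t : ℕ × ℕ × ℕ) : ℕ × ℕ × ℕ × ℕ :=
  (part 16 t.2.1 {c3}ᶜ, rd 16 t.2.1 {c3}, part 16 t.2.2 {c3}ᶜ, rd 16 t.2.2 {c3})

lemma quad_eq {n : ℕ} (hn : 1 ≤ n) : part 16 n {c3}ᶜ * rd 16 n {c3} ^ 3 = n := by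
  have h1 := basics.part_mul 16 n {c3} hn
  have h2 := basics.part_single 16 n c3 (by simp [c3])
  have h3 : (c3 : Fin (16 + 1)).val + 1 = 3 := rfl
  rw [h3] at h2
  rw [← h2, mul_comm]
  exact h1

theorem cellA : ∃ c0 : ℝ, ∀ T : Finset (ℕ × ℕ × ℕ), Cell 16 T → ∀ s ∈ T, c0 ≤ (s.2.2 : ℝ) →
    |expV 16 s 1 c3 - 1 / 4| ≤ 1 / 10000 → |expV 16 s 2 c3 - 1 / 4| ≤ 1 / 10000 →
    (∀ t ∈ T, (t.1 : ℝ) ≤ (t.2.2 : ℝ) ^ (1 / 200 : ℝ)) →
    (T.card : ℝ) ≤ (s.2.2 : ℝ) ^ (4953 / 10000 : ℝ) := by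
  classical
  refine ⟨((2 : ℝ) ^ 2000) ^ 10000, ?_⟩
  intro T hT s hs hc0 hv1 hv2 ha
  set X : ℝ := (s.2.2 : ℝ) with hX
  set Q : ℝ := X ^ (1 / 10000 : ℝ) with hQdef
  have habc := hT.abc s hs
  have hX2 : (2 : ℝ) ≤ X := by
    have := Bridge.two_le_c habc
    rw [hX]; exact_mod_cast this
  have hX0 : 0 < X := lt_of_lt_of_le two_pos hX2
  have hQ0 : 0 < Q := Real.rpow_pos_of_pos hX0 _
  have hQbig : (2 : ℝ) ^ 2000 ≤ Q := by
    have h1 : ((2 : ℝ) ^ 2000) = (((2 : ℝ) ^ 2000) ^ 10000) ^ (1 / 10000 : ℝ) := by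
      rw [← Real.rpow_natCast ((2 : ℝ) ^ 2000) 10000, ← Real.rpow_mul (by positivity)]
      norm_num
    rw [h1]
    exact Real.rpow_le_rpow (by positivity) hc0 (by norm_num)
  have hQ : ∀ n : ℕ, n ≤ 2000 → (2 : ℝ) ^ n ≤ Q := fun n hn =>
    (pow_le_pow_right₀ (by norm_num) hn).trans hQbig
  clear hQbig hc0
  have hQ1 : (1 : ℝ) ≤ Q := by simpa using hQ 0 (by norm_num)
  have hXn : ∀ n : ℕ, X ^ ((n : ℝ) / 10000) = Q ^ n := by
    intro n
    rw [hQdef, ← Real.rpow_natCast, ← Real.rpow_mul hX0.le]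
    congr 1
    ring
  have hXQ : X = Q ^ 10000 := by
    rw [← hXn]
    norm_num
  have hlog : 1 < X := by linarith
  -- the sizes for `s`
  have size : ∀ j : Fin 3, |expV 16 s j c3 - 1 / 4| ≤ 1 / 10000 →
      Q ^ 2499 ≤ (rd 16 (num s j) {c3} : ℝ) ∧ (rd 16 (num s j) {c3} : ℝ) ≤ Q ^ 2501 := by
    intro j hj
    have hpos : (0 : ℝ) < (rd 16 (num s j) {c3} : ℝ) := by
      exact_mod_cast basics.rd_pos 16 (num s j) {c3}
    have h1 : (rd 16 (num s j) {c3} : ℝ) = X ^ expV 16 s j c3 := by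
      rw [expV, Bridge.rpow_log_div hlog hpos]
    rw [abs_le] at hj
    rw [h1, ← hXn, ← hXn]
    constructor
    · apply Real.rpow_le_rpow_of_exponent_le hlog.le
      push_cast
      linarith [hj.1]
    · apply Real.rpow_le_rpow_of_exponent_le hlog.le
      push_cast
      linarith [hj.2]
  obtain ⟨x1, x2⟩ := size 1 hv1
  obtain ⟨y1, y2⟩ := size 2 hv2
  have n1 : num s 1 = s.2.1 := rfl
  have n2 : num s 2 = s.2.2 := rfl
  rw [n1] at x1 x2
  rw [n2] at y1 y2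
  obtain ⟨ha0, hb0, hcc0, hab, hco1, hco2, hco3⟩ := habc
  have hle := hT.le s hs
  have eb : (part 16 s.2.1 {c3}ᶜ : ℝ) * (rd 16 s.2.1 {c3} : ℝ) ^ 3 = s.2.1 := by
    exact_mod_cast quad_eq hb0
  have ec : (part 16 s.2.2 {c3}ᶜ : ℝ) * (rd 16 s.2.2 {c3} : ℝ) ^ 3 = s.2.2 := by
    exact_mod_cast quad_eq hcc0
  set xs : ℝ := (rd 16 s.2.1 {c3} : ℝ) with hxs
  set ys : ℝ := (rd 16 s.2.2 {c3} : ℝ) with hys
  set Ms : ℝ := (part 16 s.2.1 {c3}ᶜ : ℝ) with hMs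
  set Ns : ℝ := (part 16 s.2.2 {c3}ᶜ : ℝ) with hNs
  have hxs0 : 0 < xs := lt_of_lt_of_le (by positivity) x1
  have hys0 : 0 < ys := lt_of_lt_of_le (by positivity) y1
  have hb1 : (s.2.1 : ℝ) ≤ X := by
    rw [hX]; exact_mod_cast (by omega : s.2.1 ≤ s.2.2)
  have hb2 : X ≤ 2 * (s.2.1 : ℝ) := by
    rw [hX]; exact_mod_cast (by omega : s.2.2 ≤ 2 * s.2.1)
  have two18 : (2 : ℝ) * 2 ^ 17 ≤ Q := by
    have := hQ 18 (by norm_num)
    calc (2 : ℝ) * 2 ^ 17 = 2 ^ 18 := by norm_num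
      _ ≤ Q := this
  have two17 : (2 : ℝ) ^ 17 ≤ Q := hQ 17 (by norm_num)
  have M2 : Ms ≤ Q ^ 2503 := by
    have h1 : Ms * (Q ^ 2499) ^ 3 ≤ Q ^ 2503 * (Q ^ 2499) ^ 3 := by
      calc Ms * (Q ^ 2499) ^ 3 ≤ Ms * xs ^ 3 := by
            have : 0 ≤ Ms := Nat.cast_nonneg _
            gcongr
        _ = (s.2.1 : ℝ) := eb
        _ ≤ Q ^ 10000 := by rw [← hXQ]; exact hb1
        _ = Q ^ 2503 * (Q ^ 2499) ^ 3 := by rw [← pow_mul, ← pow_add]
    exact le_of_mul_le_mul_right h1 (by positivity)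
  have M1 : Q ^ 2496 ≤ Ms / 2 ^ 17 := by
    rw [le_div_iff₀ (by positivity)]
    have h1 : Q ^ 2496 * 2 ^ 17 * (2 * (Q ^ 2501) ^ 3) ≤ Ms * (2 * (Q ^ 2501) ^ 3) := by
      calc Q ^ 2496 * 2 ^ 17 * (2 * (Q ^ 2501) ^ 3) = (2 * 2 ^ 17) * (Q ^ 2496 * (Q ^ 2501) ^ 3) := by
            ring
        _ ≤ Q * (Q ^ 2496 * (Q ^ 2501) ^ 3) := by gcongr
        _ = Q ^ 10000 := by rw [← pow_mul, ← pow_add, ← pow_succ']
        _ = X := hXQ.symm
        _ ≤ 2 * (s.2.1 : ℝ) := hb2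
        _ = 2 * (Ms * xs ^ 3) := by rw [eb]
        _ ≤ 2 * (Ms * (Q ^ 2501) ^ 3) := by
            have : 0 ≤ Ms := Nat.cast_nonneg _
            gcongr
        _ = Ms * (2 * (Q ^ 2501) ^ 3) := by ring
    exact le_of_mul_le_mul_right h1 (by positivity)
  have N2 : Ns ≤ Q ^ 2503 := by
    have h1 : Ns * (Q ^ 2499) ^ 3 ≤ Q ^ 2503 * (Q ^ 2499) ^ 3 := by
      calc Ns * (Q ^ 2499) ^ 3 ≤ Ns * ys ^ 3 := by
            have : 0 ≤ Ns := Nat.cast_nonneg _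
            gcongr
        _ = X := ec
        _ = Q ^ 10000 := hXQ
        _ = Q ^ 2503 * (Q ^ 2499) ^ 3 := by rw [← pow_mul, ← pow_add]
    exact le_of_mul_le_mul_right h1 (by positivity)
  have N1 : Q ^ 2496 ≤ Ns / 2 ^ 17 := by
    rw [le_div_iff₀ (by positivity)]
    have h1 : Q ^ 2496 * 2 ^ 17 * (Q ^ 2501) ^ 3 ≤ Ns * (Q ^ 2501) ^ 3 := by
      calc Q ^ 2496 * 2 ^ 17 * (Q ^ 2501) ^ 3 = (2 ^ 17) * (Q ^ 2496 * (Q ^ 2501) ^ 3) := by
            ring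
        _ ≤ Q * (Q ^ 2496 * (Q ^ 2501) ^ 3) := by gcongr
        _ = Q ^ 10000 := by rw [← pow_mul, ← pow_add, ← pow_succ']
        _ = X := hXQ.symm
        _ = Ns * ys ^ 3 := ec.symm
        _ ≤ Ns * (Q ^ 2501) ^ 3 := by
            have : 0 ≤ Ns := Nat.cast_nonneg _
            gcongr
    exact le_of_mul_le_mul_right h1 (by positivity)
  have two68 : (2 : ℝ) ^ 68 ≤ Q := hQ 68 (by norm_num)
  have NY : Q ^ 9999 ≤ Ns / 2 ^ 17 * (ys / 2 ^ 17) ^ 3 := by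
    have e : Ns / 2 ^ 17 * (ys / 2 ^ 17) ^ 3 = X / 2 ^ 68 := by
      have ecX : Ns * ys ^ 3 = X := ec
      rw [← ecX]; ring
    rw [e, le_div_iff₀ (by positivity), hXQ]
    calc Q ^ 9999 * 2 ^ 68 ≤ Q ^ 9999 * Q := by gcongr
      _ = Q ^ 10000 := by rw [← pow_succ]
  -- the small member
  have hh : ∀ t ∈ T, (t.1 : ℝ) ≤ Q ^ 51 := by
    intro t ht
    have h1 : (t.2.2 : ℝ) ≤ 2 ^ 17 * X := by
      have h2 := hT.part_le t ht s hs 2 univ
      have h3 : 1 ≤ num t 2 := Bridge.num_pos (hT.abc t ht) 2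
      rw [basics.part_univ 16 _ h3, basics.part_univ 16 _ (by rw [n2]; exact hcc0)] at h2
      have h4 : num t 2 = t.2.2 := rfl
      rw [h4, n2] at h2
      rw [hX]
      exact_mod_cast h2
    calc (t.1 : ℝ) ≤ (t.2.2 : ℝ) ^ (1 / 200 : ℝ) := ha t ht
      _ ≤ (2 ^ 17 * X) ^ (1 / 200 : ℝ) :=
          Real.rpow_le_rpow (Nat.cast_nonneg _) h1 (by norm_num)
      _ = ((2 : ℝ) ^ 17) ^ (1 / 200 : ℝ) * X ^ (1 / 200 : ℝ) :=
          Real.mul_rpow (by positivity) hX0.le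
      _ ≤ (2 : ℝ) ^ 17 * Q ^ 50 := by
          have e1 : ((2 : ℝ) ^ 17) ^ (1 / 200 : ℝ) ≤ ((2 : ℝ) ^ 17) ^ (1 : ℝ) :=
            Real.rpow_le_rpow_of_exponent_le (by norm_num) (by norm_num)
          rw [Real.rpow_one] at e1
          have e2 : X ^ (1 / 200 : ℝ) = Q ^ 50 := by
            rw [← hXn]; norm_num
          rw [e2]
          gcongr
      _ ≤ Q * Q ^ 50 := by gcongr
      _ = Q ^ 51 := by rw [← pow_succ']
  -- the points
  have hdat : ∀ t ∈ T, Dat (2 ^ 34) (xs / 2 ^ 17) (ys / 2 ^ 17) (Ms / 2 ^ 17) (Ns / 2 ^ 17) t.1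
      (quad t) := by
    intro t ht
    obtain ⟨ta, tb, tc, tabc, tco1, tco2, tco3⟩ := hT.abc t ht
    have r1 := hT.rd_le t ht s hs 1 {c3}
    have r2 := hT.rd_le s hs t ht 1 {c3}
    have r3 := hT.rd_le t ht s hs 2 {c3}
    have r4 := hT.rd_le s hs t ht 2 {c3}
    have r5 := hT.part_le t ht s hs 1 {c3}ᶜ
    have r6 := hT.part_le s hs t ht 1 {c3}ᶜ
    have r7 := hT.part_le t ht s hs 2 {c3}ᶜ
    have r8 := hT.part_le s hs t ht 2 {c3}ᶜ
    have m1 : num t 1 = t.2.1 := rfl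
    have m2 : num t 2 = t.2.2 := rfl
    rw [m1, n1] at r1 r2 r5 r6
    rw [m2, n2] at r3 r4 r7 r8
    have up : ∀ a b : ℕ, a ≤ 2 ^ (16 + 1) * b → (a : ℝ) ≤ 2 ^ 34 * ((b : ℝ) / 2 ^ 17) := by
      intro a b hab
      have h1 : (a : ℝ) ≤ 2 ^ (16 + 1) * b := by exact_mod_cast hab
      calc (a : ℝ) ≤ 2 ^ (16 + 1) * b := h1
        _ = 2 ^ 34 * ((b : ℝ) / 2 ^ 17) := by ring
    have lo : ∀ a b : ℕ, b ≤ 2 ^ (16 + 1) * a → (b : ℝ) / 2 ^ 17 ≤ a := by
      intro a b hab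
      have h1 : (b : ℝ) ≤ 2 ^ (16 + 1) * a := by exact_mod_cast hab
      rw [div_le_iff₀ (by positivity)]
      calc (b : ℝ) ≤ 2 ^ (16 + 1) * a := h1
        _ = a * 2 ^ 17 := by ring
    refine ⟨?_, ?_, ?_, lo _ _ r6, up _ _ r5, lo _ _ r2, up _ _ r1, lo _ _ r8, up _ _ r7,
      lo _ _ r4, up _ _ r3⟩
    · simp only [quad]
      rw [quad_eq tb, quad_eq tc]
      omega
    · simp only [quad]
      exact Nat.Coprime.coprime_dvd_left (basics.part_dvd 16 _ _ tb)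
        (Nat.Coprime.coprime_dvd_right (basics.part_dvd 16 _ _ tc) tco3)
    · simp only [quad]
      have d1 : rd 16 t.2.1 {c3} ∣ t.2.1 :=
        (dvd_pow_self _ (by norm_num : 3 ≠ 0)).trans (Dvd.intro_left _ (quad_eq tb))
      have d2 : rd 16 t.2.2 {c3} ∣ t.2.2 :=
        (dvd_pow_self _ (by norm_num : 3 ≠ 0)).trans (Dvd.intro_left _ (quad_eq tc))
      exact Nat.Coprime.coprime_dvd_left d1 (Nat.Coprime.coprime_dvd_right d2 tco3)
  have hcard : T.card ≤ ⌊Q ^ 4902⌋₊ * (Icc 1 ⌊Q ^ 51⌋₊).card := by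
    apply card_le_mul_card_image_of_maps_to (f := fun t => t.1)
    · intro t ht
      rw [mem_Icc]
      exact ⟨(hT.abc t ht).1, Nat.le_floor (hh t ht)⟩
    · intro h hh'
      apply Nat.le_floor
      rcases (T.filter fun t => t.1 = h).eq_empty_or_nonempty with h0 | ⟨t0, ht0⟩
      · rw [h0]
        simp only [card_empty, Nat.cast_zero]
        positivity
      · have hinj : Set.InjOn quad ((T.filter fun t => t.1 = h : Finset (ℕ × ℕ × ℕ)) :
            Set (ℕ × ℕ × ℕ)) := by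
          intro t ht t' ht' he
          rw [mem_coe, mem_filter] at ht ht'
          have b1 := quad_eq (hT.abc t ht.1).2.1
          have b2 := quad_eq (hT.abc t' ht'.1).2.1
          have d1 := quad_eq (hT.abc t ht.1).2.2.1
          have d2 := quad_eq (hT.abc t' ht'.1).2.2.1
          simp only [quad, Prod.mk.injEq] at he
          obtain ⟨g1, g2, g3, g4⟩ := he
          rw [g1, g2] at b1
          rw [g3, g4] at d1
          refine Prod.ext (ht.2.trans ht'.2.symm) (Prod.ext (b1.symm.trans b2) (d1.symm.trans d2))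
        have hcq := card_Q Q (xs / 2 ^ 17) (ys / 2 ^ 17) (Ms / 2 ^ 17) (Ns / 2 ^ 17) hQ h
          (by
            have := mem_filter.1 ht0
            rw [← this.2]
            exact hh t0 this.1)
          (by
            rw [le_div_iff₀ (by positivity)]
            calc Q ^ 2498 * 2 ^ 17 ≤ Q ^ 2498 * Q := by gcongr
              _ = Q ^ 2499 := by rw [← pow_succ]
              _ ≤ xs := x1)
          ((div_le_self hxs0.le (by norm_num)).trans x2)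
          (by
            rw [le_div_iff₀ (by positivity)]
            calc Q ^ 2498 * 2 ^ 17 ≤ Q ^ 2498 * Q := by gcongr
              _ = Q ^ 2499 := by rw [← pow_succ]
              _ ≤ ys := y1)
          ((div_le_self hys0.le (by norm_num)).trans y2)
          M1 ((div_le_self (Nat.cast_nonneg _) (by norm_num)).trans M2)
          N1 ((div_le_self (Nat.cast_nonneg _) (by norm_num)).trans N2) NY
          ((T.filter fun t => t.1 = h).image quad)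
          (by
            intro u hu
            rw [mem_image] at hu
            obtain ⟨t, ht, rfl⟩ := hu
            rw [mem_filter] at ht
            have := hdat t ht.1
            rw [ht.2] at this
            exact this)
        rwa [card_image_of_injOn hinj] at hcq
  have e4953 : X ^ (4953 / 10000 : ℝ) = Q ^ 4953 := by
    rw [← hXn]; norm_num
  rw [e4953]
  have hc1 : (T.card : ℝ) ≤ (⌊Q ^ 4902⌋₊ : ℝ) * ((Icc 1 ⌊Q ^ 51⌋₊).card : ℝ) := by
    exact_mod_cast hcard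
  rw [Nat.card_Icc, Nat.add_sub_cancel] at hc1
  calc (T.card : ℝ) ≤ (⌊Q ^ 4902⌋₊ : ℝ) * (⌊Q ^ 51⌋₊ : ℝ) := hc1
    _ ≤ Q ^ 4902 * Q ^ 51 := by
        gcongr
        · exact Nat.floor_le (by positivity)
        · exact Nat.floor_le (by positivity)
    _ = Q ^ 4953 := by rw [← pow_add]

end Pool.Agent.H541.SM
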