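import Mathlib
import Pool.Agent.H541.SM.TypeCell2
import Pool.Agent.H541.SM.Compact
import Pool.Agent.H541.SM.Exact3
import Pool.Graph.R_seed8.H785R2.ABC.A12
import Pool.Graph.R_seed8.H785R2.ABC.A345
import Pool.Graph.R_seed8.H785R2.ABC.B
import Pool.Graph.R_seed8.H785R2.ABC.C
import Pool.Graph.R_seed8.H785R2.ABC.D
import Pool.Graph.R_seed8.H785R2.ABC.M1
import Pool.Graph.R_seed8.H785R2.ABC.Mcell
import Pool.Graph.R_seed8.H785R2.ABC.Final
import Pool.Graph.R_seed8.H705R2.ABC.PolyPf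

/-!
# The number of abc-triples with a tiny member: a power saving
-/

namespace Pool.Agent.H541.SM

open Finset Pool.Agent.H785R2.ABC Pool.Agent.H785R2.ABC.Fin1

theorem mcell : StmtMcell :=
  stmtMcell_of basics (stmtA4_of (stmtA3_of stmtA2))
    (stmtM1_of basics (stmtA4_of (stmtA3_of stmtA2)) (stmtD_of (stmtB_of stmtA1) stmtC))

/-- the bound for cells, with exponents -/
theorem mbound (K : ℕ) (ε : ℝ) (hε : 0 < ε) : ∃ D : ℝ, 0 < D ∧
    ∀ T : Finset (ℕ × ℕ × ℕ), Cell K T → ∀ s ∈ T, ∀ b : Par K, b.Valid →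
    (T.card : ℝ) ≤ D * (s.2.2 : ℝ) ^ ε *
      ((s.2.2 : ℝ) ^ b.f1 (expV K s) + (s.2.2 : ℝ) ^ b.f2 (expV K s) (expW K s)) := by
  obtain ⟨D, hD, H⟩ := mcell K ε hε
  refine ⟨D, hD, ?_⟩
  intro T hT s hs b hb
  obtain ⟨h1, h2, h3, h4, h5, h6, h7⟩ := hb
  have h := hT.abc s hs
  have hc2 : (2 : ℝ) ≤ s.2.2 := by exact_mod_cast Bridge.two_le_c h
  have hc : (0 : ℝ) < s.2.2 := by linarith
  refine (H T hT s hs b.p b.q b.r h1 h2 h3 b.k h4 h5 b.Sp b.Sq b.F h6 h7).trans (le_of_eq ?_)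
  rw [mul_assoc (D * (s.2.2 : ℝ) ^ ε)]
  congr 1
  unfold Par.f2 Par.f1
  rw [Bridge.rd_eq basics K h, Bridge.rd_eq basics K h, Bridge.rd_eq basics K h,
    Bridge.part_eq basics K h, Bridge.part_eq basics K h,
    Bridge.part_eq basics K h, Bridge.th_eq basics K h, ← Real.rpow_add hc, ← Real.rpow_add hc,
    ← Real.rpow_add hc, ← Real.rpow_mul hc.le, ← Real.rpow_add hc, ← Real.rpow_sub hc, mul_add,
    mul_one, ← Real.rpow_add hc]
  congr 2
  ring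

lemma poly_mono {K : ℕ} {l l' d d' : ℝ} {v w : Fin 3 → Fin (K + 1) → ℝ} (h : Poly K l d v w)
    (hl : l ≤ l') (hd : d ≤ d') : Poly K l' d' v w :=
  ⟨h.v_nonneg, h.w_eq, h.w_last, h.w0, h.w1, by linarith [h.w1'], h.w2, by linarith [h.w2'],
    h.tot.trans hl⟩

/-- the bound for all cells of triples with a tiny member -/
theorem cell_bound (lam : ℝ) (h0 : 0 < lam) (h2 : lam < 2) (hG : Adm lam) :
    ∃ (K : ℕ) (κ D c0 : ℝ), 0 < κ ∧ κ ≤ 1 / 1000 ∧ κ ≤ lam / 4 ∧ 0 < D ∧ 2 ≤ c0 ∧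
    ∀ T : Finset (ℕ × ℕ × ℕ), Cell K T →
      (∀ t ∈ T, (t.1 : ℝ) ≤ (t.2.2 : ℝ) ^ κ ∧
        (rad (t.1 * t.2.1 * t.2.2) : ℝ) ≤ (t.2.2 : ℝ) ^ (lam + κ)) →
      ∀ s ∈ T, c0 ≤ (s.2.2 : ℝ) → (T.card : ℝ) ≤ D * (s.2.2 : ℝ) ^ (lam / 2 - κ) := by
  -- the saving in exponents
  have hK : ∃ (K : ℕ) (i2 : Fin (K + 1)) (κ : ℝ), 0 < κ ∧
      (lam = 1 → ∃ h : K = 16, i2 = Fin.cast (by rw [h]) c3) ∧
      ∀ v w : Fin 3 → Fin (K + 1) → ℝ, Poly K (lam + κ) κ v w → cost w 0 univ ≤ κ →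
      (∃ b : Par K, b.Valid ∧ b.f1 v ≤ lam / 2 - κ ∧ b.f2 v w ≤ lam / 2 - κ) ∨
      (lam = 1 ∧ |v 1 i2 - 1 / 4| ≤ 1 / 10000 ∧ |v 2 i2 - 1 / 4| ≤ 1 / 10000) := by
    by_cases h1 : lam = 1
    · subst h1
      obtain ⟨κ, hκ, H⟩ := compact (K := 16) (lam := 1) c3 (1 / 10000) (by norm_num)
        (fun v w hL hN => ⟨rfl, exact_one hL le_rfl hN⟩)
      exact ⟨16, c3, κ, hκ, fun _ => ⟨rfl, rfl⟩, H⟩
    by_cases h67 : lam = 6 / 7
    · subst h67
      obtain ⟨κ, hκ, H⟩ := compact (K := 25) (lam := 6 / 7) 0 (1 / 10000) (by norm_num)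
        (fun v w hL hN => absurd hN (exact_67 hL le_rfl))
      exact ⟨25, 0, κ, hκ, fun h => absurd h h1, H⟩
    · have hG' : Generic lam := by
        rcases hG with ⟨g1, g2⟩ | g
        · exact generic_of g1 h2 g2 h1 h67
        · exact g
      set T : ℕ := ⌈4 / lam⌉₊ with hT
      have hT4 : 4 ≤ T * lam := by
        have := Nat.le_ceil (4 / lam)
        rw [← hT, div_le_iff₀ h0] at this
        exact this
      obtain ⟨κ, hκ, H⟩ := compact (K := T ^ 2) (lam := lam) 0 (1 / 10000) (by norm_num)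
        (fun v w hL hN => absurd hN (exact_generic hL h2 T hT4 le_rfl hG'))
      exact ⟨T ^ 2, 0, κ, hκ, fun h => absurd h h1, H⟩
  obtain ⟨K, i2, κ, hκ, hone, H⟩ := hK
  obtain ⟨D, hD, HM⟩ := mbound K (κ / 2) (by positivity)
  obtain ⟨cA, HA⟩ := cellA
  refine ⟨K, min (min (κ / 2) (1 / 1000)) (lam / 4), 2 * D + 1,
    max (max 2 cA) (Real.exp (Real.log 2 / κ)), by positivity,
    (min_le_left _ _).trans (min_le_right _ _), min_le_right _ _, by positivity,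
    (le_max_left _ _).trans (le_max_left _ _), ?_⟩
  set κ' : ℝ := min (min (κ / 2) (1 / 1000)) (lam / 4) with hκ'
  have k1 : κ' ≤ κ / 2 := (min_le_left _ _).trans (min_le_left _ _)
  have k2 : κ' ≤ 1 / 1000 := (min_le_left _ _).trans (min_le_right _ _)
  intro T hT hP s hs hc0
  have habc := hT.abc s hs
  have hc2 : (2 : ℝ) ≤ s.2.2 := by exact_mod_cast Bridge.two_le_c habc
  have hc1 : (1 : ℝ) ≤ s.2.2 := by linarith
  have hc : (0 : ℝ) < s.2.2 := by linarith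
  have hlog : 0 < Real.log s.2.2 := Real.log_pos (by linarith)
  have hlogc : Real.log 2 / Real.log s.2.2 ≤ κ := by
    have h3 : Real.exp (Real.log 2 / κ) ≤ s.2.2 := (le_max_right _ _).trans hc0
    have h4 := (Real.le_log_iff_exp_le hc).2 h3
    rw [div_le_iff₀ hκ] at h4
    rw [div_le_iff₀ hlog]
    linarith
  obtain ⟨ha, hr⟩ := hP s hs
  have hpoly0 := Pool.Agent.H705R2.ABC.PO.stmtPoly_of basics K (lam + κ') s habc (hT.le s hs) hr
  have hpoly : Poly K (lam + κ) κ (expV K s) (expW K s) :=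
    poly_mono hpoly0 (by linarith) hlogc
  have hcost : cost (expW K s) 0 univ ≤ κ := by
    have hn0 : num s 0 = s.1 := rfl
    rw [Pool.Agent.H705R2.ABC.PO.cost_expW basics K s 0 (by rw [hn0]; exact habc.1), hn0,
      div_le_iff₀ hlog]
    have hpos : (0 : ℝ) < s.1 := by exact_mod_cast habc.1
    calc Real.log s.1 ≤ Real.log ((s.2.2 : ℝ) ^ κ') := Real.log_le_log hpos ha
      _ = κ' * Real.log s.2.2 := Real.log_rpow hc _
      _ ≤ κ * Real.log s.2.2 := by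
          apply mul_le_mul_of_nonneg_right _ hlog.le
          linarith
  have hpos' : 0 < (s.2.2 : ℝ) ^ (lam / 2 - κ') := Real.rpow_pos_of_pos hc _
  rcases H _ _ hpoly hcost with ⟨b, hb, f1, f2⟩ | ⟨hl1, t1, t2⟩
  · have hb' := HM T hT s hs b hb
    calc (T.card : ℝ) ≤ D * (s.2.2 : ℝ) ^ (κ / 2) *
          ((s.2.2 : ℝ) ^ b.f1 (expV K s) + (s.2.2 : ℝ) ^ b.f2 (expV K s) (expW K s)) := hb'
      _ ≤ D * (s.2.2 : ℝ) ^ (κ / 2) *
          ((s.2.2 : ℝ) ^ (lam / 2 - κ) + (s.2.2 : ℝ) ^ (lam / 2 - κ)) := by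
          apply mul_le_mul_of_nonneg_left _ (by positivity)
          exact add_le_add (Real.rpow_le_rpow_of_exponent_le hc1 f1)
            (Real.rpow_le_rpow_of_exponent_le hc1 f2)
      _ = 2 * D * ((s.2.2 : ℝ) ^ (κ / 2) * (s.2.2 : ℝ) ^ (lam / 2 - κ)) := by ring
      _ = 2 * D * (s.2.2 : ℝ) ^ (lam / 2 - κ / 2) := by
          rw [← Real.rpow_add hc]; congr 2; ring
      _ ≤ 2 * D * (s.2.2 : ℝ) ^ (lam / 2 - κ') := by
          apply mul_le_mul_of_nonneg_left _ (by positivity)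
          exact Real.rpow_le_rpow_of_exponent_le hc1 (by linarith)
      _ ≤ (2 * D + 1) * (s.2.2 : ℝ) ^ (lam / 2 - κ') := by
          apply mul_le_mul_of_nonneg_right _ hpos'.le
          linarith
  · subst hl1
    obtain ⟨hK16, hi2⟩ := hone rfl
    subst hK16
    have hi2' : i2 = c3 := hi2
    subst hi2'
    have hA := HA T hT s hs (((le_max_right _ _).trans (le_max_left _ _)).trans hc0) t1 t2
      (fun t ht => by
        obtain ⟨hat, -⟩ := hP t ht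
        have : (1 : ℝ) ≤ t.2.2 := by
          have := Bridge.two_le_c (hT.abc t ht)
          exact_mod_cast (by omega : 1 ≤ t.2.2)
        exact hat.trans (Real.rpow_le_rpow_of_exponent_le this (by linarith)))
    calc (T.card : ℝ) ≤ (s.2.2 : ℝ) ^ (4953 / 10000 : ℝ) := hA
      _ ≤ (s.2.2 : ℝ) ^ ((1 : ℝ) / 2 - κ') :=
          Real.rpow_le_rpow_of_exponent_le hc1 (by linarith)
      _ = 1 * (s.2.2 : ℝ) ^ ((1 : ℝ) / 2 - κ') := (one_mul _).symm
      _ ≤ (2 * D + 1) * (s.2.2 : ℝ) ^ ((1 : ℝ) / 2 - κ') := by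
          apply mul_le_mul_of_nonneg_right _ hpos'.le
          linarith

end Pool.Agent.H541.SM
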