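import Mathlib
import Pool.Agent.H541.SM.Asm

/-!
# The count of abc-triples with a tiny member
-/

namespace Pool.Agent.H541.SM

open Finset Pool.Agent.H785R2.ABC Pool.Agent.H785R2.ABC.Fin1

/-- from cells to the count -/
theorem assemble (K : ℕ) (P : ℕ × ℕ × ℕ → Prop) (D c0 θ : ℝ) (hD : 0 < D) (hθ : 0 ≤ θ)
    (hP : ∀ t, P t → IsABCTriple t.1 t.2.1 t.2.2 ∧ t.1 ≤ t.2.1 ∧ c0 ≤ (t.2.2 : ℝ))
    (hcell : ∀ T : Finset (ℕ × ℕ × ℕ), Cell K T → (∀ t ∈ T, P t) → ∀ s ∈ T,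
      (T.card : ℝ) ≤ D * (s.2.2 : ℝ) ^ θ) (ε : ℝ) (hε : 0 < ε) :
    ∃ C : ℝ, 0 < C ∧ ∀ X : ℕ, 1 ≤ X → ∀ A : Finset (ℕ × ℕ × ℕ), (∀ t ∈ A, P t ∧ t.2.2 ≤ X) →
      (A.card : ℝ) ≤ C * (X : ℝ) ^ (θ + ε) := by
  classical
  set m : ℕ := 2 * ((K + 1) * 3) with hm
  have hmpos : (0 : ℝ) < m := by
    rw [hm]; positivity
  set η : ℝ := ε / m with hη
  have hηpos : 0 < η := by rw [hη]; positivity
  refine ⟨(1 + 2 / η) ^ m * D, by positivity, ?_⟩
  intro X hX A1 hA1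
  have hX' : (1 : ℝ) ≤ X := by exact_mod_cast hX
  have hXp : (0 : ℝ) < X := by linarith
  set L := Nat.log 2 X with hL
  have hsgle : ∀ t ∈ A1, ∀ j i, (sg K t j i).1 ≤ L ∧ (sg K t j i).2 ≤ L := by
    intro t ht j i
    obtain ⟨h0, h2⟩ := hA1 t ht
    have h1 := (hP t h0).1
    have hn := Fin1.num_pos h1 j
    have hnX : num t j ≤ X := (Fin1.num_le h1 j).trans h2
    constructor
    · change Nat.log 2 (rd K (num t j) {i}) ≤ Nat.log 2 X
      apply Nat.log_mono_right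
      have e1 : rd K (num t j) {i} ∣ rad (num t j) := by
        rw [← basics.rd_univ K (num t j)]
        exact basics.rd_dvd K _ _ _ (subset_univ _)
      have e2 : rad (num t j) ∣ num t j := Nat.prod_primeFactors_dvd _
      exact (Nat.le_of_dvd hn (e1.trans e2)).trans hnX
    · change Nat.log 2 (part K (num t j) {i}) ≤ Nat.log 2 X
      apply Nat.log_mono_right
      exact (Nat.le_of_dvd hn (basics.part_dvd K _ _ hn)).trans hnX
  set sgF : (ℕ × ℕ × ℕ) → (Fin 3 → Fin (K + 1) → Fin (L + 1) × Fin (L + 1)) := fun t j i =>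
    (Fin.ofNat (L + 1) (sg K t j i).1, Fin.ofNat (L + 1) (sg K t j i).2) with hsgF
  have hinj : ∀ t ∈ A1, ∀ t' ∈ A1, sgF t = sgF t' → sg K t = sg K t' := by
    intro t ht t' ht' h
    funext j i
    have h1 := congrFun (congrFun h j) i
    simp only [hsgF, Prod.mk.injEq] at h1
    have a1 := hsgle t ht j i
    have a2 := hsgle t' ht' j i
    have b1 := congrArg Fin.val h1.1
    have b2 := congrArg Fin.val h1.2
    simp only [Fin.ofNat] at b1 b2
    rw [Nat.mod_eq_of_lt (by omega), Nat.mod_eq_of_lt (by omega)] at b1 b2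
    exact Prod.ext b1 b2
  have hA1card : (A1.card : ℝ) ≤ ((L + 1 : ℕ) : ℝ) ^ m * (D * (X : ℝ) ^ θ) := by
    have h1 := card_eq_sum_card_fiberwise (f := sgF) (s := A1) (t := univ)
      (fun _ _ => mem_coe.2 (mem_univ _))
    rw [h1]
    push_cast
    calc ∑ σ : (Fin 3 → Fin (K + 1) → Fin (L + 1) × Fin (L + 1)),
          ((A1.filter (fun t => sgF t = σ)).card : ℝ)
        ≤ ∑ σ : (Fin 3 → Fin (K + 1) → Fin (L + 1) × Fin (L + 1)), D * (X : ℝ) ^ θ := by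
          apply sum_le_sum
          intro σ _
          rcases (A1.filter (fun t => sgF t = σ)).eq_empty_or_nonempty with h0 | ⟨s, hs⟩
          · rw [h0]
            simp only [card_empty, Nat.cast_zero]
            positivity
          · have hcl : Cell K (A1.filter (fun t => sgF t = σ)) := by
              apply cell_of basics
              · intro s hs
                exact (hP s (hA1 s (mem_filter.1 hs).1).1).1
              · intro s hs
                exact (hP s (hA1 s (mem_filter.1 hs).1).1).2.1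
              · intro s hs s' hs'
                rw [mem_filter] at hs hs'
                exact hinj s hs.1 s' hs'.1 (hs.2.trans hs'.2.symm)
            have h3 := hcell _ hcl (fun t ht => (hA1 t (mem_filter.1 ht).1).1) s hs
            refine h3.trans (mul_le_mul_of_nonneg_left ?_ hD.le)
            exact Real.rpow_le_rpow (Nat.cast_nonneg _)
              (by exact_mod_cast (hA1 s (mem_filter.1 hs).1).2) hθ
      _ = _ := by
          rw [sum_const, nsmul_eq_mul, card_univ]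
          congr 1
          simp only [Fintype.card_fun, Fintype.card_prod, Fintype.card_fin]
          have e3 : ((L + 1) * (L + 1)) = (L + 1) ^ 2 := by ring
          rw [e3, ← pow_mul, ← pow_mul, Nat.cast_pow]
          rw [← hm]
          push_cast
          rfl
  have hLb := log_le X hX η hηpos
  have hLm : ((L + 1 : ℕ) : ℝ) ^ m ≤ (1 + 2 / η) ^ m * (X : ℝ) ^ ε := by
    calc ((L + 1 : ℕ) : ℝ) ^ m ≤ ((1 + 2 / η) * (X : ℝ) ^ η) ^ m :=
          pow_le_pow_left₀ (Nat.cast_nonneg _) hLb m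
      _ = (1 + 2 / η) ^ m * (X : ℝ) ^ ε := by
          rw [mul_pow]
          congr 1
          rw [← Real.rpow_natCast, ← Real.rpow_mul hXp.le]
          congr 1
          rw [hη]; field_simp
  calc (A1.card : ℝ) ≤ ((L + 1 : ℕ) : ℝ) ^ m * (D * (X : ℝ) ^ θ) := hA1card
    _ ≤ ((1 + 2 / η) ^ m * (X : ℝ) ^ ε) * (D * (X : ℝ) ^ θ) :=
        mul_le_mul_of_nonneg_right hLm (by positivity)
    _ = (1 + 2 / η) ^ m * D * (X : ℝ) ^ (θ + ε) := by
        have : (X : ℝ) ^ (θ + ε) = (X : ℝ) ^ ε * (X : ℝ) ^ θ := by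
          rw [← Real.rpow_add hXp]; congr 1; ring
        rw [this]; ring

/-- the triples with a tiny member -/
def Tiny (lam δ : ℝ) (X : ℕ) : Set (ℕ × ℕ × ℕ) :=
  {t | IsABCTriple t.1 t.2.1 t.2.2 ∧ t.2.2 ≤ X ∧ (t.1 : ℝ) ≤ (t.2.2 : ℝ) ^ δ ∧
    (rad (t.1 * t.2.1 * t.2.2) : ℝ) ≤ (t.2.2 : ℝ) ^ (lam + δ)}

lemma tiny_finite (lam δ : ℝ) (X : ℕ) : (Tiny lam δ X).Finite := by
  refine Set.Finite.subset (Finset.finite_toSet
    ((range (X + 1)) ×ˢ (range (X + 1)) ×ˢ (range (X + 1)))) ?_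
  rintro ⟨a, b, c⟩ ⟨⟨h1, h2, h3, h4, h5⟩, h6, h7⟩
  simp only at h1 h2 h4 h6
  simp only [coe_product, Set.mem_prod, coe_range, Set.mem_Iio]
  omega

theorem count_tiny (lam : ℝ) (h0 : 0 < lam) (h2 : lam < 2) (hG : Adm lam) :
    ∃ δ : ℝ, 0 < δ ∧ δ ≤ lam / 4 ∧ δ ≤ 1 / 1000 ∧ ∃ C : ℝ, 0 < C ∧ ∀ X : ℕ, 1 ≤ X →
      ((Tiny lam δ X).ncard : ℝ) ≤ C * (X : ℝ) ^ (lam / 2 - δ) := by
  classical
  obtain ⟨K, κ, D, c0, hκ, hκ1, hκ2, hD, hc0, H⟩ := cell_bound lam h0 h2 hG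
  set c1 : ℕ := ⌈c0⌉₊ + 4 with hc1
  obtain ⟨C, hC, HC⟩ := assemble K (fun t => IsABCTriple t.1 t.2.1 t.2.2 ∧ t.1 ≤ t.2.1 ∧
      c1 ≤ t.2.2 ∧ (t.1 : ℝ) ≤ (t.2.2 : ℝ) ^ κ ∧
      (rad (t.1 * t.2.1 * t.2.2) : ℝ) ≤ (t.2.2 : ℝ) ^ (lam + κ)) D c0 (lam / 2 - κ) hD
    (by linarith)
    (fun t ht => ⟨ht.1, ht.2.1, by
      have h3 : c0 ≤ (⌈c0⌉₊ : ℝ) := Nat.le_ceil c0
      have h4 : ((⌈c0⌉₊ + 4 : ℕ) : ℝ) ≤ (t.2.2 : ℝ) := by exact_mod_cast ht.2.2.1
      push_cast at h4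
      linarith⟩)
    (fun T hT hP s hs => H T hT (fun t ht => (hP t ht).2.2.2) s hs (by
      have ht := hP s hs
      have h3 : c0 ≤ (⌈c0⌉₊ : ℝ) := Nat.le_ceil c0
      have h4 : ((⌈c0⌉₊ + 4 : ℕ) : ℝ) ≤ (s.2.2 : ℝ) := by exact_mod_cast ht.2.2.1
      push_cast at h4
      linarith)) (κ / 2) (by positivity)
  set δ : ℝ := κ / 2 with hδ
  refine ⟨δ, by positivity, by linarith, by linarith,
    C + ((Tiny lam δ c1).ncard : ℝ), by positivity, ?_⟩
  intro X hX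
  have hX1 : (1 : ℝ) ≤ X := by exact_mod_cast hX
  have hθ0 : 0 ≤ lam / 2 - δ := by linarith
  -- large triples
  set B : Set (ℕ × ℕ × ℕ) := {t | t ∈ Tiny lam δ X ∧ c1 ≤ t.2.2} with hB
  have hBfin : B.Finite := (tiny_finite lam δ X).subset fun t ht => ht.1
  have hsub : Tiny lam δ X ⊆ B ∪ Tiny lam δ c1 := by
    intro t ht
    by_cases h : c1 ≤ t.2.2
    · exact Or.inl ⟨ht, h⟩
    · right
      push Not at h
      exact ⟨ht.1, h.le, ht.2.2⟩
  have h1 : ((Tiny lam δ X).ncard : ℝ) ≤ (B.ncard : ℝ) + ((Tiny lam δ c1).ncard : ℝ) := by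
    have h3 := Set.ncard_le_ncard hsub (hBfin.union (tiny_finite lam δ c1))
    have h4 := Set.ncard_union_le B (Tiny lam δ c1)
    exact_mod_cast h3.trans h4
  have h3 : (B.ncard : ℝ) ≤ C * (X : ℝ) ^ (lam / 2 - κ + κ / 2) := by
    have h4 := HC X hX hBfin.toFinset (by
      intro t ht
      rw [Set.Finite.mem_toFinset] at ht
      obtain ⟨⟨hab, hcX, hta, htr⟩, hc⟩ := ht
      have hcpos : 4 ≤ t.2.2 := by omega
      have hc1' : (1 : ℝ) ≤ (t.2.2 : ℝ) := by exact_mod_cast (by omega : 1 ≤ t.2.2)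
      refine ⟨⟨hab, ?_, hc, ?_, ?_⟩, hcX⟩
      · have h5 : (t.1 : ℝ) ≤ (t.2.2 : ℝ) / 2 := by
          calc (t.1 : ℝ) ≤ (t.2.2 : ℝ) ^ δ := hta
            _ ≤ (t.2.2 : ℝ) ^ (1 / 2 : ℝ) :=
                Real.rpow_le_rpow_of_exponent_le hc1' (by linarith)
            _ = Real.sqrt t.2.2 := by rw [Real.sqrt_eq_rpow]
            _ ≤ (t.2.2 : ℝ) / 2 := by
                rw [Real.sqrt_le_left (by positivity)]
                have : (4 : ℝ) ≤ (t.2.2 : ℝ) := by exact_mod_cast hcpos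
                nlinarith
        have h6 : 2 * t.1 ≤ t.2.2 := by
          have : 2 * (t.1 : ℝ) ≤ (t.2.2 : ℝ) := by linarith
          exact_mod_cast this
        have h7 := hab.2.2.2.1
        omega
      · exact hta.trans (Real.rpow_le_rpow_of_exponent_le hc1' (by linarith))
      · exact htr.trans (Real.rpow_le_rpow_of_exponent_le hc1' (by linarith)))
    rwa [← Set.ncard_eq_toFinset_card B hBfin] at h4
  have e : lam / 2 - κ + κ / 2 = lam / 2 - δ := by rw [hδ]; ring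
  rw [e] at h3
  have h4 : ((Tiny lam δ c1).ncard : ℝ) ≤
      ((Tiny lam δ c1).ncard : ℝ) * (X : ℝ) ^ (lam / 2 - δ) :=
    le_mul_of_one_le_right (Nat.cast_nonneg _) (Real.one_le_rpow hX1 hθ0)
  calc ((Tiny lam δ X).ncard : ℝ) ≤ (B.ncard : ℝ) + ((Tiny lam δ c1).ncard : ℝ) := h1
    _ ≤ _ := by
        rw [add_mul]
        exact add_le_add h3 h4

end Pool.Agent.H541.SM
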