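import Mathlib
import Pool.Agent.H541.SM.Cnt

/-!
# From triples to finite sets of rational points of the line: algebra
-/

namespace Pool.Agent.H541.SM

open Finset Pool.Agent.H785R2.ABC

/-- the linear form attached to the point `α` (the determinant of `α` and `x`) -/
def lf (α x : ℤ × ℤ) : ℤ := α.1 * x.2 - α.2 * x.1

/-- the height of a point with coprime integral coordinates -/
def ht (x : ℤ × ℤ) : ℕ := max x.1.natAbs x.2.natAbs

lemma plucker (o i j x : ℤ × ℤ) : lf i j * lf o x + lf j o * lf i x + lf o i * lf j x = 0 := by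
  unfold lf; ring

lemma cramer1 (o i x : ℤ × ℤ) : i.1 * lf o x - o.1 * lf i x = x.1 * lf o i := by
  unfold lf; ring

lemma cramer2 (o i x : ℤ × ℤ) : i.2 * lf o x - o.2 * lf i x = x.2 * lf o i := by
  unfold lf; ring

lemma abs1_le (x : ℤ × ℤ) : |(x.1 : ℝ)| ≤ ht x := by
  have h : |x.1| ≤ (ht x : ℤ) := by
    rw [Int.abs_eq_natAbs]
    exact_mod_cast le_max_left _ _
  exact_mod_cast h

lemma abs2_le (x : ℤ × ℤ) : |(x.2 : ℝ)| ≤ ht x := by
  have h : |x.2| ≤ (ht x : ℤ) := by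
    rw [Int.abs_eq_natAbs]
    exact_mod_cast le_max_right _ _
  exact_mod_cast h

lemma lf_le (α x : ℤ × ℤ) : |(lf α x : ℝ)| ≤ 2 * ht α * ht x := by
  unfold lf
  push_cast
  calc |(α.1 : ℝ) * x.2 - α.2 * x.1| ≤ |(α.1 : ℝ) * x.2| + |(α.2 : ℝ) * x.1| := abs_sub _ _
    _ = |(α.1 : ℝ)| * |(x.2 : ℝ)| + |(α.2 : ℝ)| * |(x.1 : ℝ)| := by rw [abs_mul, abs_mul]
    _ ≤ ht α * ht x + ht α * ht x :=
        add_le_add (mul_le_mul (abs1_le α) (abs2_le x) (abs_nonneg _) (Nat.cast_nonneg _))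
          (mul_le_mul (abs2_le α) (abs1_le x) (abs_nonneg _) (Nat.cast_nonneg _))
    _ = _ := by ring

/-- the height is bounded by two linear forms -/
lemma ht_le (o i x : ℤ × ℤ) (M : ℝ) (ho : (ht o : ℝ) ≤ M) (hi : (ht i : ℝ) ≤ M)
    (hd : lf o i ≠ 0) : (ht x : ℝ) ≤ M * (|(lf o x : ℝ)| + |(lf i x : ℝ)|) := by
  have h1 : (1 : ℝ) ≤ |(lf o i : ℝ)| := by
    have := Int.one_le_abs hd
    exact_mod_cast this
  have key : ∀ a b y : ℝ, |a| ≤ M → |b| ≤ M → a * (lf o x : ℝ) - b * (lf i x : ℝ) = y * (lf o i : ℝ) →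
      |y| ≤ M * (|(lf o x : ℝ)| + |(lf i x : ℝ)|) := by
    intro a b y ha hb h
    calc |y| = |y| * 1 := (mul_one _).symm
      _ ≤ |y| * |(lf o i : ℝ)| := mul_le_mul_of_nonneg_left h1 (abs_nonneg _)
      _ = |a * (lf o x : ℝ) - b * (lf i x : ℝ)| := by rw [h, abs_mul]
      _ ≤ |a * (lf o x : ℝ)| + |b * (lf i x : ℝ)| := abs_sub _ _
      _ = |a| * |(lf o x : ℝ)| + |b| * |(lf i x : ℝ)| := by rw [abs_mul, abs_mul]
      _ ≤ M * |(lf o x : ℝ)| + M * |(lf i x : ℝ)| := by gcongr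
      _ = _ := by ring
  have k1 : |(x.1 : ℝ)| ≤ M * (|(lf o x : ℝ)| + |(lf i x : ℝ)|) :=
    key i.1 o.1 x.1 ((abs1_le i).trans hi) ((abs1_le o).trans ho)
      (by exact_mod_cast cramer1 o i x)
  have k2 : |(x.2 : ℝ)| ≤ M * (|(lf o x : ℝ)| + |(lf i x : ℝ)|) :=
    key i.2 o.2 x.2 ((abs2_le i).trans hi) ((abs2_le o).trans ho)
      (by exact_mod_cast cramer2 o i x)
  have e : (ht x : ℝ) = max |(x.1 : ℝ)| |(x.2 : ℝ)| := by
    unfold ht
    rw [Nat.cast_max, Nat.cast_natAbs, Nat.cast_natAbs]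
    push_cast
    rfl
  rw [e]
  exact max_le k1 k2

/-- a point is determined by two linear forms -/
lemma eq_of_lf (o i x y : ℤ × ℤ) (hd : lf o i ≠ 0) (h1 : lf o x = lf o y) (h2 : lf i x = lf i y) :
    x = y := by
  have a1 := cramer1 o i x
  have a2 := cramer1 o i y
  have b1 := cramer2 o i x
  have b2 := cramer2 o i y
  rw [h1, h2] at a1 b1
  refine Prod.ext ?_ ?_
  · exact mul_right_cancel₀ hd (a1.symm.trans a2)
  · exact mul_right_cancel₀ hd (b1.symm.trans b2)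

/-- the greatest common divisor of two linear forms at a point with coprime coordinates -/
lemma gcd_dvd (o i x : ℤ × ℤ) (hx : IsCoprime x.1 x.2) (g : ℤ) (h1 : g ∣ lf o x)
    (h2 : g ∣ lf i x) : g ∣ lf o i := by
  obtain ⟨u, v, huv⟩ := hx
  have e : lf o i = u * (i.1 * lf o x - o.1 * lf i x) + v * (i.2 * lf o x - o.2 * lf i x) := by
    rw [cramer1, cramer2]
    linear_combination (-lf o i) * huv
  rw [e]
  exact dvd_add (Dvd.dvd.mul_left (dvd_sub (Dvd.dvd.mul_left h1 _) (Dvd.dvd.mul_left h2 _)) _)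
    (Dvd.dvd.mul_left (dvd_sub (Dvd.dvd.mul_left h1 _) (Dvd.dvd.mul_left h2 _)) _)

lemma gcd_mul_dvd (a b u v : ℤ) (g : ℤ) (h1 : g ∣ a * u) (h2 : g ∣ b * v) :
    g ∣ a * b * (Int.gcd u v : ℤ) := by
  have e : (Int.gcd u v : ℤ) = u * Int.gcdA u v + v * Int.gcdB u v := Int.gcd_eq_gcd_ab u v
  rw [e]
  have : a * b * (u * Int.gcdA u v + v * Int.gcdB u v) =
      (a * u) * (b * Int.gcdA u v) + (b * v) * (a * Int.gcdB u v) := by ring
  rw [this]
  exact dvd_add (Dvd.dvd.mul_right h1 _) (Dvd.dvd.mul_right h2 _)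

/-- the abc-triple of three integers with sum zero -/
lemma triple_of (A B C : ℤ) (h : A + B + C = 0) (hA : A ≠ 0) (hAB : |A| < |B|) :
    ∃ t : ℕ × ℕ × ℕ, IsABCTriple t.1 t.2.1 t.2.2 ∧ t.1 * Int.gcd A B = A.natAbs ∧
      ((|B| ≤ |C| ∧ t.2.1 * Int.gcd A B = B.natAbs ∧ t.2.2 * Int.gcd A B = C.natAbs) ∨
        (¬ |B| ≤ |C| ∧ t.2.2 * Int.gcd A B = B.natAbs ∧ t.2.1 * Int.gcd A B = C.natAbs)) := by
  set g := Int.gcd A B with hg
  have hB : B ≠ 0 := by
    rintro rfl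
    rw [abs_zero] at hAB
    exact absurd (abs_nonneg A) (not_le.2 hAB)
  have hg0 : 0 < g := Int.gcd_pos_of_ne_zero_left _ hA
  have hgz : (g : ℤ) ≠ 0 := by exact_mod_cast hg0.ne'
  obtain ⟨a, ha⟩ : (g : ℤ) ∣ A := Int.gcd_dvd_left _ _
  obtain ⟨b, hb⟩ : (g : ℤ) ∣ B := Int.gcd_dvd_right _ _
  have hC : C = g * (-(a + b)) := by
    linear_combination h - ha - hb
  have hcop : Int.gcd a b = 1 := by
    have h1 : Int.gcd A B = g * Int.gcd a b := by
      conv_lhs => rw [ha, hb]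
      rw [Int.gcd_mul_left]
      simp
    rw [← hg] at h1
    exact Nat.eq_of_mul_eq_mul_left hg0 (by rw [mul_one]; exact h1.symm)
  have ha0 : a ≠ 0 := by rintro rfl; exact hA (by rw [ha, mul_zero])
  have hb0 : b ≠ 0 := by rintro rfl; exact hB (by rw [hb, mul_zero])
  have hab : a.natAbs < b.natAbs := by
    rw [ha, hb, abs_mul, abs_mul] at hAB
    have := lt_of_mul_lt_mul_left hAB (abs_nonneg _)
    rw [Int.abs_eq_natAbs, Int.abs_eq_natAbs] at this
    exact_mod_cast this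
  have nA : A.natAbs = g * a.natAbs := by
    rw [ha, Int.natAbs_mul]; simp
  have nB : B.natAbs = g * b.natAbs := by
    rw [hb, Int.natAbs_mul]; simp
  have nC : C.natAbs = g * (a + b).natAbs := by
    rw [hC, Int.natAbs_mul, Int.natAbs_neg]; simp
  have hBC : |B| ≤ |C| ↔ b.natAbs ≤ (a + b).natAbs := by
    rw [Int.abs_eq_natAbs, Int.abs_eq_natAbs, nB, nC]
    constructor
    · intro h5
      have : g * b.natAbs ≤ g * (a + b).natAbs := by exact_mod_cast h5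
      exact Nat.le_of_mul_le_mul_left this hg0
    · intro h5
      exact_mod_cast Nat.mul_le_mul_left g h5
  have hcopN : Nat.Coprime a.natAbs b.natAbs := hcop
  by_cases hc : |B| ≤ |C|
  · have hc' := hBC.1 hc
    have hsum : a.natAbs + b.natAbs = (a + b).natAbs := by omega
    refine ⟨(a.natAbs, b.natAbs, (a + b).natAbs), ⟨?_, ?_, ?_, hsum, hcopN, ?_, ?_⟩, ?_,
      Or.inl ⟨hc, ?_, ?_⟩⟩
    · exact Int.natAbs_pos.2 ha0
    · exact Int.natAbs_pos.2 hb0
    · have := Int.natAbs_pos.2 hb0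
      show 0 < (a + b).natAbs
      omega
    · show Nat.Coprime a.natAbs (a + b).natAbs
      rw [← hsum]; simpa using hcopN
    · show Nat.Coprime b.natAbs (a + b).natAbs
      rw [← hsum]; simpa using hcopN.symm
    · rw [nA, mul_comm]
    · rw [nB, mul_comm]
    · rw [nC, mul_comm]
  · have hc' : ¬ b.natAbs ≤ (a + b).natAbs := fun h5 => hc (hBC.2 h5)
    have hsum : a.natAbs + (a + b).natAbs = b.natAbs := by omega
    have hcop2 : Nat.Coprime a.natAbs (a + b).natAbs := by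
      rw [← hsum] at hcopN
      simpa using hcopN
    refine ⟨(a.natAbs, (a + b).natAbs, b.natAbs), ⟨?_, ?_, ?_, hsum, hcop2, hcopN, ?_⟩, ?_,
      Or.inr ⟨hc, ?_, ?_⟩⟩
    · exact Int.natAbs_pos.2 ha0
    · show 0 < (a + b).natAbs
      omega
    · exact Int.natAbs_pos.2 hb0
    · show Nat.Coprime (a + b).natAbs b.natAbs
      rw [← hsum]
      simpa using hcop2.symm
    · rw [nA, mul_comm]
    · rw [nB, mul_comm]
    · rw [nC, mul_comm]

end Pool.Agent.H541.SM
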