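import Mathlib
import Pool.Agent.H541.SM.Red2

/-!
# Finite sets of rational points of the line: a power saving for the exceptional points near one
of the points
-/

namespace Pool.Agent.H541.SM

open Finset

/-- the two smallest of some numbers -/
lemma two_smallest {q : ℕ} (hq : 3 ≤ q) (o : Fin q) (N : Fin q → ℝ) (hN : ∀ i, 0 ≤ N i) :
    ∃ i j : Fin q, i ≠ o ∧ j ≠ o ∧ i ≠ j ∧ N i + N j ≤ 2 / ((q : ℝ) - 1) * ∑ i, N i := by
  classical
  set E : Finset (Fin q) := univ.erase o with hE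
  have hEc : E.card = q - 1 := by rw [hE, card_erase_of_mem (mem_univ _), card_univ, Fintype.card_fin]
  have hEne : E.Nonempty := card_pos.1 (by omega)
  obtain ⟨i, hi, himin⟩ := E.exists_min_image N hEne
  set E' : Finset (Fin q) := E.erase i with hE'
  have hEc' : E'.card = q - 2 := by rw [hE', card_erase_of_mem hi, hEc]; omega
  have hEne' : E'.Nonempty := card_pos.1 (by omega)
  obtain ⟨j, hj, hjmin⟩ := E'.exists_min_image N hEne'
  have hio : i ≠ o := (mem_erase.1 hi).1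
  have hj1 := mem_erase.1 hj
  have hjo : j ≠ o := (mem_erase.1 hj1.2).1
  refine ⟨i, j, hio, hjo, hj1.1.symm, ?_⟩
  have s1 : (E.card : ℝ) * N i ≤ ∑ k ∈ E, N k := by
    rw [← nsmul_eq_mul]
    exact card_nsmul_le_sum _ _ _ himin
  have s2 : (E'.card : ℝ) * N j ≤ ∑ k ∈ E', N k := by
    rw [← nsmul_eq_mul]
    exact card_nsmul_le_sum _ _ _ hjmin
  have s3 : N i + ∑ k ∈ E', N k = ∑ k ∈ E, N k := add_sum_erase _ _ hi
  have s4 : N o + ∑ k ∈ E, N k = ∑ k, N k := add_sum_erase _ _ (mem_univ o)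
  have e1 : (E.card : ℝ) = (q : ℝ) - 1 := by
    rw [hEc, Nat.cast_sub (by omega)]; norm_num
  have e2 : (E'.card : ℝ) = (q : ℝ) - 2 := by
    rw [hEc', Nat.cast_sub (by omega)]; norm_num
  rw [e1] at s1
  rw [e2] at s2
  have hqr : (3 : ℝ) ≤ q := by exact_mod_cast hq
  set T := ∑ k ∈ E, N k with hT
  have hT2 : T ≤ ∑ k, N k := by linarith [hN o]
  rw [div_mul_eq_mul_div, le_div_iff₀ (by linarith)]
  have key : (N i + N j) * ((q : ℝ) - 1) ≤ 2 * T := by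
    have h1 : 0 < (q : ℝ) - 2 := by linarith
    have h2 : ((q : ℝ) - 2) * ((N i + N j) * ((q : ℝ) - 1)) ≤ ((q : ℝ) - 2) * (2 * T) := by
      have h3 : ((q : ℝ) - 2) * N j ≤ T - N i := by linarith
      have h4 := mul_le_mul_of_nonneg_left h3 (by linarith : (0 : ℝ) ≤ (q : ℝ) - 1)
      have h5 := mul_le_mul_of_nonneg_left s1 (by linarith : (0 : ℝ) ≤ (q : ℝ) - 3)
      nlinarith
    exact le_of_mul_le_mul_left h2 h1
  linarith

/-- the exceptional points near the point `α o` -/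
def Exc {q : ℕ} (S : Finset ℕ) (α : Fin q → ℤ × ℤ) (o : Fin q) (θ δ B : ℝ) : Set (ℤ × ℤ) :=
  {x | IsCoprime x.1 x.2 ∧ (ht x : ℝ) ≤ B ∧ (∀ i, lf (α i) x ≠ 0) ∧
    (1 - δ) * Real.log (ht x) ≤ lamInf (α o) x ∧
    ∑ i, tr S (α i) x ≤ (θ + δ) * Real.log (ht x)}

lemma tr_nonneg (S : Finset ℕ) (α x : ℤ × ℤ) : 0 ≤ tr S α x :=
  sum_nonneg fun p hp => Real.log_nonneg (by
    have := (Nat.prime_of_mem_primeFactors (mem_sdiff.1 hp).1).one_le
    exact_mod_cast this)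

lemma lf_antisymm (a b : ℤ × ℤ) : lf a b = - lf b a := by unfold lf; ring

theorem finset_points (q : ℕ) (hq : 3 ≤ q) (α : Fin q → ℤ × ℤ)
    (hα : ∀ i j, i ≠ j → lf (α i) (α j) ≠ 0) (S : Finset ℕ) (o : Fin q)
    (θ : ℝ) (hθ0 : 0 < θ) (hθ1 : θ < q - 1) (hadm : Adm (2 * θ / ((q : ℝ) - 1))) :
    ∃ δ : ℝ, 0 < δ ∧ ∃ C : ℝ, ∀ B : ℝ, 1 ≤ B →
      (Exc S α o θ δ B).Finite ∧
        ((Exc S α o θ δ B).ncard : ℝ) ≤ C * B ^ (θ / ((q : ℝ) - 1) - δ) := by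
  classical
  have hqr : (3 : ℝ) ≤ q := by exact_mod_cast hq
  have hq1 : (0 : ℝ) < (q : ℝ) - 1 := by linarith
  set lam : ℝ := 2 * θ / ((q : ℝ) - 1) with hlam
  have hl0 : 0 < lam := by rw [hlam]; positivity
  have hl2 : lam < 2 := by rw [hlam, div_lt_iff₀ hq1]; linarith
  have h3 : ∀ p : Fin q × Fin q, ∃ δ0 : ℝ, 0 < δ0 ∧ ((p.1 ≠ o ∧ p.2 ≠ o ∧ p.1 ≠ p.2) →
      ∀ δ : ℝ, 0 < δ → δ ≤ δ0 → ∃ C : ℝ, 0 < C ∧ ∀ B : ℝ, 1 ≤ B →
      ((Exc3 S (α o) (α p.1) (α p.2) lam δ B).ncard : ℝ) ≤ C * B ^ (lam / 2 - δ)) := by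
    intro p
    by_cases hp : p.1 ≠ o ∧ p.2 ≠ o ∧ p.1 ≠ p.2
    · obtain ⟨δ0, h1, h2⟩ := red3 S (α o) (α p.1) (α p.2) (hα _ _ hp.1.symm) (hα _ _ hp.2.2)
        (hα _ _ hp.2.1) lam hl0 hl2 hadm
      exact ⟨δ0, h1, fun _ => h2⟩
    · exact ⟨1, one_pos, fun h => absurd h hp⟩
  choose δ0 hδ0 hb using h3
  have hne : (univ : Finset (Fin q × Fin q)).Nonempty := ⟨(o, o), mem_univ _⟩
  set δ : ℝ := (univ : Finset (Fin q × Fin q)).inf' hne δ0 with hδ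
  have hδpos : 0 < δ := by
    rw [hδ, lt_inf'_iff]
    exact fun p _ => hδ0 p
  have hδle : ∀ p, δ ≤ δ0 p := fun p => inf'_le _ (mem_univ p)
  have h4 : ∀ p : Fin q × Fin q, ∃ C : ℝ, 0 < C ∧ ((p.1 ≠ o ∧ p.2 ≠ o ∧ p.1 ≠ p.2) →
      ∀ B : ℝ, 1 ≤ B →
      ((Exc3 S (α o) (α p.1) (α p.2) lam δ B).ncard : ℝ) ≤ C * B ^ (lam / 2 - δ)) := by
    intro p
    by_cases hp : p.1 ≠ o ∧ p.2 ≠ o ∧ p.1 ≠ p.2
    · obtain ⟨C, h1, h2⟩ := hb p hp δ hδpos (hδle p)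
      exact ⟨C, h1, fun _ => h2⟩
    · exact ⟨1, one_pos, fun h => absurd h hp⟩
  choose C hC hcount using h4
  refine ⟨δ, hδpos, ∑ p, C p, fun B hB => ?_⟩
  have hB0 : 0 < B := by linarith
  have hfin : (Exc S α o θ δ B).Finite := (box_finite B).subset fun x hx => hx.2.1
  refine ⟨hfin, ?_⟩
  set P : Finset (Fin q × Fin q) := univ.filter fun p => p.1 ≠ o ∧ p.2 ≠ o ∧ p.1 ≠ p.2 with hP
  have hsub : Exc S α o θ δ B ⊆ ⋃ p ∈ P, Exc3 S (α o) (α p.1) (α p.2) lam δ B := by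
    rintro x ⟨h1, h2, h5, h6, h7⟩
    obtain ⟨i, j, hio, hjo, hij, hN⟩ := two_smallest hq o (fun i => tr S (α i) x)
      (fun i => tr_nonneg S (α i) x)
    rw [Set.mem_iUnion₂]
    refine ⟨(i, j), by rw [hP, mem_filter]; exact ⟨mem_univ _, hio, hjo, hij⟩, h1, h2, h5 o, h5 i,
      h5 j, h6, ?_⟩
    have hlog : 0 ≤ Real.log (ht x) := Real.log_natCast_nonneg _
    calc tr S (α i) x + tr S (α j) x ≤ 2 / ((q : ℝ) - 1) * ∑ i, tr S (α i) x := hN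
      _ ≤ 2 / ((q : ℝ) - 1) * ((θ + δ) * Real.log (ht x)) := by gcongr
      _ = (lam + 2 / ((q : ℝ) - 1) * δ) * Real.log (ht x) := by rw [hlam]; ring
      _ ≤ (lam + δ) * Real.log (ht x) := by
          apply mul_le_mul_of_nonneg_right _ hlog
          have h8 : 2 / ((q : ℝ) - 1) ≤ 1 := by rw [div_le_one hq1]; linarith
          have := mul_le_mul_of_nonneg_right h8 hδpos.le
          linarith
  have hfin3 : ∀ p : Fin q × Fin q, (Exc3 S (α o) (α p.1) (α p.2) lam δ B).Finite := fun p =>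
    (box_finite B).subset fun x hx => hx.2.1
  have hunion : (⋃ p ∈ P, Exc3 S (α o) (α p.1) (α p.2) lam δ B).Finite :=
    Set.Finite.biUnion P.finite_toSet fun p _ => hfin3 p
  have hle : (Exc S α o θ δ B).ncard ≤
      ∑ p ∈ P, (Exc3 S (α o) (α p.1) (α p.2) lam δ B).ncard :=
    (Set.ncard_le_ncard hsub hunion).trans (set_ncard_biUnion_le P _)
  have e : lam / 2 = θ / ((q : ℝ) - 1) := by rw [hlam]; ring
  calc ((Exc S α o θ δ B).ncard : ℝ) ≤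
        ∑ p ∈ P, ((Exc3 S (α o) (α p.1) (α p.2) lam δ B).ncard : ℝ) := by exact_mod_cast hle
    _ ≤ ∑ p ∈ P, C p * B ^ (lam / 2 - δ) :=
        sum_le_sum fun p hp => hcount p (mem_filter.1 hp).2 B hB
    _ ≤ ∑ p, C p * B ^ (lam / 2 - δ) :=
        sum_le_sum_of_subset_of_nonneg (subset_univ _) fun p _ _ =>
          mul_nonneg (hC p).le (Real.rpow_nonneg hB0.le _)
    _ = (∑ p, C p) * B ^ (θ / ((q : ℝ) - 1) - δ) := by rw [← sum_mul, e]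

end Pool.Agent.H541.SM
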